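import Mathlib

/-!
# Satisfiability of 3-CNF formulas and quantum machines reading one clause per step

Definitions only.
-/

open Matrix

namespace Pool.Agent.H774R2.QSAT

/-- Clauses: three literals (a variable and the required value), repetitions are allowed. -/
abbrev Clause (n : ℕ) : Type := Fin 3 → Fin n × Bool

/-- The formula (a family of `m` clauses in `n` variables) is satisfiable: some assignment makes
at least one literal of each clause true. -/
def Sat {n m : ℕ} (φ : Fin m → Clause n) : Prop :=
  ∃ v : Fin n → Bool, ∀ j, ∃ k, v (φ j k).1 = (φ j k).2

/-- Quantum machines whose input consists of `N` letters (elements of `A`), with a memory with `D`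
basis states (`log₂ D` qubits) and `T` steps. In step `t` the memory undergoes an arbitrary quantum
instrument: the outcome `ν < M` is obtained, which determines the position `pos t ν` of the input
that is read (if any), and the Kraus operator `K t ν a` is applied, where `a` is the letter
read (`none` if nothing is read). The positions are thus adaptive: they may depend on the outcomes
of all earlier measurements (as far as stored in the memory) and on randomness; but the input is
not queried in superposition. At the end the memory is measured in the standard basis; the
outcomes in `yes` mean that the machine accepts, all others that it rejects. -/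
structure Machine (N : ℕ) (A : Type) (D T : ℕ) where
  /-- number of outcomes in each step -/
  M : ℕ
  /-- position of the letter read in a step, given the outcome -/
  pos : Fin T → Fin M → Option (Fin N)
  /-- Kraus operator applied in a step, given the outcome and the letter read -/
  K : Fin T → Fin M → Option A → Matrix (Fin D) (Fin D) ℂ
  /-- initial basis state -/
  init : Fin D
  /-- accepting basis states -/
  yes : Finset (Fin D)

namespace Machine

variable {N : ℕ} {A : Type} {D T : ℕ} (Q : Machine N A D T)

/-- The Kraus operator of outcome `ν` in step `t` on input `x`. -/
def kr (x : Fin N → A) (t : Fin T) (ν : Fin Q.M) : Matrix (Fin D) (Fin D) ℂ :=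
  Q.K t ν ((Q.pos t ν).map x)

/-- Every step is a (trace preserving) quantum operation, on every input. -/
def Valid : Prop := ∀ (x : Fin N → A) (t : Fin T), ∑ ν, (Q.kr x t ν)ᴴ * Q.kr x t ν = 1

/-- The state (density matrix) of the memory after `t` steps. -/
noncomputable def state (x : Fin N → A) : ℕ → Matrix (Fin D) (Fin D) ℂ
  | 0 => Matrix.single Q.init Q.init 1
  | t + 1 => if h : t < T then ∑ ν, Q.kr x ⟨t, h⟩ ν * state x t * (Q.kr x ⟨t, h⟩ ν)ᴴ
      else state x t

/-- The probability that the outcome of the final measurement is in `B`. -/
noncomputable def prob (B : Finset (Fin D)) (x : Fin N → A) : ℝ :=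
  ∑ a ∈ B, (Q.state x T a a).re

/-- The machine decides `P` with success probability at least `1/2 + δ` on every input. -/
def Decides (δ : ℝ) (P : (Fin N → A) → Prop) : Prop :=
  ∀ x, (P x → 1 / 2 + δ ≤ Q.prob Q.yes x) ∧ (¬ P x → 1 / 2 + δ ≤ Q.prob Q.yesᶜ x)

end Machine

end Pool.Agent.H774R2.QSAT
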