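import Mathlib
import Pool.Agent.H774R2.QTS.Defs
import Pool.Agent.H774R2.QSAT.Defs

/-!
# Words and bits (auxiliary definitions for the proof)
-/

open Finset

namespace Pool.Agent.H774R2.QSAT

/-- The bits of a sequence of `b` words of length `w`. -/
def flat {b w : ℕ} (y : Fin b → Fin w → ZMod 2) : Fin (b * w) → ZMod 2 :=
  fun i => y (finProdFinEquiv.symm i).1 (finProdFinEquiv.symm i).2

/-- The word to which a bit belongs. -/
def wordOf {b w : ℕ} (i : Fin (b * w)) : Fin b := (finProdFinEquiv.symm i).1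

/-- The bits of the words in `A`. -/
def bitsOf {b : ℕ} (w : ℕ) (A : Finset (Fin b)) : Finset (Fin (b * w)) :=
  univ.filter fun i => wordOf i ∈ A

/-- The pairs `β < β'` of bits with nonzero coefficient. -/
def nz (n : ℕ) (q : ℕ → ZMod 2) : Finset (Fin n × Fin n) :=
  univ.filter fun p => p.1 < p.2 ∧ q (p.1.val * n + p.2.val) ≠ 0

end Pool.Agent.H774R2.QSAT
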