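import Mathlib
import Pool.Agent.H774R2.QSAT.WDefs

/-! # Task ENC: a 3-CNF encoding of the property that some block has quadratic form one -/

open Finset

namespace Pool.Agent.H774R2.QSAT.Enc

open Pool.Agent.H774R2.QTS

/-- the boolean value of an element of `ZMod 2` -/
def tb (a : ZMod 2) : Bool := decide (a = 1)

theorem tb_add (a b : ZMod 2) : tb (a + b) = xor (tb a) (tb b) := by
  revert a b; decide

theorem tb_mul (a b : ZMod 2) : tb (a * b) = (tb a && tb b) := by
  revert a b; decide

theorem tb_zero : tb 0 = false := by decide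

theorem tb_true {a : ZMod 2} : tb a = true ↔ a = 1 := by
  unfold tb; simp

/-- variables -/
inductive Var (B b w p : ℕ)
  | t (i : Fin (B + 1))
  | z (i : Fin B)
  | W (j : Fin b) (v : Fin w → ZMod 2)
  | u (i : Fin (b * w))
  | a (k : Fin p)
  | s (k : Fin (p + 1))

/-- clauses -/
inductive Cls (B b w p : ℕ)
  | start
  | stop
  | chain (i : Fin B)
  | word (i : Fin B) (j : Fin b)
  | bit (j : Fin b) (v : Fin w → ZMod 2) (k : Fin w)
  | conj (k : Fin p) (r₁ r₂ : Bool)
  | sum (k : Fin p) (r₁ r₂ : Bool)
  | zero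
  | one

/-- the sum type of the variables -/
abbrev VarS (B b w p : ℕ) : Type :=
  Fin (B + 1) ⊕ Fin B ⊕ (Fin b × (Fin w → ZMod 2)) ⊕ Fin (b * w) ⊕ Fin p ⊕ Fin (p + 1)

/-- the sum type of the clauses -/
abbrev ClsS (B b w p : ℕ) : Type :=
  Fin 4 ⊕ Fin B ⊕ (Fin B × Fin b) ⊕ (Fin b × (Fin w → ZMod 2) × Fin w) ⊕
    (Fin p × Bool × Bool) ⊕ (Fin p × Bool × Bool)

section

variable {B b w p : ℕ}

def Var.toS : Var B b w p → VarS B b w p
  | .t i => Sum.inl i
  | .z i => Sum.inr (Sum.inl i)
  | .W j v => Sum.inr (Sum.inr (Sum.inl (j, v)))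
  | .u i => Sum.inr (Sum.inr (Sum.inr (Sum.inl i)))
  | .a k => Sum.inr (Sum.inr (Sum.inr (Sum.inr (Sum.inl k))))
  | .s k => Sum.inr (Sum.inr (Sum.inr (Sum.inr (Sum.inr k))))

theorem Var.toS_injective : Function.Injective (Var.toS : Var B b w p → VarS B b w p) := by
  intro x y h
  cases x <;> cases y <;> simp_all [Var.toS]

def Cls.ofS : ClsS B b w p → Cls B b w p
  | Sum.inl i => if i = 0 then .start else if i = 1 then .stop else if i = 2 then .zero else .one
  | Sum.inr (Sum.inl i) => .chain i
  | Sum.inr (Sum.inr (Sum.inl (i, j))) => .word i j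
  | Sum.inr (Sum.inr (Sum.inr (Sum.inl (j, v, k)))) => .bit j v k
  | Sum.inr (Sum.inr (Sum.inr (Sum.inr (Sum.inl (k, r₁, r₂))))) => .conj k r₁ r₂
  | Sum.inr (Sum.inr (Sum.inr (Sum.inr (Sum.inr (k, r₁, r₂))))) => .sum k r₁ r₂

theorem Cls.ofS_surjective : Function.Surjective (Cls.ofS : ClsS B b w p → Cls B b w p) := by
  intro c
  cases c with
  | start => exact ⟨Sum.inl 0, rfl⟩
  | stop => exact ⟨Sum.inl 1, rfl⟩
  | zero => exact ⟨Sum.inl 2, rfl⟩
  | one => exact ⟨Sum.inl 3, rfl⟩
  | chain i => exact ⟨Sum.inr (Sum.inl i), rfl⟩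
  | word i j => exact ⟨Sum.inr (Sum.inr (Sum.inl (i, j))), rfl⟩
  | bit j v k => exact ⟨Sum.inr (Sum.inr (Sum.inr (Sum.inl (j, v, k)))), rfl⟩
  | conj k r₁ r₂ => exact ⟨Sum.inr (Sum.inr (Sum.inr (Sum.inr (Sum.inl (k, r₁, r₂))))), rfl⟩
  | sum k r₁ r₂ => exact ⟨Sum.inr (Sum.inr (Sum.inr (Sum.inr (Sum.inr (k, r₁, r₂))))), rfl⟩

theorem card_VarS : Fintype.card (VarS B b w p) =
    (B + 1) + (B + (b * 2 ^ w + (b * w + (p + (p + 1))))) := by
  simp [VarS, Fintype.card_sum, Fintype.card_prod, ZMod.card]

theorem card_ClsS : Fintype.card (ClsS B b w p) =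
    4 + (B + (B * b + (b * (2 ^ w * w) + (p * 4 + p * 4)))) := by
  simp [ClsS, Fintype.card_sum, Fintype.card_prod, ZMod.card]

/-- the word read by a clause -/
def g0 : Cls B b w p → Option (Fin B × Fin b)
  | .word i j => some (i, j)
  | _ => none

/-- the literals of a clause; `E` enumerates the pairs with nonzero coefficient -/
def c0 (E : Fin p → Fin (b * w) × Fin (b * w)) :
    Cls B b w p → (Fin w → ZMod 2) → Fin 3 → Var B b w p × Bool
  | .start, _ => ![(.t 0, true), (.t 0, true), (.t 0, true)]
  | .stop, _ => ![(.t (Fin.last B), false), (.t (Fin.last B), false), (.t (Fin.last B), false)]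
  | .chain i, _ => ![(.t i.castSucc, false), (.t i.succ, true), (.z i, true)]
  | .word i j, y => ![(.z i, false), (.W j y, true), (.W j y, true)]
  | .bit j v k, _ => ![(.W j v, false), (.u (finProdFinEquiv (j, k)), tb (v k)),
      (.u (finProdFinEquiv (j, k)), tb (v k))]
  | .conj k r₁ r₂, _ => ![(.u (E k).1, !r₁), (.u (E k).2, !r₂), (.a k, r₁ && r₂)]
  | .sum k r₁ r₂, _ => ![(.s k.castSucc, !r₁), (.a k, !r₂), (.s k.succ, xor r₁ r₂)]
  | .zero, _ => ![(.s 0, false), (.s 0, false), (.s 0, false)]
  | .one, _ => ![(.s (Fin.last p), true), (.s (Fin.last p), true), (.s (Fin.last p), true)]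

theorem ex3 (P : Fin 3 → Prop) : (∃ k, P k) ↔ P 0 ∨ P 1 ∨ P 2 := by
  constructor
  · rintro ⟨k, hk⟩
    fin_cases k
    · exact Or.inl hk
    · exact Or.inr (Or.inl hk)
    · exact Or.inr (Or.inr hk)
  · rintro (h | h | h)
    · exact ⟨0, h⟩
    · exact ⟨1, h⟩
    · exact ⟨2, h⟩

/-- satisfaction of a clause by an assignment -/
def Holds (E : Fin p → Fin (b * w) × Fin (b * w)) (x : Fin B → Fin b → Fin w → ZMod 2)
    (v : Var B b w p → Bool) (c : Cls B b w p) : Prop :=
  ∃ k, v (c0 E c ((g0 c).elim 0 fun q => x q.1 q.2) k).1 =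
    (c0 E c ((g0 c).elim 0 fun q => x q.1 q.2) k).2

/-- from satisfying assignments to a block -/
theorem forward (E : Fin p → Fin (b * w) × Fin (b * w)) (x : Fin B → Fin b → Fin w → ZMod 2)
    (v : Var B b w p → Bool) (hv : ∀ c, Holds E x v c) :
    ∃ i, ∑ k, flat (x i) (E k).1 * flat (x i) (E k).2 = 1 := by
  have hstart := hv .start
  have hstop := hv .stop
  have hchain := fun i => hv (.chain i)
  have hword := fun i j => hv (.word i j)
  have hbit := fun j y k => hv (.bit j y k)
  have hconj := fun k r₁ r₂ => hv (.conj k r₁ r₂)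
  have hsum := fun k r₁ r₂ => hv (.sum k r₁ r₂)
  have hzero := hv .zero
  have hone := hv .one
  simp only [Holds, ex3, c0, g0, Option.elim_none, Option.elim_some, Matrix.cons_val_zero,
    Matrix.cons_val_one, Matrix.cons_val_two, Matrix.head_cons, Matrix.tail_cons,
    Matrix.cons_val] at hstart hstop hchain hword hbit hconj hsum hzero hone
  -- the chain
  have hex : ∃ i : Fin B, v (.t i.castSucc) = true ∧ v (.t i.succ) = false := by
    by_contra hcon
    push Not at hcon
    have hall : ∀ n (hn : n < B + 1), v (.t ⟨n, hn⟩) = true := by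
      intro n
      induction n with
      | zero => intro hn; simpa using hstart
      | succ n ih =>
        intro hn
        have h1 := ih (by omega)
        have h2 := hcon ⟨n, by omega⟩ (by simpa using h1)
        have h3 : (Fin.succ (⟨n, by omega⟩ : Fin B)) = ⟨n + 1, hn⟩ := rfl
        rw [h3] at h2
        simpa using h2
    have h4 := hall B (by omega)
    have h5 : (⟨B, by omega⟩ : Fin (B + 1)) = Fin.last B := rfl
    rw [h5] at h4
    rw [h4] at hstop
    simp at hstop
  obtain ⟨i, hi1, hi2⟩ := hex
  have hz : v (.z i) = true := by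
    have := hchain i
    rw [hi1, hi2] at this
    simpa using this
  have hW : ∀ j, v (.W j (x i j)) = true := by
    intro j
    have := hword i j
    rw [hz] at this
    simpa using this
  have hu : ∀ j k, v (.u (finProdFinEquiv (j, k))) = tb (x i j k) := by
    intro j k
    have := hbit j (x i j) k
    rw [hW j] at this
    simpa using this
  have hu' : ∀ β, v (.u β) = tb (flat (x i) β) := by
    intro β
    have := hu (finProdFinEquiv.symm β).1 (finProdFinEquiv.symm β).2
    rw [show ((finProdFinEquiv.symm β).1, (finProdFinEquiv.symm β).2) = finProdFinEquiv.symm β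
      from rfl, Equiv.apply_symm_apply] at this
    exact this
  have ha : ∀ k, v (.a k) = tb (flat (x i) (E k).1 * flat (x i) (E k).2) := by
    intro k
    have := hconj k (v (.u (E k).1)) (v (.u (E k).2))
    rw [tb_mul, ← hu', ← hu']
    rcases this with h | h | h
    · exact absurd h (by cases v (.u (E k).1) <;> simp)
    · exact absurd h (by cases v (.u (E k).2) <;> simp)
    · exact h
  have hs : ∀ n (hn : n < p + 1), v (.s ⟨n, hn⟩) =
      tb (∑ k : Fin p, if k.val < n then flat (x i) (E k).1 * flat (x i) (E k).2 else 0) := by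
    intro n
    induction n with
    | zero =>
      intro hn
      simp only [Nat.not_lt_zero, if_false, sum_const_zero, tb_zero]
      simpa using hzero
    | succ n ih =>
      intro hn
      have h1 := ih (by omega)
      set k : Fin p := ⟨n, by omega⟩ with hk
      have h2 := hsum k (v (.s k.castSucc)) (v (.a k))
      have h3 : v (.s k.succ) = xor (v (.s k.castSucc)) (v (.a k)) := by
        rcases h2 with h | h | h
        · exact absurd h (by cases v (.s k.castSucc) <;> simp)
        · exact absurd h (by cases v (.a k) <;> simp)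
        · exact h
      have h4 : k.succ = ⟨n + 1, hn⟩ := rfl
      have h5 : k.castSucc = ⟨n, by omega⟩ := rfl
      rw [← h4, h3, h5, h1, ha k, ← tb_add]
      congr 1
      have h6 : ∀ l : Fin p, (if l.val < n + 1 then flat (x i) (E l).1 * flat (x i) (E l).2
          else 0) = (if l.val < n then flat (x i) (E l).1 * flat (x i) (E l).2 else 0) +
          (if l = k then flat (x i) (E l).1 * flat (x i) (E l).2 else 0) := by
        intro l
        by_cases c1 : l.val < n
        · rw [if_pos (by omega), if_pos c1, if_neg (by rintro rfl; simp [hk] at c1), add_zero]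
        · by_cases c2 : l = k
          · rw [if_pos (by rw [c2, hk]; simp), if_neg c1, if_pos c2, zero_add]
          · rw [if_neg, if_neg c1, if_neg c2, add_zero]
            intro c3
            apply c2
            apply Fin.ext
            rw [hk]
            simp only
            omega
      simp only [h6, sum_add_distrib, sum_ite_eq', mem_univ, if_true]
  refine ⟨i, ?_⟩
  have h1 := hs p (by omega)
  have h2 : (⟨p, by omega⟩ : Fin (p + 1)) = Fin.last p := rfl
  rw [h2] at h1
  have h3 : v (.s (Fin.last p)) = true := by simpa using hone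
  rw [h3] at h1
  have h4 := tb_true.1 h1.symm
  rw [← h4]
  refine sum_congr rfl fun k _ => ?_
  rw [if_pos k.2]

/-- from a block to a satisfying assignment -/
theorem backward (E : Fin p → Fin (b * w) × Fin (b * w)) (x : Fin B → Fin b → Fin w → ZMod 2)
    (i : Fin B) (hi : ∑ k, flat (x i) (E k).1 * flat (x i) (E k).2 = 1) :
    ∃ v : Var B b w p → Bool, ∀ c, Holds E x v c := by
  let v : Var B b w p → Bool := fun y => match y with
    | .t l => decide (l.val ≤ i.val)
    | .z l => decide (l = i)
    | .W j y => decide (y = x i j)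
    | .u β => tb (flat (x i) β)
    | .a k => tb (flat (x i) (E k).1 * flat (x i) (E k).2)
    | .s n => tb (∑ k : Fin p, if k.val < n.val then flat (x i) (E k).1 * flat (x i) (E k).2 else 0)
  refine ⟨v, fun c => ?_⟩
  unfold Holds
  rw [ex3]
  cases c with
  | start => left; simp [c0, v]
  | stop => left; simp [c0, v]
  | chain l =>
    simp only [c0, Matrix.cons_val_zero, Matrix.cons_val_one, Matrix.cons_val, v]
    rcases lt_trichotomy l.val i.val with h | h | h
    · right; left
      simp only [Fin.val_succ, decide_eq_true_eq]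
      omega
    · right; right
      simp only [decide_eq_true_eq]
      exact Fin.ext h
    · left
      simp only [Fin.val_castSucc, decide_eq_false_iff_not]
      omega
  | word l j =>
    simp only [c0, g0, Option.elim_some, Matrix.cons_val_zero, Matrix.cons_val_one,
      Matrix.cons_val, v]
    by_cases h : l = i
    · right; left
      simp [h]
    · left
      simp [h]
  | bit j y k =>
    simp only [c0, Matrix.cons_val_zero, Matrix.cons_val_one, Matrix.cons_val, v]
    by_cases h : y = x i j
    · right; left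
      rw [h]
      unfold flat
      rw [Equiv.symm_apply_apply]
    · left
      simp [h]
  | conj k r₁ r₂ =>
    simp only [c0, Matrix.cons_val_zero, Matrix.cons_val_one, Matrix.cons_val, v, tb_mul]
    cases r₁ <;> cases r₂ <;> cases tb (flat (x i) (E k).1) <;>
      cases tb (flat (x i) (E k).2) <;> simp
  | sum k r₁ r₂ =>
    simp only [c0, Matrix.cons_val_zero, Matrix.cons_val_one, Matrix.cons_val, v]
    have h6 : ∀ l : Fin p, (if l.val < (k.succ).val then
          flat (x i) (E l).1 * flat (x i) (E l).2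
          else 0) = (if l.val < (k.castSucc).val then flat (x i) (E l).1 * flat (x i) (E l).2
            else 0) +
          (if l = k then flat (x i) (E l).1 * flat (x i) (E l).2 else 0) := by
      intro l
      rw [Fin.val_succ, Fin.val_castSucc]
      by_cases c1 : l.val < k.val
      · rw [if_pos (by omega), if_pos c1, if_neg (by rintro rfl; omega), add_zero]
      · by_cases c2 : l = k
        · rw [if_pos (by rw [c2]; omega), if_neg c1, if_pos c2, zero_add]
        · rw [if_neg, if_neg c1, if_neg c2, add_zero]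
          intro c3
          apply c2
          apply Fin.ext
          omega
    have h7 : (∑ l : Fin p, if l.val < (k.succ).val then
          flat (x i) (E l).1 * flat (x i) (E l).2 else 0) =
        (∑ l : Fin p, if l.val < (k.castSucc).val then
          flat (x i) (E l).1 * flat (x i) (E l).2 else 0) +
          flat (x i) (E k).1 * flat (x i) (E k).2 := by
      simp only [h6, sum_add_distrib, sum_ite_eq', mem_univ, if_true]
    rw [h7, tb_add]
    cases r₁ <;> cases r₂ <;>
      cases tb (∑ l : Fin p, if l.val < (k.castSucc).val then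
          flat (x i) (E l).1 * flat (x i) (E l).2 else 0) <;>
      cases tb (flat (x i) (E k).1 * flat (x i) (E k).2) <;> simp
  | zero => left; simp [c0, v, tb_zero]
  | one =>
    left
    simp only [c0, Matrix.cons_val_zero, v, Fin.val_last, tb_true]
    rw [← hi]
    refine sum_congr rfl fun k _ => ?_
    rw [if_pos k.2]

end

theorem quad_eq (n : ℕ) (q : ℕ → ZMod 2) (y : Fin n → ZMod 2) :
    quad q y = ∑ e ∈ nz n q, y e.1 * y e.2 := by
  unfold quad nz
  rw [← univ_product_univ, sum_filter, sum_product]
  refine sum_congr rfl fun i _ => sum_congr rfl fun j _ => ?_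
  simp only
  by_cases h : i < j
  · rw [if_pos h]
    by_cases h2 : q (i.val * n + j.val) = 0
    · rw [if_neg (by tauto), h2, mul_zero]
    · rw [if_pos ⟨h, h2⟩]
      have : q (i.val * n + j.val) = 1 := by
        revert h2
        generalize q (i.val * n + j.val) = c
        revert c
        decide
      rw [this, mul_one]
  · rw [if_neg h, if_neg (by tauto)]

end Pool.Agent.H774R2.QSAT.Enc

namespace Pool.Agent.H774R2.QSAT

open Pool.Agent.H774R2.QTS Enc

/-- Task ENC. -/
theorem enc (b w B P m : ℕ) (q : ℕ → ZMod 2) (hb : 1 ≤ b) (hw : 1 ≤ w) (hB : 1 ≤ B)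
    (hP : (nz (b * w) q).card ≤ P)
    (hm : 8 * P + B * b + 4 * B + 2 * (b * w) + 2 * (b * w * 2 ^ w) + 16 ≤ m) :
    ∃ (g : Fin m → Option (Fin B × Fin b)) (cl : Fin m → (Fin w → ZMod 2) → Clause m),
      (∀ p, ∃ j, g j = some p) ∧ ∀ x : Fin B → Fin b → Fin w → ZMod 2,
        Sat (fun j => cl j ((g j).elim 0 fun p => x p.1 p.2)) ↔ ∃ i, quad q (flat (x i)) = 1 := by
  classical
  set p := (nz (b * w) q).card with hp
  let e : Fin p ≃ (nz (b * w) q) := ((nz (b * w) q).equivFin).symm
  let E : Fin p → Fin (b * w) × Fin (b * w) := fun k => (e k : Fin (b * w) × Fin (b * w))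
  have hquad : ∀ y : Fin (b * w) → ZMod 2, quad q y = ∑ k, y (E k).1 * y (E k).2 := by
    intro y
    rw [quad_eq, ← sum_coe_sort]
    exact (Equiv.sum_comp e (fun f => y (f : Fin (b * w) × Fin (b * w)).1 *
      y (f : Fin (b * w) × Fin (b * w)).2)).symm
  have hpow : b * 2 ^ w ≤ b * w * 2 ^ w := by
    have : b * 1 ≤ b * w := Nat.mul_le_mul_left _ hw
    exact Nat.mul_le_mul_right _ (by omega)
  have hvar : Fintype.card (VarS B b w p) ≤ m := by
    rw [card_VarS]
    omega
  have hcls : Fintype.card (ClsS B b w p) ≤ m := by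
    rw [card_ClsS]
    have : b * (2 ^ w * w) = b * w * 2 ^ w := by ring
    omega
  have hcls1 : 1 ≤ Fintype.card (ClsS B b w p) := by
    rw [card_ClsS]; omega
  obtain ⟨ι⟩ : Nonempty (VarS B b w p ↪ Fin m) := by
    apply Function.Embedding.nonempty_of_card_le
    rwa [Fintype.card_fin]
  obtain ⟨ι'⟩ : Nonempty (ClsS B b w p ↪ Fin m) := by
    apply Function.Embedding.nonempty_of_card_le
    rwa [Fintype.card_fin]
  haveI : Nonempty (ClsS B b w p) := Fintype.card_pos_iff.1 hcls1
  let σ : Fin m → Cls B b w p := fun j => Cls.ofS (Function.invFun ι' j)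
  have hσ : Function.Surjective σ :=
    Cls.ofS_surjective.comp (Function.invFun_surjective ι'.injective)
  let κ : Var B b w p → Fin m := fun y => ι y.toS
  have hκ : Function.Injective κ := ι.injective.comp Var.toS_injective
  refine ⟨fun j => g0 (σ j), fun j y k => (κ (c0 E (σ j) y k).1, (c0 E (σ j) y k).2), ?_, ?_⟩
  · intro p
    obtain ⟨j, hj⟩ := hσ (Cls.word p.1 p.2)
    refine ⟨j, ?_⟩
    simp only [hj, g0]
  intro x
  constructor
  · rintro ⟨v, hv⟩
    obtain ⟨i, hi⟩ := forward E x (fun y => v (κ y)) (by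
      intro c
      obtain ⟨j, rfl⟩ := hσ c
      exact hv j)
    exact ⟨i, by rw [hquad]; exact hi⟩
  · rintro ⟨i, hi⟩
    rw [hquad] at hi
    obtain ⟨v, hv⟩ := backward E x i hi
    refine ⟨Function.extend κ v (fun _ => false), fun j => ?_⟩
    obtain ⟨k, hk⟩ := hv (σ j)
    refine ⟨k, ?_⟩
    simp only
    rw [hκ.extend_apply]
    exact hk

end Pool.Agent.H774R2.QSAT
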