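import Mathlib
import Pool.Agent.H774R2.QTS.TwoParty
import Pool.Agent.H774R2.QSAT.WDefs

/-!
# The analytic core: two colours
-/

open Finset

namespace Pool.Agent.H774R2.QSAT

section

variable {b : ℕ} {W : Type}

/-- The function does not depend on the words in `B`. -/
def Indep (B : Finset (Fin b)) (g : (Fin b → W) → ℂ) : Prop :=
  ∀ x x', (∀ i, i ∉ B → x i = x' i) → g x = g x'

variable [Fintype W] [DecidableEq W]

/-- The two-party bound for sets of exactly `a` words. -/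
def TP (F : (Fin b → W) → ℂ) (a : ℕ) (κ : ℝ) : Prop :=
  ∀ A B : Finset (Fin b), Disjoint A B → A.card = a → B.card = a →
    ∀ g1 g2 : (Fin b → W) → ℂ, Indep B g1 → Indep A g2 →
      ‖∑ x, F x * (g1 x * g2 x)‖ ≤ κ * ((∑ x, ‖g1 x‖ ^ 2 + ∑ x, ‖g2 x‖ ^ 2) / 2)

/-- The sum over the partial histories with selected set `B`. -/
noncomputable def phi {H0 : Type} [Fintype H0] (w0 : H0 → (Fin b → W) → ℂ)
    (s0 : H0 → Option (Finset (Fin b))) (B : Finset (Fin b)) (x : Fin b → W) : ℂ :=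
  ∑ h0 ∈ univ.filter (fun h0 => s0 h0 = some B), w0 h0 x

lemma phi_indep {H0 : Type} [Fintype H0] (w0 : H0 → (Fin b → W) → ℂ)
    (s0 : H0 → Option (Finset (Fin b))) (l0 : ∀ h0 B, s0 h0 = some B → Indep B (w0 h0))
    (B : Finset (Fin b)) : Indep B (phi w0 s0 B) := by
  intro x x' hx
  unfold phi
  refine sum_congr rfl fun h0 hh => ?_
  rw [mem_filter] at hh
  exact l0 h0 B hh.2 x x' hx

lemma phi_sum {H0 : Type} [Fintype H0] (w0 : H0 → (Fin b → W) → ℂ)
    (s0 : H0 → Option (Finset (Fin b))) (x : Fin b → W) (h : ∑ h0, ‖w0 h0 x‖ ≤ 1) :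
    ∑ B, ‖phi w0 s0 B x‖ ≤ 1 := by
  classical
  calc ∑ B, ‖phi w0 s0 B x‖ ≤ ∑ B, ∑ h0 ∈ univ.filter (fun h0 => s0 h0 = some B), ‖w0 h0 x‖ :=
        sum_le_sum fun s _ => norm_sum_le _ _
    _ ≤ ∑ h0, ‖w0 h0 x‖ := by
        simp_rw [sum_filter]
        rw [sum_comm]
        refine sum_le_sum fun h0 _ => ?_
        cases hs : s0 h0 with
        | none => simp
        | some B0 =>
          simp only [Option.some.injEq]
          rw [sum_ite_eq]
          simp
    _ ≤ 1 := h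

lemma phi_sq {H0 : Type} [Fintype H0] (w0 : H0 → (Fin b → W) → ℂ)
    (s0 : H0 → Option (Finset (Fin b))) (x : Fin b → W) (h : ∑ h0, ‖w0 h0 x‖ ≤ 1) :
    ∑ B, ‖phi w0 s0 B x‖ ^ 2 ≤ 1 := by
  have h1 := phi_sum w0 s0 x h
  calc ∑ s, ‖phi w0 s0 s x‖ ^ 2 ≤ ∑ s, ‖phi w0 s0 s x‖ := by
        refine sum_le_sum fun s _ => ?_
        have h2 : ‖phi w0 s0 s x‖ ≤ 1 :=
          (single_le_sum (fun s _ => norm_nonneg (phi w0 s0 s x)) (mem_univ s)).trans h1
        nlinarith [norm_nonneg (phi w0 s0 s x)]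
    _ ≤ 1 := h1

lemma sum_some {H0 : Type} [Fintype H0] (f : H0 → ℂ) (s0 : H0 → Option (Finset (Fin b))) (a : ℕ)
    (hs : ∀ h0 B, s0 h0 = some B → B.card = a) :
    ∑ h0, (if (s0 h0).isSome then f h0 else 0) =
      ∑ B ∈ powersetCard a (univ : Finset (Fin b)),
        ∑ h0 ∈ univ.filter (fun h0 => s0 h0 = some B), f h0 := by
  classical
  simp_rw [sum_filter]
  rw [sum_comm]
  refine sum_congr rfl fun h0 _ => ?_
  cases hs0 : s0 h0 with
  | none => simp
  | some B0 =>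
    simp only [Option.isSome_some, Option.some.injEq, if_true]
    rw [sum_ite_eq, if_pos]
    rw [mem_powersetCard]
    exact ⟨subset_univ _, hs h0 B0 hs0⟩

/-- The core bound. -/
theorem core_fixed {H0 H1 : Type} [Fintype H0] [Fintype H1]
    (w0 : H0 → (Fin b → W) → ℂ) (w1 : H1 → (Fin b → W) → ℂ)
    (s0 : H0 → Option (Finset (Fin b))) (s1 : H1 → Option (Finset (Fin b))) (a : ℕ)
    (c0 : ∀ h0 B, s0 h0 = some B → B.card = a) (c1 : ∀ h1 A, s1 h1 = some A → A.card = a)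
    (l0 : ∀ h0 B, s0 h0 = some B → Indep B (w0 h0))
    (l1 : ∀ h1 A, s1 h1 = some A → Indep A (w1 h1))
    (dj : ∀ h0 h1 A B, s0 h0 = some B → s1 h1 = some A → Disjoint A B)
    (n0 : ∀ x, ∑ h0, ‖w0 h0 x‖ ≤ 1) (n1 : ∀ x, ∑ h1, ‖w1 h1 x‖ ≤ 1)
    (F : (Fin b → W) → ℂ) (κ : ℝ) (hκ : 0 ≤ κ) (hF : TP F a κ) :
    ‖∑ x, F x * ∑ h0, ∑ h1, (if (s0 h0).isSome ∧ (s1 h1).isSome then w0 h0 x * w1 h1 x else 0)‖ ≤
      κ * (b.choose a : ℝ) * (Fintype.card W : ℝ) ^ b := by
  classical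
  set P := powersetCard a (univ : Finset (Fin b)) with hP
  have hPc : P.card = b.choose a := by rw [hP, card_powersetCard, card_univ, Fintype.card_fin]
  have r1 : ∀ x, ∑ h0, ∑ h1, (if (s0 h0).isSome ∧ (s1 h1).isSome then w0 h0 x * w1 h1 x else 0) =
      ∑ B ∈ P, ∑ A ∈ P, phi w0 s0 B x * phi w1 s1 A x := by
    intro x
    have e1 : ∑ h0, ∑ h1, (if (s0 h0).isSome ∧ (s1 h1).isSome then w0 h0 x * w1 h1 x else 0) =
        (∑ h0, if (s0 h0).isSome then w0 h0 x else 0) * (∑ h1, if (s1 h1).isSome then w1 h1 x else 0) := by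
      rw [sum_mul_sum]
      refine sum_congr rfl fun h0 _ => sum_congr rfl fun h1 _ => ?_
      by_cases g0 : (s0 h0).isSome <;> by_cases g1 : (s1 h1).isSome <;> simp [g0, g1]
    rw [e1, sum_some _ s0 a c0, sum_some _ s1 a c1, sum_mul_sum]
    rfl
  have r2 : ∑ x, F x * ∑ h0, ∑ h1,
      (if (s0 h0).isSome ∧ (s1 h1).isSome then w0 h0 x * w1 h1 x else 0) =
      ∑ B ∈ P, ∑ A ∈ P, ∑ x, F x * (phi w0 s0 B x * phi w1 s1 A x) := by
    simp_rw [r1, mul_sum]
    rw [sum_comm]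
    refine sum_congr rfl fun B _ => ?_
    rw [sum_comm]
  rw [r2]
  have key : ∀ B ∈ P, ∀ A ∈ P, ‖∑ x, F x * (phi w0 s0 B x * phi w1 s1 A x)‖ ≤
      κ * ((∑ x, ‖phi w0 s0 B x‖ ^ 2 + ∑ x, ‖phi w1 s1 A x‖ ^ 2) / 2) := by
    intro B hB A hA
    rw [hP, mem_powersetCard] at hB hA
    by_cases hd : Disjoint A B
    · exact hF A B hd hA.2 hB.2 _ _ (phi_indep w0 s0 l0 B) (phi_indep w1 s1 l1 A)
    · have hz : ∀ x, phi w0 s0 B x * phi w1 s1 A x = 0 := by
        intro x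
        by_cases hne : ∃ h0, s0 h0 = some B
        · obtain ⟨h0, hh0⟩ := hne
          have : univ.filter (fun h1 => s1 h1 = some A) = ∅ := by
            rw [filter_eq_empty_iff]
            intro h1 _ hh1
            exact hd (dj h0 h1 A B hh0 hh1)
          unfold phi
          rw [this, sum_empty, mul_zero]
        · have : univ.filter (fun h0 => s0 h0 = some B) = ∅ := by
            rw [filter_eq_empty_iff]
            intro h0 _ hh0
            exact hne ⟨h0, hh0⟩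
          unfold phi
          rw [this, sum_empty, zero_mul]
      simp_rw [hz]
      rw [show ∑ x : Fin b → W, F x * 0 = 0 by simp, norm_zero]
      positivity
  have q0 : ∑ B ∈ P, ∑ x, ‖phi w0 s0 B x‖ ^ 2 ≤ (Fintype.card W : ℝ) ^ b := by
    rw [sum_comm]
    calc _ ≤ ∑ _x : Fin b → W, (1 : ℝ) := by
          refine sum_le_sum fun x _ => ?_
          exact (sum_le_sum_of_subset_of_nonneg (subset_univ _) fun _ _ _ => by positivity).trans
            (phi_sq w0 s0 x (n0 x))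
      _ = _ := by
          rw [sum_const, nsmul_eq_mul, mul_one, card_univ, Fintype.card_fun, Fintype.card_fin]
          push_cast
          rfl
  have q1 : ∑ A ∈ P, ∑ x, ‖phi w1 s1 A x‖ ^ 2 ≤ (Fintype.card W : ℝ) ^ b := by
    rw [sum_comm]
    calc _ ≤ ∑ _x : Fin b → W, (1 : ℝ) := by
          refine sum_le_sum fun x _ => ?_
          exact (sum_le_sum_of_subset_of_nonneg (subset_univ _) fun _ _ _ => by positivity).trans
            (phi_sq w1 s1 x (n1 x))
      _ = _ := by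
          rw [sum_const, nsmul_eq_mul, mul_one, card_univ, Fintype.card_fun, Fintype.card_fin]
          push_cast
          rfl
  calc _ ≤ ∑ B ∈ P, ∑ A ∈ P,
        κ * ((∑ x, ‖phi w0 s0 B x‖ ^ 2 + ∑ x, ‖phi w1 s1 A x‖ ^ 2) / 2) := by
        refine (norm_sum_le _ _).trans (sum_le_sum fun B hB => ?_)
        exact (norm_sum_le _ _).trans (sum_le_sum fun A hA => key B hB A hA)
    _ = κ * (P.card : ℝ) * ((∑ B ∈ P, ∑ x, ‖phi w0 s0 B x‖ ^ 2) +
        ∑ A ∈ P, ∑ x, ‖phi w1 s1 A x‖ ^ 2) / 2 := by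
        simp_rw [← mul_sum, ← sum_div, sum_add_distrib, sum_const, nsmul_eq_mul, ← mul_sum]
        ring
    _ ≤ κ * (P.card : ℝ) * ((Fintype.card W : ℝ) ^ b + (Fintype.card W : ℝ) ^ b) / 2 := by
        apply div_le_div_of_nonneg_right _ (by norm_num)
        exact mul_le_mul_of_nonneg_left (add_le_add q0 q1) (by positivity)
    _ = _ := by rw [hPc]; ring

end

end Pool.Agent.H774R2.QSAT
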