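import Mathlib
import Pool.Agent.H774R2.QTS.Blocks
import Pool.Agent.H774R2.QSAT.Core

/-!
# The core bound for families of pieces
-/

open Finset

namespace Pool.Agent.H774R2.QSAT

open Pool.Agent.H774R2.QTS (Jof)

section

variable {b : ℕ} {W : Type} {β : Type} [Fintype β] [DecidableEq β] {H : Type} [Fintype H]

/-- The words not read. -/
def unread {γ : Type} [Fintype γ] (V : γ → H → Finset (Fin b)) (h : γ → H) : Finset (Fin b) :=
  univ.filter fun i => ∀ j, i ∉ V j (h j)

open Classical in
/-- A canonical subset with `a` elements, if there is one. -/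
noncomputable def sel (a : ℕ) (U : Finset (Fin b)) : Option (Finset (Fin b)) :=
  if h : a ≤ U.card then some (Classical.choose (exists_subset_card_eq h)) else none

lemma sel_subset {a : ℕ} {U A : Finset (Fin b)} (h : sel a U = some A) : A ⊆ U := by
  unfold sel at h
  split_ifs at h with h1
  have := Classical.choose_spec (exists_subset_card_eq h1)
  rw [Option.some.injEq] at h
  rw [← h]
  exact this.1

lemma sel_card {a : ℕ} {U A : Finset (Fin b)} (h : sel a U = some A) : A.card = a := by
  unfold sel at h
  split_ifs at h with h1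
  have := Classical.choose_spec (exists_subset_card_eq h1)
  rw [Option.some.injEq] at h
  rw [← h]
  exact this.2

lemma sel_isSome {a : ℕ} {U : Finset (Fin b)} : (sel a U).isSome ↔ a ≤ U.card := by
  unfold sel
  split_ifs with h1
  · simp [h1]
  · simp [h1]

lemma sum_prod_norm {γ : Type} [Fintype γ] [DecidableEq γ] (w : γ → H → (Fin b → W) → ℂ)
    (hnorm : ∀ j x, ∑ h, ‖w j h x‖ ≤ 1) (x : Fin b → W) :
    ∑ h : γ → H, ‖∏ j, w j (h j) x‖ ≤ 1 := by
  simp_rw [norm_prod]
  have h1 := Finset.prod_univ_sum (fun _ : γ => (univ : Finset H)) (fun j h => ‖w j h x‖)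
  rw [Fintype.piFinset_univ] at h1
  rw [← h1]
  exact prod_le_one (fun j _ => sum_nonneg fun h _ => norm_nonneg _) (fun j _ => hnorm j x)

lemma indep_prod {γ : Type} [Fintype γ] (V : γ → H → Finset (Fin b))
    (w : γ → H → (Fin b → W) → ℂ)
    (hloc : ∀ j h x x', (∀ i, i ∈ V j h → x i = x' i) → w j h x = w j h x')
    (h : γ → H) (B : Finset (Fin b)) (hB : ∀ i ∈ B, ∀ j, i ∉ V j (h j)) :
    Indep B (fun x => ∏ j, w j (h j) x) := by
  intro x x' hx
  refine prod_congr rfl fun j _ => ?_
  apply hloc
  intro i hi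
  exact hx i fun hiB => hB i hiB j hi

/-- The condition on a history and a colouring. -/
def Good (a : ℕ) (ω : β → Bool) (J : Fin b → Finset β) : Prop :=
  a ≤ (univ.filter fun i => ∀ j ∈ J i, ω j = true).card ∧
  a ≤ (univ.filter fun i => ∀ j ∈ J i, ω j = false).card

variable [Fintype W] [DecidableEq W]

open Classical in
/-- The core bound for pieces. -/
theorem core_two (V : β → H → Finset (Fin b)) (w : β → H → (Fin b → W) → ℂ)
    (hloc : ∀ j h x x', (∀ i, i ∈ V j h → x i = x' i) → w j h x = w j h x')
    (hnorm : ∀ j x, ∑ h, ‖w j h x‖ ≤ 1)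
    (hcov : ∀ (h : β → H) (i : Fin b), ∃ j, i ∈ V j (h j)) (ω : β → Bool)
    (F : (Fin b → W) → ℂ) (a : ℕ) (κ : ℝ) (hκ : 0 ≤ κ) (hF : TP F a κ) :
    ‖∑ x, F x * ∑ h : β → H, if Good a ω (Jof V h) then ∏ j, w j (h j) x else 0‖ ≤
      κ * (b.choose a : ℝ) * (Fintype.card W : ℝ) ^ b := by
  set w0 : ({j // ω j = true} → H) → (Fin b → W) → ℂ := fun h x => ∏ j, w j.1 (h j) x with hw0
  set w1 : ({j // ¬ ω j = true} → H) → (Fin b → W) → ℂ := fun h x => ∏ j, w j.1 (h j) x with hw1
  set V0 : {j // ω j = true} → H → Finset (Fin b) := fun j => V j.1 with hV0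
  set V1 : {j // ¬ ω j = true} → H → Finset (Fin b) := fun j => V j.1 with hV1
  set s0 : ({j // ω j = true} → H) → Option (Finset (Fin b)) := fun h => sel a (unread V0 h) with hs0
  set s1 : ({j // ¬ ω j = true} → H) → Option (Finset (Fin b)) := fun h => sel a (unread V1 h)
    with hs1
  have e1 : ∀ x, ∑ h : β → H, (if Good a ω (Jof V h) then ∏ j, w j (h j) x else 0) =
      ∑ h0, ∑ h1, if (s0 h0).isSome ∧ (s1 h1).isSome then w0 h0 x * w1 h1 x else 0 := by
    intro x
    rw [← (Equiv.piEquivPiSubtypeProd (fun j => ω j = true) (fun _ => H)).symm.sum_comp]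
    rw [Fintype.sum_prod_type]
    refine sum_congr rfl fun h0 _ => sum_congr rfl fun h1 _ => ?_
    set h := (Equiv.piEquivPiSubtypeProd (fun j => ω j = true) (fun _ => H)).symm (h0, h1) with hh
    have g0 : ∀ j : {j // ω j = true}, h j.1 = h0 j := by
      intro j
      rw [hh]
      simp [Equiv.piEquivPiSubtypeProd, j.2]
    have g1 : ∀ j : {j // ¬ ω j = true}, h j.1 = h1 j := by
      intro j
      rw [hh]
      simp [Equiv.piEquivPiSubtypeProd, j.2]
    have hp : ∏ j, w j (h j) x = w0 h0 x * w1 h1 x := by
      rw [← Fintype.prod_subtype_mul_prod_subtype (fun j => ω j = true) (fun j => w j (h j) x)]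
      rw [hw0, hw1]
      dsimp only
      congr 1
      · refine prod_congr rfl fun j _ => ?_
        rw [g0 j]
      · refine prod_congr rfl fun j _ => ?_
        rw [g1 j]
    have u0 : unread V0 h0 = univ.filter fun i => ∀ j ∈ Jof V h i, ω j = false := by
      ext i
      simp only [unread, Jof, mem_filter, mem_univ, true_and]
      constructor
      · intro hi j hj
        by_contra hne
        have hω : ω j = true := by simpa using hne
        apply hi ⟨j, hω⟩
        rw [hV0]
        dsimp only
        rw [← g0 ⟨j, hω⟩]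
        exact hj
      · intro hi j hj
        have := hi j.1 (by rw [g0 j]; exact hj)
        rw [j.2] at this
        exact absurd this (by simp)
    have u1 : unread V1 h1 = univ.filter fun i => ∀ j ∈ Jof V h i, ω j = true := by
      ext i
      simp only [unread, Jof, mem_filter, mem_univ, true_and]
      constructor
      · intro hi j hj
        by_contra hne
        apply hi ⟨j, hne⟩
        rw [hV1]
        dsimp only
        rw [← g1 ⟨j, hne⟩]
        exact hj
      · intro hi j hj
        exact j.2 (hi j.1 (by rw [g1 j]; exact hj))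
    have hg : Good a ω (Jof V h) ↔ (s0 h0).isSome ∧ (s1 h1).isSome := by
      unfold Good
      rw [hs0, hs1]
      dsimp only
      rw [sel_isSome, sel_isSome, u0, u1, and_comm]
    rw [hp]
    by_cases hgg : Good a ω (Jof V h)
    · rw [if_pos hgg, if_pos (hg.1 hgg)]
    · rw [if_neg hgg, if_neg (fun h => hgg (hg.2 h))]
  simp_rw [e1]
  refine core_fixed w0 w1 s0 s1 a ?_ ?_ ?_ ?_ ?_ ?_ ?_ F κ hκ hF
  · intro h0 B hB; exact sel_card hB
  · intro h0 B hB; exact sel_card hB
  · intro h0 B hB
    refine indep_prod V0 (fun j : {j // ω j = true} => w j.1) (fun j => hloc j.1) h0 B ?_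
    intro i hi j
    have := sel_subset hB hi
    simp only [unread, mem_filter] at this
    exact this.2 j
  · intro h0 B hB
    refine indep_prod V1 (fun j : {j // ¬ ω j = true} => w j.1) (fun j => hloc j.1) h0 B ?_
    intro i hi j
    have := sel_subset hB hi
    simp only [unread, mem_filter] at this
    exact this.2 j
  · intro h0 h1 A B hB hA
    rw [disjoint_left]
    intro i hiA hiB
    have a1 := sel_subset hA hiA
    have a0 := sel_subset hB hiB
    simp only [unread, mem_filter] at a1 a0
    obtain ⟨j, hj⟩ := hcov ((Equiv.piEquivPiSubtypeProd (fun j => ω j = true)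
      (fun _ => H)).symm (h0, h1)) i
    by_cases hω : ω j = true
    · apply a0.2 ⟨j, hω⟩
      simpa [Equiv.piEquivPiSubtypeProd, hω] using hj
    · apply a1.2 ⟨j, hω⟩
      simpa [Equiv.piEquivPiSubtypeProd, hω] using hj
  · intro x; exact sum_prod_norm (fun j : {j // ω j = true} => w j.1) (fun j => hnorm j.1) x
  · intro x; exact sum_prod_norm (fun j : {j // ¬ ω j = true} => w j.1) (fun j => hnorm j.1) x

end

end Pool.Agent.H774R2.QSAT
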