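import Mathlib
import Pool.Agent.H774R2.QSAT.Defs
import Pool.Agent.H774R2.QTS.Kraus
import Pool.Agent.H774R2.QSAT.Blocks

/-!
# Block histories of a machine
-/

open Finset Matrix

namespace Pool.Agent.H774R2.QSAT

open Pool.Agent.H774R2.QTS (Jof prodK state_eq unit_eq prodK_apply sum_entries)

section

variable {N : ℕ} {A : Type} {D T : ℕ} (Q : Machine N A D T)

namespace Machine

/-- The Kraus operators, for all times; after the end every input variable is read once more. -/
noncomputable def kr' (x : Fin N → A) (t : ℕ) (ν : Fin (Q.M + 1)) : Matrix (Fin D) (Fin D) ℂ :=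
  if ht : t < T then (if hν : ν.val < Q.M then Q.kr x ⟨t, ht⟩ ⟨ν.val, hν⟩ else 0)
  else if ν = 0 then 1 else 0

/-- The positions read, for all times. -/
def pos' (t : ℕ) (ν : Fin (Q.M + 1)) : Option (Fin N) :=
  if ht : t < T then (if hν : ν.val < Q.M then Q.pos ⟨t, ht⟩ ⟨ν.val, hν⟩ else none)
  else if h : t - T < N then some ⟨t - T, h⟩ else none

lemma kr'_unit (hQ : Q.Valid) (x : Fin N → A) (t : ℕ) :
    ∑ ν, (Q.kr' x t ν)ᴴ * Q.kr' x t ν = 1 := by
  unfold kr'
  by_cases ht : t < T
  · simp only [ht, dite_true]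
    rw [Fin.sum_univ_castSucc]
    simp only [Fin.val_castSucc, Fin.is_lt, dite_true, Fin.val_last, lt_irrefl, dite_false]
    simpa using hQ x ⟨t, ht⟩
  · simp only [ht, dite_false]
    rw [sum_eq_single 0]
    · simp
    · intro b _ hb; simp [hb]
    · intro h; exact absurd (mem_univ _) h

lemma state_rec (x : Fin N → A) (t : ℕ) :
    Q.state x (t + 1) = ∑ ν, Q.kr' x t ν * Q.state x t * (Q.kr' x t ν)ᴴ := by
  unfold kr'
  by_cases ht : t < T
  · simp only [ht, dite_true]
    rw [Fin.sum_univ_castSucc]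
    simp only [Fin.val_castSucc, Fin.is_lt, dite_true, Fin.val_last, lt_irrefl, dite_false]
    rw [state, dif_pos ht]
    simp
  · simp only [ht, dite_false]
    rw [sum_eq_single 0]
    · rw [state, dif_neg ht]; simp
    · intro b _ hb; simp [hb]
    · intro h; exact absurd (mem_univ _) h

lemma state_ge (x : Fin N → A) (t : ℕ) (ht : T ≤ t) : Q.state x t = Q.state x T := by
  induction t, ht using Nat.le_induction with
  | base => rfl
  | succ t ht ih => rw [state, dif_neg (by omega), ih]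

/-- The operators of the blocks of `d` steps. -/
noncomputable def bk (d : ℕ) (x : Fin N → A) (j : ℕ) (h : Fin d → Fin (Q.M + 1)) :
    Matrix (Fin D) (Fin D) ℂ :=
  prodK (fun s ν => Q.kr' x (j * d + s) ν) d h

lemma bk_unit (hQ : Q.Valid) (d : ℕ) (x : Fin N → A) (j : ℕ) :
    ∑ h, (Q.bk d x j h)ᴴ * Q.bk d x j h = 1 :=
  unit_eq (fun s ν => Q.kr' x (j * d + s) ν) (fun s => Q.kr'_unit hQ x (j * d + s)) d

lemma state_block (d : ℕ) (x : Fin N → A) (j : ℕ) :
    Q.state x ((j + 1) * d) = ∑ h, Q.bk d x j h * Q.state x (j * d) * (Q.bk d x j h)ᴴ := by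
  have := state_eq (fun s ν => Q.kr' x (j * d + s) ν) (fun s => Q.state x (j * d + s))
    (fun s => Q.state_rec x (j * d + s)) d
  simp only [add_zero] at this
  rw [show (j + 1) * d = j * d + d by ring, this]
  rfl

lemma state_blocks (d r : ℕ) (x : Fin N → A) :
    Q.state x (r * d) = ∑ h : Fin r → (Fin d → Fin (Q.M + 1)),
      prodK (Q.bk d x) r h * Matrix.single Q.init Q.init 1 * (prodK (Q.bk d x) r h)ᴴ := by
  have := state_eq (Q.bk d x) (fun j => Q.state x (j * d)) (fun j => Q.state_block d x j) r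
  simp only [zero_mul] at this
  rw [this]
  rfl

/-- The weight of a history. -/
noncomputable def pr (Ac : Finset (Fin D)) (d r : ℕ) (x : Fin N → A)
    (h : Fin r → (Fin d → Fin (Q.M + 1))) : ℝ :=
  ∑ a ∈ Ac, ‖prodK (Q.bk d x) r h a Q.init‖ ^ 2

lemma pr_nonneg (Ac : Finset (Fin D)) (d r : ℕ) (x : Fin N → A)
    (h : Fin r → (Fin d → Fin (Q.M + 1))) :
    0 ≤ Q.pr Ac d r x h := sum_nonneg fun _ _ => by positivity

lemma single_apply' (P : Matrix (Fin D) (Fin D) ℂ) (i a : Fin D) :
    (P * Matrix.single i i (1 : ℂ) * Pᴴ : Matrix (Fin D) (Fin D) ℂ) a a =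
      P a i * (starRingEnd ℂ) (P a i) := by
  rw [Matrix.mul_apply]
  rw [sum_eq_single i]
  · rw [Matrix.mul_apply, sum_eq_single i]
    · simp [conjTranspose_apply]
    · intro b _ hb
      simp [Matrix.single_apply, hb.symm]
    · intro h; exact absurd (mem_univ _) h
  · intro b _ hb
    rw [Matrix.mul_apply]
    rw [sum_eq_zero, zero_mul]
    intro c _
    simp [Matrix.single_apply, hb.symm]
  · intro h; exact absurd (mem_univ _) h

lemma prob_eq (Ac : Finset (Fin D)) (d r : ℕ) (hr : T ≤ r * d) (x : Fin N → A) :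
    Q.prob Ac x = ∑ h, Q.pr Ac d r x h := by
  unfold prob pr
  rw [sum_comm]
  refine sum_congr rfl fun a _ => ?_
  rw [← Q.state_ge x (r * d) hr, state_blocks, Matrix.sum_apply, Complex.re_sum]
  refine sum_congr rfl fun h _ => ?_
  rw [single_apply', Complex.mul_conj']
  norm_cast

/-! ### The block system on `n` variables -/

variable {n : ℕ} {W : Type}

/-- The variables (among `n`) read in a block. -/
def vset (loc : Fin N → Option (Fin n)) (d : ℕ) (j : ℕ) (h : Fin d → Fin (Q.M + 1)) :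
    Finset (Fin n) :=
  univ.filter fun k => ∃ s : Fin d, ∃ i, Q.pos' (j * d + s) (h s) = some i ∧ loc i = some k

lemma vset_card (loc : Fin N → Option (Fin n)) (d : ℕ) (j : ℕ) (h : Fin d → Fin (Q.M + 1)) :
    (Q.vset loc d j h).card ≤ d := by
  classical
  have : Q.vset loc d j h ⊆ (univ : Finset (Fin d)).biUnion fun s =>
      ((Q.pos' (j * d + s) (h s)).bind loc).toFinset := by
    intro k hk
    unfold vset at hk
    rw [mem_filter] at hk
    obtain ⟨_, s, i, h1, h2⟩ := hk
    rw [mem_biUnion]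
    refine ⟨s, mem_univ _, ?_⟩
    rw [Option.mem_toFinset, h1]
    simpa using h2
  refine (card_le_card this).trans (card_biUnion_le.trans ?_)
  calc _ ≤ ∑ _s : Fin d, 1 := by
        refine sum_le_sum fun s _ => ?_
        rw [Option.card_toFinset]
        cases (Q.pos' (j * d + s) (h s)).bind loc <;> simp
    _ = d := by simp

end Machine

lemma prodK_congr {D : ℕ} {ι : Type} (A A' : ℕ → ι → Matrix (Fin D) (Fin D) ℂ) (r : ℕ)
    (h : Fin r → ι) (hA : ∀ s : Fin r, A s (h s) = A' s (h s)) : prodK A r h = prodK A' r h := by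
  induction r with
  | zero => rfl
  | succ r ih =>
    unfold prodK
    congr 1
    · have := hA (Fin.last r)
      simpa using this
    · apply ih
      intro s
      have := hA s.castSucc
      simpa using this

namespace Machine

variable {n : ℕ} {W : Type}

lemma kr'_local (loc : Fin N → Option (Fin n)) (X : (Fin n → W) → (Fin N → A))
    (hX : ∀ x x' i, (∀ k, loc i = some k → x k = x' k) → X x i = X x' i)
    (t : ℕ) (ν : Fin (Q.M + 1)) (x x' : Fin n → W)
    (h : ∀ i k, Q.pos' t ν = some i → loc i = some k → x k = x' k) :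
    Q.kr' (X x) t ν = Q.kr' (X x') t ν := by
  unfold kr'
  by_cases ht : t < T
  · simp only [ht, dite_true]
    by_cases hν : ν.val < Q.M
    · simp only [hν, dite_true]
      unfold kr
      congr 1
      have hp : Q.pos' t ν = Q.pos ⟨t, ht⟩ ⟨ν.val, hν⟩ := by
        unfold pos'; simp [ht, hν]
      rw [hp] at h
      cases hpos : Q.pos ⟨t, ht⟩ ⟨ν.val, hν⟩ with
      | none => rfl
      | some i =>
        simp only [Option.map_some]
        rw [hX x x' i fun k hk => h i k hpos hk]
    · simp [hν]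
  · simp [ht]

lemma bk_local (loc : Fin N → Option (Fin n)) (X : (Fin n → W) → (Fin N → A))
    (hX : ∀ x x' i, (∀ k, loc i = some k → x k = x' k) → X x i = X x' i)
    (d j : ℕ) (h : Fin d → Fin (Q.M + 1)) (x x' : Fin n → W)
    (hx : ∀ i, i ∈ Q.vset loc d j h → x i = x' i) :
    Q.bk d (X x) j h = Q.bk d (X x') j h := by
  unfold bk
  apply prodK_congr
  intro s
  apply kr'_local Q loc X hX
  intro i k h1 h2
  apply hx
  unfold vset
  rw [mem_filter]
  exact ⟨mem_univ _, s, i, h1, h2⟩

/-- The weights along a pair of paths. -/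
noncomputable def wt (d : ℕ) {r : ℕ} (X : (Fin n → W) → (Fin N → A))
    (p p' : Fin (r + 1) → Fin D) (j : Fin r) (h : Fin d → Fin (Q.M + 1)) (x : Fin n → W) : ℂ :=
  Q.bk d (X x) j h (p j.succ) (p j.castSucc) *
    (starRingEnd ℂ) (Q.bk d (X x) j h (p' j.succ) (p' j.castSucc))

lemma pr_eq (Ac : Finset (Fin D)) (d : ℕ) {r : ℕ} (X : (Fin n → W) → (Fin N → A))
    (h : Fin r → (Fin d → Fin (Q.M + 1))) (x : Fin n → W) :
    (Q.pr Ac d r (X x) h : ℂ) = ∑ p : Fin (r + 1) → Fin D, ∑ p' : Fin (r + 1) → Fin D,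
      if p 0 = Q.init ∧ p' 0 = Q.init ∧ p (Fin.last r) = p' (Fin.last r) ∧ p (Fin.last r) ∈ Ac then
        ∏ j, Q.wt d X p p' j (h j) x else 0 := by
  unfold pr
  push_cast
  have e1 : ∀ a ∈ Ac, ((‖prodK (Q.bk d (X x)) r h a Q.init‖ : ℂ)) ^ 2 =
      ∑ p : Fin (r + 1) → Fin D, ∑ p' : Fin (r + 1) → Fin D,
      if p (Fin.last r) = a then (if p 0 = Q.init ∧ p' 0 = Q.init ∧ p (Fin.last r) = p' (Fin.last r)
        then ∏ j, Q.wt d X p p' j (h j) x else 0) else 0 := by
    intro a _
    rw [← Complex.mul_conj', prodK_apply, map_sum, sum_mul_sum]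
    refine sum_congr rfl fun p _ => sum_congr rfl fun p' _ => ?_
    by_cases h1 : p (Fin.last r) = a
    · rw [if_pos h1]
      by_cases h2 : p 0 = Q.init
      · rw [if_pos ⟨h2, h1⟩]
        by_cases h3 : p' 0 = Q.init ∧ p' (Fin.last r) = a
        · rw [if_pos h3, if_pos ⟨h2, h3.1, h1.trans h3.2.symm⟩, map_prod, ← prod_mul_distrib]
          rfl
        · rw [if_neg h3, if_neg, map_zero, mul_zero]
          rintro ⟨_, h4, h5⟩
          exact h3 ⟨h4, h5.symm.trans h1⟩
      · rw [if_neg (fun h => h2 h.1), zero_mul, if_neg (fun h => h2 h.1)]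
    · rw [if_neg (fun h => h1 h.2), zero_mul, if_neg h1]
  rw [sum_congr rfl e1, sum_comm]
  refine sum_congr rfl fun p _ => ?_
  rw [sum_comm]
  refine sum_congr rfl fun p' _ => ?_
  rw [sum_ite_eq Ac (p (Fin.last r))]
  by_cases h1 : p (Fin.last r) ∈ Ac
  · rw [if_pos h1]
    by_cases h2 : p 0 = Q.init ∧ p' 0 = Q.init ∧ p (Fin.last r) = p' (Fin.last r)
    · rw [if_pos h2, if_pos ⟨h2.1, h2.2.1, h2.2.2, h1⟩]
    · rw [if_neg h2, if_neg (fun h => h2 ⟨h.1, h.2.1, h.2.2.1⟩)]
  · rw [if_neg h1, if_neg (fun h => h1 h.2.2.2)]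

open Classical in
/-- The good histories contribute little. -/
theorem good_bound [Fintype W] [DecidableEq W] (hQ : Q.Valid) (Ac : Finset (Fin D)) (loc : Fin N → Option (Fin n))
    (X : (Fin n → W) → (Fin N → A))
    (hX : ∀ x x' i, (∀ k, loc i = some k → x k = x' k) → X x i = X x' i)
    (d r : ℕ) (hcov : ∀ (h : Fin r → (Fin d → Fin (Q.M + 1))) (i : Fin n),
      (Jof (fun j : Fin r => Q.vset loc d j) h i).Nonempty) (ω : Fin r → Bool)
    (F : (Fin n → W) → ℂ) (a : ℕ) (κ : ℝ) (hκ : 0 ≤ κ) (hF : TP F a κ) :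
    ‖∑ x, F x * ((∑ h : Fin r → (Fin d → Fin (Q.M + 1)),
      if Good a ω (Jof (fun j => Q.vset loc d j) h) then Q.pr Ac d r (X x) h else 0 : ℝ) : ℂ)‖ ≤
      (D : ℝ) ^ (2 * (r + 1)) * (κ * (n.choose a : ℝ) * (Fintype.card W : ℝ) ^ n) := by
  classical
  have e1 : ∑ x, F x * ((∑ h : Fin r → (Fin d → Fin (Q.M + 1)),
      if Good a ω (Jof (fun j => Q.vset loc d j) h) then Q.pr Ac d r (X x) h else 0 : ℝ) : ℂ) =
      ∑ p : Fin (r + 1) → Fin D, ∑ p' : Fin (r + 1) → Fin D,
      if p 0 = Q.init ∧ p' 0 = Q.init ∧ p (Fin.last r) = p' (Fin.last r) ∧ p (Fin.last r) ∈ Ac then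
        ∑ x, F x * ∑ h : Fin r → (Fin d → Fin (Q.M + 1)),
        (if Good a ω (Jof (fun j => Q.vset loc d j) h) then ∏ j, Q.wt d X p p' j (h j) x else 0)
      else 0 := by
    have e2 : ∀ x, F x * ((∑ h : Fin r → (Fin d → Fin (Q.M + 1)),
        if Good a ω (Jof (fun j => Q.vset loc d j) h) then Q.pr Ac d r (X x) h else 0 : ℝ) : ℂ) =
        ∑ p : Fin (r + 1) → Fin D, ∑ p' : Fin (r + 1) → Fin D,
        if p 0 = Q.init ∧ p' 0 = Q.init ∧ p (Fin.last r) = p' (Fin.last r) ∧
          p (Fin.last r) ∈ Ac then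
        F x * ∑ h : Fin r → (Fin d → Fin (Q.M + 1)),
        (if Good a ω (Jof (fun j => Q.vset loc d j) h) then ∏ j, Q.wt d X p p' j (h j) x else 0)
        else 0 := by
      intro x
      push_cast
      have e3 : ∀ h : Fin r → (Fin d → Fin (Q.M + 1)),
          ((if Good a ω (Jof (fun j => Q.vset loc d j) h) then Q.pr Ac d r (X x) h else 0 : ℝ) : ℂ) =
          ∑ p : Fin (r + 1) → Fin D, ∑ p' : Fin (r + 1) → Fin D,
          if p 0 = Q.init ∧ p' 0 = Q.init ∧ p (Fin.last r) = p' (Fin.last r) ∧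
            p (Fin.last r) ∈ Ac then
          (if Good a ω (Jof (fun j => Q.vset loc d j) h) then ∏ j, Q.wt d X p p' j (h j) x
            else 0) else 0 := by
        intro h
        by_cases hg : Good a ω (Jof (fun j => Q.vset loc d j) h)
        · simp only [if_pos hg]
          exact pr_eq Q Ac d X h x
        · simp only [if_neg hg]
          simp
      have e4 : ∑ h : Fin r → (Fin d → Fin (Q.M + 1)),
          ((if Good a ω (Jof (fun j => Q.vset loc d j) h) then Q.pr Ac d r (X x) h else 0 : ℝ) : ℂ) =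
          ∑ p : Fin (r + 1) → Fin D, ∑ p' : Fin (r + 1) → Fin D,
          if p 0 = Q.init ∧ p' 0 = Q.init ∧ p (Fin.last r) = p' (Fin.last r) ∧
            p (Fin.last r) ∈ Ac then
          ∑ h : Fin r → (Fin d → Fin (Q.M + 1)),
          (if Good a ω (Jof (fun j => Q.vset loc d j) h) then ∏ j, Q.wt d X p p' j (h j) x
            else 0) else 0 := by
        rw [sum_congr rfl fun h _ => e3 h, sum_comm]
        refine sum_congr rfl fun p _ => ?_
        rw [sum_comm]
        refine sum_congr rfl fun p' _ => ?_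
        split_ifs
        · rfl
        · simp
      rw [e4, mul_sum]
      refine sum_congr rfl fun p _ => ?_
      rw [mul_sum]
      refine sum_congr rfl fun p' _ => ?_
      rw [mul_ite, mul_zero]
    rw [sum_congr rfl fun x _ => e2 x, sum_comm]
    refine sum_congr rfl fun p _ => ?_
    rw [sum_comm]
    refine sum_congr rfl fun p' _ => ?_
    split_ifs
    · rfl
    · simp
  rw [e1]
  have key : ∀ p p' : Fin (r + 1) → Fin D,
      ‖∑ x, F x * ∑ h : Fin r → (Fin d → Fin (Q.M + 1)),
        (if Good a ω (Jof (fun j => Q.vset loc d j) h) then ∏ j, Q.wt d X p p' j (h j) x else 0)‖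
        ≤ κ * (n.choose a : ℝ) * (Fintype.card W : ℝ) ^ n := by
    intro p p'
    refine core_two (β := Fin r) (H := Fin d → Fin (Q.M + 1)) (fun j => Q.vset loc d j)
      (fun j h x => Q.wt d X p p' j h x) ?_ ?_ ?_ ω F a κ hκ hF
    · intro j h x x' hx
      unfold wt
      rw [bk_local Q loc X hX d j h x x' hx]
    · intro j x
      exact sum_entries (Q.bk d (X x) j) (Q.bk_unit hQ d (X x) j) _ _ _ _
    · intro h i
      obtain ⟨j, hj⟩ := hcov h i
      unfold Jof at hj
      rw [mem_filter] at hj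
      exact ⟨j, hj.2⟩
  calc _ ≤ ∑ p : Fin (r + 1) → Fin D, ∑ p' : Fin (r + 1) → Fin D, κ * (n.choose a : ℝ) * (Fintype.card W : ℝ) ^ n := by
        refine (norm_sum_le _ _).trans (sum_le_sum fun p _ => ?_)
        refine (norm_sum_le _ _).trans (sum_le_sum fun p' _ => ?_)
        split_ifs
        · exact key p p'
        · rw [norm_zero]; positivity
    _ = _ := by
        rw [sum_const, sum_const, card_univ, Fintype.card_fun, Fintype.card_fin, Fintype.card_fin,
          nsmul_eq_mul, nsmul_eq_mul]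
        push_cast
        ring

/-! ### Facts about the read sets -/

lemma jof_nonempty (loc : Fin N → Option (Fin n)) (hloc : ∀ k, ∃ i, loc i = some k)
    (d r : ℕ) (hr : T + N ≤ r * d) (h : Fin r → (Fin d → Fin (Q.M + 1))) (k : Fin n) :
    (Jof (fun j : Fin r => Q.vset loc d j) h k).Nonempty := by
  obtain ⟨i, hi⟩ := hloc k
  have hd : 0 < d := by
    rcases Nat.eq_zero_or_pos d with h0 | h0
    · exfalso
      have := i.2
      rw [h0, mul_zero] at hr
      omega
    · exact h0
  have hlt : T + i.val < r * d := by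
    have := i.2
    omega
  have hj : (T + i.val) / d < r := by
    rw [Nat.div_lt_iff_lt_mul hd]
    exact hlt
  refine ⟨⟨(T + i.val) / d, hj⟩, ?_⟩
  unfold Jof
  rw [mem_filter]
  refine ⟨mem_univ _, ?_⟩
  unfold vset
  rw [mem_filter]
  refine ⟨mem_univ _, ⟨(T + i.val) % d, Nat.mod_lt _ hd⟩, i, ?_, hi⟩
  have e : (T + i.val) / d * d + (T + i.val) % d = T + i.val := by
    rw [mul_comm]; exact Nat.div_add_mod _ _
  show Q.pos' ((T + i.val) / d * d + (T + i.val) % d) _ = some i
  rw [e]
  unfold pos'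
  rw [dif_neg (by omega)]
  have : T + i.val - T < N := by
    have := i.2
    omega
  rw [dif_pos this]
  congr 1
  ext
  simp

lemma jof_block (loc : Fin N → Option (Fin n)) (d r : ℕ)
    (h : Fin r → (Fin d → Fin (Q.M + 1))) (j : Fin r) :
    (univ.filter fun i => j ∈ Jof (fun j : Fin r => Q.vset loc d j) h i).card ≤ d := by
  have : (univ.filter fun i => j ∈ Jof (fun j : Fin r => Q.vset loc d j) h i) =
      Q.vset loc d j (h j) := by
    ext i
    simp [Jof]
  rw [this]
  exact Q.vset_card loc d j (h j)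

lemma jof_sum (loc : Fin N → Option (Fin n)) (d r : ℕ)
    (h : Fin r → (Fin d → Fin (Q.M + 1))) :
    ∑ i, (Jof (fun j : Fin r => Q.vset loc d j) h i).card ≤ r * d := by
  have e : ∑ i, (Jof (fun j : Fin r => Q.vset loc d j) h i).card =
      ∑ j : Fin r, (Q.vset loc d j (h j)).card := by
    unfold Jof
    have := sum_card_bipartiteAbove_eq_sum_card_bipartiteBelow (s := (univ : Finset (Fin n)))
      (t := (univ : Finset (Fin r))) (fun i (j : Fin r) => i ∈ Q.vset loc d j (h j))
    unfold bipartiteAbove bipartiteBelow at this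
    rw [this]
    refine sum_congr rfl fun j _ => ?_
    congr 1
    ext i
    simp
  rw [e]
  calc _ ≤ ∑ _j : Fin r, d := sum_le_sum fun j _ => Q.vset_card loc d j (h j)
    _ = r * d := by simp

end Machine

end

end Pool.Agent.H774R2.QSAT
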