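import Mathlib
import Pool.Agent.H774R2.QSAT.WDefs

/-! Task PROB2 : random 2-colourings of the pieces. -/

open Finset

set_option linter.unusedSectionVars false

namespace Pool.Agent.H774R2.QSAT
namespace ProbT

variable {b : ℕ} {β : Type} [Fintype β] [DecidableEq β]

lemma count_fix (S : Finset β) (c : Bool) :
    ((univ.filter fun ω : β → Bool => ∀ j ∈ S, ω j = c).card : ℝ) =
      2 ^ Fintype.card β / 2 ^ S.card := by
  have h1 : (univ.filter fun ω : β → Bool => ∀ j ∈ S, ω j = c) =
      Fintype.piFinset (fun j => if j ∈ S then ({c} : Finset Bool) else univ) := by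
    ext ω
    simp only [mem_filter, mem_univ, true_and, Fintype.mem_piFinset]
    refine forall_congr' fun j => ?_
    by_cases h : j ∈ S
    · simp [h]
    · simp [h]
  have h2 : (univ.filter fun ω : β → Bool => ∀ j ∈ S, ω j = c).card * 2 ^ S.card =
      2 ^ Fintype.card β := by
    rw [h1, Fintype.card_piFinset]
    have h2 : ∀ j, (if j ∈ S then ({c} : Finset Bool) else univ).card =
        if j ∈ S then 1 else 2 := by
      intro j; split_ifs <;> simp
    simp only [h2]
    rw [Finset.prod_ite, Finset.prod_const, Finset.prod_const, one_pow, one_mul, ← pow_add]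
    congr 1
    have h3 := Finset.card_filter_add_card_filter_not (s := (univ : Finset β)) (fun j => j ∈ S)
    have h4 : (univ.filter fun j => j ∈ S) = S := by ext j; simp
    rw [h4, Finset.card_univ] at h3
    omega
  rw [eq_div_iff (by positivity)]
  exact_mod_cast h2

/-- Indicator that all the pieces of the word `i` have colour `c`. -/
noncomputable def ind (J : Fin b → Finset β) (c : Bool) (ω : β → Bool) (i : Fin b) : ℝ :=
  if ∀ j ∈ J i, ω j = c then 1 else 0

lemma sum_ind (J : Fin b → Finset β) (c : Bool) (i : Fin b) :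
    ∑ ω : β → Bool, ind J c ω i = 2 ^ Fintype.card β / 2 ^ (J i).card := by
  unfold ind
  rw [← Finset.natCast_card_filter, count_fix]

lemma sum_ind_mul (J : Fin b → Finset β) (c : Bool) (i i' : Fin b) :
    ∑ ω : β → Bool, ind J c ω i * ind J c ω i' =
      2 ^ Fintype.card β / 2 ^ (J i ∪ J i').card := by
  rw [← count_fix (J i ∪ J i') c, Finset.natCast_card_filter]
  refine Finset.sum_congr rfl fun ω _ => ?_
  unfold ind
  by_cases h1 : ∀ j ∈ J i, ω j = c
  · by_cases h2 : ∀ j ∈ J i', ω j = c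
    · rw [if_pos h1, if_pos h2, if_pos]
      · norm_num
      · intro j hj
        rcases mem_union.1 hj with h | h
        · exact h1 j h
        · exact h2 j h
    · have h3 : ¬ ∀ j ∈ J i ∪ J i', ω j = c :=
        fun h => h2 fun j hj => h j (mem_union_right _ hj)
      rw [if_neg h2, if_neg h3, mul_zero]
  · have h3 : ¬ ∀ j ∈ J i ∪ J i', ω j = c :=
      fun h => h1 fun j hj => h j (mem_union_left _ hj)
    rw [if_neg h1, if_neg h3, zero_mul]

lemma pair_le (J : Fin b → Finset β) (c : Bool) (i i' : Fin b) :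
    ∑ ω : β → Bool, ind J c ω i * ind J c ω i' ≤
      2 ^ Fintype.card β * ((1 / 2 ^ (J i).card) * (1 / 2 ^ (J i').card) +
        (if ¬ Disjoint (J i) (J i') then (1 : ℝ) else 0) * (1 / 2 ^ (J i).card)) := by
  rw [sum_ind_mul]
  by_cases h : Disjoint (J i) (J i')
  · rw [card_union_of_disjoint h]
    simp only [h, not_true, if_false, zero_mul, add_zero]
    rw [pow_add]
    apply le_of_eq
    field_simp
  · simp only [h, not_false_eq_true, if_true, one_mul]
    have h1 : (2:ℝ) ^ (J i).card ≤ 2 ^ (J i ∪ J i').card :=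
      pow_le_pow_right₀ (by norm_num) (card_le_card subset_union_left)
    have h2 : (2:ℝ) ^ Fintype.card β / 2 ^ (J i ∪ J i').card ≤
        2 ^ Fintype.card β * (1 / 2 ^ (J i).card) := by
      rw [mul_one_div]
      exact div_le_div_of_nonneg_left (by positivity) (by positivity) h1
    refine h2.trans ?_
    apply mul_le_mul_of_nonneg_left _ (by positivity)
    have : (0:ℝ) ≤ (1 / 2 ^ (J i).card) * (1 / 2 ^ (J i').card) := by positivity
    linarith

lemma card_not_disjoint (J : Fin b → Finset β) (d : ℕ)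
    (hd : ∀ j, (univ.filter fun i => j ∈ J i).card ≤ d) (i : Fin b) :
    (univ.filter fun i' => ¬ Disjoint (J i) (J i')).card ≤ (J i).card * d := by
  have h1 : (univ.filter fun i' => ¬ Disjoint (J i) (J i')) ⊆
      (J i).biUnion (fun j => univ.filter fun i' => j ∈ J i') := by
    intro i' h
    rw [mem_filter, Finset.not_disjoint_iff] at h
    obtain ⟨-, j, h2, h3⟩ := h
    rw [mem_biUnion]
    exact ⟨j, h2, by simp [h3]⟩
  refine (card_le_card h1).trans (card_biUnion_le.trans ?_)
  refine (Finset.sum_le_sum fun j _ => hd j).trans ?_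
  simp

/-- Second moment. -/
lemma var_le (J : Fin b → Finset β) (c : Bool) (G : Finset (Fin b)) (K d : ℕ)
    (hG : ∀ i ∈ G, (J i).card ≤ 2 * K)
    (hd : ∀ j, (univ.filter fun i => j ∈ J i).card ≤ d) {M : ℝ}
    (hM : M = ∑ i ∈ G, 1 / (2:ℝ) ^ (J i).card) :
    ∑ ω : β → Bool, (∑ i ∈ G, ind J c ω i - M) ^ 2 ≤
      2 ^ Fintype.card β * (2 * K * d * M) := by
  set W : ℝ := 2 ^ Fintype.card β with hW
  have hW0 : 0 < W := by positivity
  have e1 : ∑ ω : β → Bool, ∑ i ∈ G, ind J c ω i = W * M := by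
    rw [Finset.sum_comm, hM, Finset.mul_sum]
    refine Finset.sum_congr rfl fun i _ => ?_
    rw [sum_ind, mul_one_div]
  have e2 : ∑ ω : β → Bool, (∑ i ∈ G, ind J c ω i) ^ 2 ≤ W * (M ^ 2 + 2 * K * d * M) := by
    have h1 : ∀ ω : β → Bool, (∑ i ∈ G, ind J c ω i) ^ 2 =
        ∑ i ∈ G, ∑ i' ∈ G, ind J c ω i * ind J c ω i' := by
      intro ω
      rw [sq, Finset.sum_mul_sum]
    simp only [h1]
    rw [Finset.sum_comm]
    have h2 : ∀ i ∈ G, ∑ ω : β → Bool, ∑ i' ∈ G, ind J c ω i * ind J c ω i' ≤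
        W * ((1 / 2 ^ (J i).card) * M + (2 * K * d) * (1 / 2 ^ (J i).card)) := by
      intro i hi
      rw [Finset.sum_comm]
      refine (Finset.sum_le_sum fun i' _ => pair_le J c i i').trans ?_
      rw [← Finset.mul_sum, Finset.sum_add_distrib, ← Finset.mul_sum, ← hM, ← Finset.sum_mul]
      apply mul_le_mul_of_nonneg_left _ hW0.le
      apply add_le_add le_rfl
      apply mul_le_mul_of_nonneg_right _ (by positivity)
      rw [← Finset.natCast_card_filter]
      have h3 : (G.filter fun i' => ¬ Disjoint (J i) (J i')).card ≤ 2 * K * d := by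
        refine (card_le_card (filter_subset_filter _ (subset_univ G))).trans ?_
        refine (card_not_disjoint J d hd i).trans ?_
        exact Nat.mul_le_mul_right _ (hG i hi)
      exact_mod_cast h3
    refine (Finset.sum_le_sum h2).trans (le_of_eq ?_)
    rw [← Finset.mul_sum, Finset.sum_add_distrib, ← Finset.sum_mul, ← Finset.mul_sum, ← hM]
    ring
  have e3 : ∑ ω : β → Bool, (∑ i ∈ G, ind J c ω i - M) ^ 2 =
      ∑ ω : β → Bool, (∑ i ∈ G, ind J c ω i) ^ 2 - 2 * M * ∑ ω : β → Bool, ∑ i ∈ G, ind J c ω i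
        + W * M ^ 2 := by
    have h1 : ∀ ω : β → Bool, (∑ i ∈ G, ind J c ω i - M) ^ 2 =
        (∑ i ∈ G, ind J c ω i) ^ 2 - 2 * M * ∑ i ∈ G, ind J c ω i + M ^ 2 := by
      intro ω; ring
    simp only [h1]
    rw [Finset.sum_add_distrib, Finset.sum_sub_distrib, ← Finset.mul_sum, Finset.sum_const,
      Finset.card_univ, nsmul_eq_mul]
    congr 2
    rw [hW]
    simp
  rw [e3, e1]
  nlinarith

/-- Chebyshev. -/
lemma bad_le (J : Fin b → Finset β) (c : Bool) (K d H a : ℕ) (hb : 1 ≤ b) (hK : 1 ≤ K)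
    (hH : 1 ≤ H) (hsum : ∑ i, (J i).card ≤ K * b)
    (hd : ∀ j, (univ.filter fun i => j ∈ J i).card ≤ d)
    (hdb : 64 * K * H * 4 ^ K * d ≤ b) (ha : 4 * 4 ^ K * a ≤ b) :
    ((univ.filter fun ω : β → Bool =>
      ¬ a ≤ (univ.filter fun i => ∀ j ∈ J i, ω j = c).card).card : ℝ) ≤
      1 / (4 * H) * 2 ^ Fintype.card β := by
  set W : ℝ := 2 ^ Fintype.card β with hW
  have hW0 : 0 < W := by positivity
  set G : Finset (Fin b) := univ.filter fun i => (J i).card ≤ 2 * K with hG
  obtain ⟨M, hM⟩ : ∃ M : ℝ, M = ∑ i ∈ G, 1 / (2:ℝ) ^ (J i).card := ⟨_, rfl⟩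
  have hvar := var_le J c G K d (fun i hi => (mem_filter.1 hi).2) hd hM
  have hb' : (1:ℝ) ≤ b := by exact_mod_cast hb
  have hK' : (1:ℝ) ≤ K := by exact_mod_cast hK
  have hH' : (1:ℝ) ≤ H := by exact_mod_cast hH
  have hGc : b ≤ 2 * G.card := by
    have h1 : (univ.filter fun i => ¬ (J i).card ≤ 2 * K).card * (2 * K) ≤ K * b := by
      refine le_trans ?_ hsum
      rw [← smul_eq_mul]
      refine (Finset.card_nsmul_le_sum _ (fun i => (J i).card) (2 * K) ?_).trans
        (Finset.sum_le_sum_of_subset (filter_subset _ _))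
      intro i hi
      have := (mem_filter.1 hi).2
      omega
    have h2 := Finset.card_filter_add_card_filter_not (s := (univ : Finset (Fin b)))
      (fun i => (J i).card ≤ 2 * K)
    rw [Finset.card_univ, Fintype.card_fin] at h2
    have h3 : (univ.filter fun i => ¬ (J i).card ≤ 2 * K).card * 2 ≤ b := by
      have h4 : K * ((univ.filter fun i => ¬ (J i).card ≤ 2 * K).card * 2) ≤ K * b := by
        calc K * ((univ.filter fun i => ¬ (J i).card ≤ 2 * K).card * 2) =
            (univ.filter fun i => ¬ (J i).card ≤ 2 * K).card * (2 * K) := by ring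
          _ ≤ _ := h1
      exact Nat.le_of_mul_le_mul_left h4 (by omega)
    rw [← hG] at h2
    omega
  have h4K : (0:ℝ) < 4 ^ K := by positivity
  have hMge : (b:ℝ) / (2 * 4 ^ K) ≤ M := by
    rw [hM]
    have h1 : ∀ i ∈ G, (1:ℝ) / 4 ^ K ≤ 1 / 2 ^ (J i).card := by
      intro i hi
      have h2 : (J i).card ≤ 2 * K := (mem_filter.1 hi).2
      apply one_div_le_one_div_of_le (by positivity)
      calc (2:ℝ) ^ (J i).card ≤ 2 ^ (2 * K) := pow_le_pow_right₀ (by norm_num) h2
        _ = 4 ^ K := by rw [pow_mul]; norm_num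
    refine le_trans ?_ (Finset.sum_le_sum h1)
    rw [Finset.sum_const, nsmul_eq_mul, mul_one_div, div_le_div_iff₀ (by positivity) h4K]
    have h3 : (b:ℝ) ≤ 2 * G.card := by exact_mod_cast hGc
    nlinarith
  have hMpos : 0 < M := lt_of_lt_of_le (by positivity) hMge
  have haM : (a:ℝ) ≤ M / 2 := by
    have h1 : 4 * 4 ^ K * (a:ℝ) ≤ b := by exact_mod_cast ha
    have h2 : (a:ℝ) ≤ b / (4 * 4 ^ K) := by
      rw [le_div_iff₀ (by positivity)]; linarith
    have h3 : (b:ℝ) / (4 * 4 ^ K) = (b / (2 * 4 ^ K)) / 2 := by ring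
    linarith
  -- bad colourings
  set B : Finset (β → Bool) := univ.filter fun ω : β → Bool =>
      ¬ a ≤ (univ.filter fun i => ∀ j ∈ J i, ω j = c).card with hB
  have h1 : (B.card : ℝ) * (M / 2) ^ 2 ≤ W * (2 * K * d * M) := by
    refine le_trans ?_ hvar
    rw [← nsmul_eq_mul]
    refine (Finset.card_nsmul_le_sum B (fun ω => (∑ i ∈ G, ind J c ω i - M) ^ 2) _ ?_).trans
      (Finset.sum_le_sum_of_subset_of_nonneg (subset_univ _) fun _ _ _ => sq_nonneg _)
    intro ω hω
    have h2 : ¬ a ≤ (univ.filter fun i => ∀ j ∈ J i, ω j = c).card := (mem_filter.1 hω).2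
    push Not at h2
    have h3 : ∑ i ∈ G, ind J c ω i ≤ ((univ.filter fun i => ∀ j ∈ J i, ω j = c).card : ℝ) := by
      unfold ind
      rw [← Finset.natCast_card_filter]
      exact_mod_cast card_le_card (filter_subset_filter _ (subset_univ G))
    have h4 : ((univ.filter fun i => ∀ j ∈ J i, ω j = c).card : ℝ) ≤ a := by
      exact_mod_cast h2.le
    have h5 : ∑ i ∈ G, ind J c ω i ≤ M / 2 := h3.trans (h4.trans haM)
    have h6 : M / 2 ≤ M - ∑ i ∈ G, ind J c ω i := by linarith
    calc (M / 2) ^ 2 ≤ (M - ∑ i ∈ G, ind J c ω i) ^ 2 :=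
          pow_le_pow_left₀ (by positivity) h6 2
      _ = (∑ i ∈ G, ind J c ω i - M) ^ 2 := by ring
  -- conclusion
  have h2 : (B.card : ℝ) * M ≤ W * (8 * K * d) := by
    have h3 : ((B.card : ℝ) * M) * (M / 4) ≤ (W * (8 * K * d)) * (M / 4) := by
      calc ((B.card : ℝ) * M) * (M / 4) = (B.card : ℝ) * (M / 2) ^ 2 := by ring
        _ ≤ _ := h1
        _ = _ := by ring
    exact le_of_mul_le_mul_right h3 (by positivity)
  have h3 : 64 * K * H * 4 ^ K * (d:ℝ) ≤ b := by exact_mod_cast hdb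
  have h4 : 8 * K * (d:ℝ) ≤ M / (4 * H) := by
    rw [le_div_iff₀ (by positivity)]
    refine le_trans ?_ hMge
    rw [le_div_iff₀ (by positivity)]
    calc 8 * K * (d:ℝ) * (4 * H) * (2 * 4 ^ K) = 64 * K * H * 4 ^ K * (d:ℝ) := by ring
      _ ≤ b := h3
  have h5 : (B.card : ℝ) * M ≤ (1 / (4 * H) * W) * M := by
    calc (B.card : ℝ) * M ≤ W * (8 * K * d) := h2
      _ ≤ W * (M / (4 * H)) := mul_le_mul_of_nonneg_left h4 hW0.le
      _ = _ := by ring
  exact le_of_mul_le_mul_right h5 hMpos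

end ProbT

/-- Task PROB2. -/
theorem prob_two {b : ℕ} {β : Type} [Fintype β] [DecidableEq β] (J : Fin b → Finset β)
    (K d H a : ℕ) (hb : 1 ≤ b) (hK : 1 ≤ K) (hH : 1 ≤ H)
    (hsum : ∑ i, (J i).card ≤ K * b)
    (hd : ∀ j, (univ.filter fun i => j ∈ J i).card ≤ d)
    (hdb : 64 * K * H * 4 ^ K * d ≤ b) (ha : 4 * 4 ^ K * a ≤ b) :
    (1 - 1 / (H : ℝ)) * 2 ^ (Fintype.card β) ≤
      ((univ.filter fun ω : β → Bool =>
        a ≤ (univ.filter fun i => ∀ j ∈ J i, ω j = true).card ∧
        a ≤ (univ.filter fun i => ∀ j ∈ J i, ω j = false).card).card : ℝ) := by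
  have h1 := ProbT.bad_le J true K d H a hb hK hH hsum hd hdb ha
  have h2 := ProbT.bad_le J false K d H a hb hK hH hsum hd hdb ha
  set W : ℝ := 2 ^ Fintype.card β with hW
  have hW0 : 0 < W := by positivity
  have hH' : (1:ℝ) ≤ H := by exact_mod_cast hH
  have h3 : Fintype.card (β → Bool) ≤
      (univ.filter fun ω : β → Bool =>
        a ≤ (univ.filter fun i => ∀ j ∈ J i, ω j = true).card ∧
        a ≤ (univ.filter fun i => ∀ j ∈ J i, ω j = false).card).card +
      ((univ.filter fun ω : β → Bool =>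
        ¬ a ≤ (univ.filter fun i => ∀ j ∈ J i, ω j = true).card).card +
      (univ.filter fun ω : β → Bool =>
        ¬ a ≤ (univ.filter fun i => ∀ j ∈ J i, ω j = false).card).card) := by
    rw [← Finset.card_univ]
    refine le_trans ?_ ((card_union_le _ _).trans (add_le_add le_rfl (card_union_le _ _)))
    apply card_le_card
    intro ω _
    simp only [mem_union, mem_filter, mem_univ, true_and]
    tauto
  have h4 : W ≤ ((univ.filter fun ω : β → Bool =>
        a ≤ (univ.filter fun i => ∀ j ∈ J i, ω j = true).card ∧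
        a ≤ (univ.filter fun i => ∀ j ∈ J i, ω j = false).card).card : ℝ) +
      (((univ.filter fun ω : β → Bool =>
        ¬ a ≤ (univ.filter fun i => ∀ j ∈ J i, ω j = true).card).card : ℝ) +
      ((univ.filter fun ω : β → Bool =>
        ¬ a ≤ (univ.filter fun i => ∀ j ∈ J i, ω j = false).card).card : ℝ)) := by
    have h5 : (Fintype.card (β → Bool) : ℝ) = W := by rw [hW]; simp
    rw [← h5]
    exact_mod_cast h3
  have h5 : 1 / (4 * (H:ℝ)) * W + 1 / (4 * (H:ℝ)) * W ≤ 1 / H * W := by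
    have : 1 / (4 * (H:ℝ)) * W + 1 / (4 * (H:ℝ)) * W = (1 / H * W) / 2 := by
      field_simp; norm_num
    rw [this]
    have : 0 ≤ 1 / (H:ℝ) * W := by positivity
    linarith
  linarith

end Pool.Agent.H774R2.QSAT
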