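import Mathlib
import Pool.Agent.H774R2.QSAT.Mach
import Pool.Agent.H774R2.QSAT.Prob

/-!
# Averaging over the colourings
-/

open Finset Matrix

namespace Pool.Agent.H774R2.QSAT

open Pool.Agent.H774R2.QTS (Jof prodK state_eq unit_eq prodK_apply sum_entries)

section

variable {N : ℕ} {A : Type} {D T : ℕ} (Q : Machine N A D T)

namespace Machine

/-- The total probability is one. -/
lemma prob_univ (hQ : Q.Valid) (x : Fin N → A) : Q.prob univ x = 1 := by
  rw [Q.prob_eq univ 1 T (by omega)]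
  have h1 := unit_eq (Q.bk 1 x) (fun j => Q.bk_unit hQ 1 x j) T
  have h2 : (∑ h, (prodK (Q.bk 1 x) T h)ᴴ * prodK (Q.bk 1 x) T h : Matrix (Fin D) (Fin D) ℂ)
      Q.init Q.init = 1 := by rw [h1]; simp
  rw [Matrix.sum_apply] at h2
  have h3 : ∀ h : Fin T → (Fin 1 → Fin (Q.M + 1)), ((prodK (Q.bk 1 x) T h)ᴴ *
      prodK (Q.bk 1 x) T h : Matrix (Fin D) (Fin D) ℂ) Q.init Q.init = (Q.pr univ 1 T x h : ℂ) := by
    intro h
    rw [Matrix.mul_apply]
    unfold pr
    push_cast
    refine sum_congr rfl fun a _ => ?_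
    rw [conjTranspose_apply, ← Complex.conj_mul']
    rfl
  rw [sum_congr rfl fun h _ => h3 h] at h2
  exact_mod_cast h2

lemma prob_compl (hQ : Q.Valid) (x : Fin N → A) : Q.prob Q.yes x + Q.prob Q.yesᶜ x = 1 := by
  rw [← Q.prob_univ hQ x]
  unfold prob
  rw [sum_add_sum_compl]

lemma prob_nonneg (Ac : Finset (Fin D)) (x : Fin N → A) : 0 ≤ Q.prob Ac x := by
  rw [Q.prob_eq Ac 1 T (by omega)]
  exact sum_nonneg fun h _ => Q.pr_nonneg Ac 1 T x h

variable {b : ℕ}

open Classical in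
/-- The proportion of the good colourings. -/
noncomputable def theta (loc : Fin N → Option (Fin b)) (d r a : ℕ)
    (h : Fin r → (Fin d → Fin (Q.M + 1))) : ℝ :=
  ((univ.filter fun ω : Fin r → Bool =>
    Good a ω (Jof (fun j : Fin r => Q.vset loc d j) h)).card : ℝ) / 2 ^ r

lemma theta_nonneg (loc : Fin N → Option (Fin b)) (d r a : ℕ)
    (h : Fin r → (Fin d → Fin (Q.M + 1))) : 0 ≤ Q.theta loc d r a h := by
  unfold theta; positivity

lemma theta_le (loc : Fin N → Option (Fin b)) (d r a : ℕ)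
    (h : Fin r → (Fin d → Fin (Q.M + 1))) : Q.theta loc d r a h ≤ 1 := by
  classical
  unfold theta
  apply div_le_one_of_le₀ _ (by positivity)
  have := card_filter_le (univ : Finset (Fin r → Bool)) fun ω =>
    Good a ω (Jof (fun j : Fin r => Q.vset loc d j) h)
  rw [card_univ, Fintype.card_fun, Fintype.card_fin, Fintype.card_bool] at this
  calc _ ≤ ((2 ^ r : ℕ) : ℝ) := by
        refine le_trans ?_ (Nat.cast_le.2 this)
        apply le_of_eq
        congr
    _ = 2 ^ r := by push_cast; rfl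

lemma theta_ge (loc : Fin N → Option (Fin b)) (d r a K H : ℕ) (hb : 1 ≤ b) (hK : 1 ≤ K)
    (hH : 1 ≤ H) (h : Fin r → (Fin d → Fin (Q.M + 1)))
    (hsum : ∑ i, (Jof (fun j : Fin r => Q.vset loc d j) h i).card ≤ K * b)
    (hdb : 64 * K * H * 4 ^ K * d ≤ b) (ha : 4 * 4 ^ K * a ≤ b) :
    1 - 1 / (H : ℝ) ≤ Q.theta loc d r a h := by
  classical
  have key := prob_two (Jof (fun j : Fin r => Q.vset loc d j) h) K d H a hb hK hH hsum
    (fun j => Q.jof_block loc d r h j) hdb ha
  rw [Fintype.card_fin] at key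
  unfold theta
  rw [le_div_iff₀ (by positivity)]
  refine key.trans (le_of_eq ?_)
  unfold Good
  congr

open Classical in
/-- Upper bound for the correlation of the weight of the good histories. -/
theorem corr_bound {W : Type} [Fintype W] [DecidableEq W] (hQ : Q.Valid) (Ac : Finset (Fin D))
    (loc : Fin N → Option (Fin b)) (X : (Fin b → W) → (Fin N → A))
    (hX : ∀ x x' i, (∀ k, loc i = some k → x k = x' k) → X x i = X x' i)
    (d r : ℕ) (hcov : ∀ (h : Fin r → (Fin d → Fin (Q.M + 1))) (i : Fin b),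
      (Jof (fun j : Fin r => Q.vset loc d j) h i).Nonempty)
    (F : (Fin b → W) → ℂ) (a : ℕ) (κ : ℝ) (hκ : 0 ≤ κ) (hF : TP F a κ) :
    ‖∑ x, F x * ((∑ h : Fin r → (Fin d → Fin (Q.M + 1)),
      Q.pr Ac d r (X x) h * Q.theta loc d r a h : ℝ) : ℂ)‖ ≤
      (D : ℝ) ^ (2 * (r + 1)) * (κ * (b.choose a : ℝ) * (Fintype.card W : ℝ) ^ b) := by
  set Bd : ℝ := (D : ℝ) ^ (2 * (r + 1)) * (κ * (b.choose a : ℝ) * (Fintype.card W : ℝ) ^ b)
    with hBd
  have e0 : ∀ y, (∑ h : Fin r → (Fin d → Fin (Q.M + 1)),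
      Q.pr Ac d r (X y) h * Q.theta loc d r a h) = (∑ ω : Fin r → Bool,
        ∑ h : Fin r → (Fin d → Fin (Q.M + 1)),
        if Good a ω (Jof (fun j => Q.vset loc d j) h) then Q.pr Ac d r (X y) h else 0) / 2 ^ r := by
    intro y
    rw [sum_comm, sum_div]
    refine sum_congr rfl fun h _ => ?_
    unfold theta
    rw [← sum_filter, sum_const, nsmul_eq_mul]
    ring
  have e1 : ∑ x, F x * ((∑ h : Fin r → (Fin d → Fin (Q.M + 1)),
      Q.pr Ac d r (X x) h * Q.theta loc d r a h : ℝ) : ℂ) =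
      (∑ ω : Fin r → Bool, ∑ x, F x * ((∑ h : Fin r → (Fin d → Fin (Q.M + 1)),
        if Good a ω (Jof (fun j => Q.vset loc d j) h) then Q.pr Ac d r (X x) h else 0 : ℝ) : ℂ)) /
        2 ^ r := by
    rw [sum_comm, sum_div]
    refine sum_congr rfl fun x _ => ?_
    rw [e0 x, Complex.ofReal_div, Complex.ofReal_sum, ← mul_sum, mul_div_assoc]
    push_cast
    rfl
  rw [e1, norm_div]
  have h2 : ‖(2 : ℂ) ^ r‖ = 2 ^ r := by rw [norm_pow]; norm_num
  rw [h2, div_le_iff₀ (by positivity)]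
  calc _ ≤ ∑ _ω : Fin r → Bool, Bd := by
        refine (norm_sum_le _ _).trans (sum_le_sum fun ω _ => ?_)
        exact Q.good_bound hQ Ac loc X hX d r hcov ω F a κ hκ hF
    _ = Bd * 2 ^ r := by
        rw [sum_const, card_univ, Fintype.card_fun, Fintype.card_fin, Fintype.card_bool,
          nsmul_eq_mul]
        push_cast
        ring

end Machine

end

end Pool.Agent.H774R2.QSAT
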