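import Mathlib
import Pool.Agent.H774R2.QTS.Core
import Pool.Agent.H774R2.QTS.TwoParty
import Pool.Agent.H774R2.QSAT.Core

/-!
# The two-party bound for words
-/

open Finset

namespace Pool.Agent.H774R2.QSAT

open Pool.Agent.H774R2.QTS (chi quad ker two_party)

section

variable {b w : ℕ}

/-- Sequences of words are sequences of bits. -/
def flatEquiv (b w : ℕ) : (Fin b → Fin w → ZMod 2) ≃ (Fin (b * w) → ZMod 2) where
  toFun := flat
  invFun z := fun i k => z (finProdFinEquiv (i, k))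
  left_inv y := by funext i k; simp [flat]
  right_inv z := by
    funext i
    show z (finProdFinEquiv ((finProdFinEquiv.symm i).1, (finProdFinEquiv.symm i).2)) = z i
    rw [Prod.mk.eta, Equiv.apply_symm_apply]

lemma card_bitsOf (A : Finset (Fin b)) : (bitsOf w A).card = A.card * w := by
  have : bitsOf w A = (A ×ˢ (univ : Finset (Fin w))).map finProdFinEquiv.toEmbedding := by
    ext i
    simp only [bitsOf, wordOf, mem_filter, mem_univ, true_and, mem_map, mem_product, and_true,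
      Equiv.coe_toEmbedding]
    constructor
    · intro h
      exact ⟨finProdFinEquiv.symm i, h, finProdFinEquiv.apply_symm_apply i⟩
    · rintro ⟨p, hp, rfl⟩
      rw [finProdFinEquiv.symm_apply_apply]
      exact hp
  rw [this, card_map, card_product, card_univ, Fintype.card_fin]

lemma disjoint_bitsOf {A B : Finset (Fin b)} (h : Disjoint A B) :
    Disjoint (bitsOf w A) (bitsOf w B) := by
  rw [disjoint_left] at h ⊢
  intro i hi hi'
  simp only [bitsOf, mem_filter] at hi hi'
  exact h hi.2 hi'.2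

lemma indep_bits {A : Finset (Fin b)} {g : (Fin b → Fin w → ZMod 2) → ℂ} (h : Indep A g) :
    Pool.Agent.H774R2.QTS.Indep (bitsOf w A) (fun z => g ((flatEquiv b w).symm z)) := by
  intro x x' hx
  apply h
  intro i hi
  funext k
  show x (finProdFinEquiv (i, k)) = x' (finProdFinEquiv (i, k))
  apply hx
  simp only [bitsOf, wordOf, mem_filter, mem_univ, true_and]
  rw [finProdFinEquiv.symm_apply_apply]
  exact hi

/-- The two-party bound. -/
theorem TP_words (q : ℕ → ZMod 2) (a e s : ℕ)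
    (hker : ∀ A B : Finset (Fin b), Disjoint A B → A.card = a → B.card = a →
      (ker q (bitsOf w A) (bitsOf w B)).card ≤ 2 ^ e) (hs : e + 2 * s ≤ a * w) :
    TP (fun y : Fin b → Fin w → ZMod 2 => chi (quad q (flat y))) a ((1 / 2) ^ s) := by
  intro A B hAB hA hB g1 g2 h1 h2
  have key := two_party q (bitsOf w A) (bitsOf w B) (disjoint_bitsOf hAB)
    (fun z => g1 ((flatEquiv b w).symm z)) (fun z => g2 ((flatEquiv b w).symm z))
    (indep_bits h1) (indep_bits h2)
  have e1 : ∑ x, chi (quad q x) * (g1 ((flatEquiv b w).symm x) * g2 ((flatEquiv b w).symm x)) =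
      ∑ y : Fin b → Fin w → ZMod 2, chi (quad q (flat y)) * (g1 y * g2 y) := by
    rw [← (flatEquiv b w).sum_comp]
    refine sum_congr rfl fun y _ => ?_
    rw [Equiv.symm_apply_apply]
    rfl
  have e2 : ∀ g : (Fin b → Fin w → ZMod 2) → ℂ, ∑ x, ‖g ((flatEquiv b w).symm x)‖ ^ 2 =
      ∑ y, ‖g y‖ ^ 2 := by
    intro g
    exact (flatEquiv b w).symm.sum_comp (fun y => ‖g y‖ ^ 2)
  rw [e1, e2 g1, e2 g2, card_bitsOf, hA] at key
  have hk := hker A B hAB hA hB
  set X := ∑ x, ‖g1 x‖ ^ 2 with hX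
  set Y := ∑ x, ‖g2 x‖ ^ 2 with hY
  have hX0 : 0 ≤ X := sum_nonneg fun _ _ => by positivity
  have hY0 : 0 ≤ Y := sum_nonneg fun _ _ => by positivity
  have hk' : ((ker q (bitsOf w A) (bitsOf w B)).card : ℝ) / 2 ^ (a * w) ≤ ((1 / 2) ^ s) ^ 2 := by
    rw [div_le_iff₀ (by positivity)]
    calc ((ker q (bitsOf w A) (bitsOf w B)).card : ℝ) ≤ 2 ^ e := by exact_mod_cast hk
      _ ≤ 2 ^ (a * w - 2 * s) := pow_le_pow_right₀ (by norm_num) (by omega)
      _ = ((1 / 2) ^ s) ^ 2 * 2 ^ (a * w) := by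
        have : (2 : ℝ) ^ (a * w) = 2 ^ (2 * s) * 2 ^ (a * w - 2 * s) := by
          rw [← pow_add]; congr 1; omega
        rw [this, ← pow_mul, mul_comm s 2, ← mul_assoc, ← mul_pow]
        norm_num
  have h3 : ‖∑ y : Fin b → Fin w → ZMod 2, chi (quad q (flat y)) * (g1 y * g2 y)‖ ^ 2 ≤
      ((1 / 2) ^ s * ((X + Y) / 2)) ^ 2 := by
    rw [mul_pow]
    calc _ ≤ ((ker q (bitsOf w A) (bitsOf w B)).card : ℝ) / 2 ^ (a * w) * X * Y := key
      _ ≤ ((1 / 2) ^ s) ^ 2 * X * Y := by
        apply mul_le_mul_of_nonneg_right _ hY0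
        exact mul_le_mul_of_nonneg_right hk' hX0
      _ = ((1 / 2) ^ s) ^ 2 * (X * Y) := by ring
      _ ≤ _ := by
        apply mul_le_mul_of_nonneg_left _ (by positivity)
        nlinarith [sq_nonneg (X - Y)]
  exact (pow_le_pow_iff_left₀ (norm_nonneg _) (by positivity) (by norm_num)).1 h3

end

end Pool.Agent.H774R2.QSAT
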