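import Mathlib
import Pool.Agent.H774R2.QSAT.Theta
import Pool.Agent.H774R2.QSAT.Two

/-!
# The finite form of the theorem
-/

open Finset

namespace Pool.Agent.H774R2.QSAT

open Pool.Agent.H774R2.QTS (Jof chi quad ker chi_zero z2_cases)

section

variable {m b w B : ℕ}

/-- The formula of a sequence of blocks. -/
def form (g : Fin m → Option (Fin B × Fin b)) (cl : Fin m → (Fin w → ZMod 2) → Clause m)
    (x : Fin B → Fin b → Fin w → ZMod 2) : Fin m → Clause m :=
  fun j => cl j ((g j).elim 0 fun p => x p.1 p.2)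

/-- The word of block `i` occurring in a clause. -/
def loc (g : Fin m → Option (Fin B × Fin b)) (i : Fin B) : Fin m → Option (Fin b) :=
  fun j => (g j).bind fun p => if p.1 = i then some p.2 else none

lemma loc_iff (g : Fin m → Option (Fin B × Fin b)) (i : Fin B) (j : Fin m) (k : Fin b) :
    loc g i j = some k ↔ g j = some (i, k) := by
  unfold loc
  cases hg : g j with
  | none => simp
  | some p =>
    simp only [Option.bind_some, Option.some.injEq]
    split_ifs with h
    · simp only [Option.some.injEq]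
      constructor
      · intro h2; rw [← h, ← h2]
      · intro h2; rw [h2]
    · simp only [reduceCtorEq, false_iff]
      intro h2
      exact h (by rw [h2])

lemma form_local (g : Fin m → Option (Fin B × Fin b)) (cl : Fin m → (Fin w → ZMod 2) → Clause m)
    (x : Fin B → Fin b → Fin w → ZMod 2) (i : Fin B) (y y' : Fin b → Fin w → ZMod 2) (j : Fin m)
    (h : ∀ k, loc g i j = some k → y k = y' k) :
    form g cl (Function.update x i y) j = form g cl (Function.update x i y') j := by
  unfold form
  congr 1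
  cases hg : g j with
  | none => rfl
  | some p =>
    simp only [Option.elim_some]
    by_cases hp : p.1 = i
    · have := h p.2 ((loc_iff g i j p.2).2 (by rw [hg, ← hp]))
      rw [hp, Function.update_self, Function.update_self, this]
    · rw [Function.update_of_ne hp, Function.update_of_ne hp]

variable {D T : ℕ} (Q : Machine m (Clause m) D T)

/-- The total number of reads of all blocks. -/
lemma sum_reads (g : Fin m → Option (Fin B × Fin b)) (d r : ℕ)
    (h : Fin r → (Fin d → Fin (Q.M + 1))) :
    ∑ i : Fin B, ∑ k, (Jof (fun j : Fin r => Q.vset (loc g i) d j) h k).card ≤ r * d := by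
  classical
  set lo : Fin m → Option (Fin (B * b)) := fun j => (g j).map finProdFinEquiv with hlo
  have key := Q.jof_sum lo d r h
  have e : ∀ p : Fin B × Fin b, Jof (fun j : Fin r => Q.vset (loc g p.1) d j) h p.2 =
      Jof (fun j : Fin r => Q.vset lo d j) h (finProdFinEquiv p) := by
    intro p
    unfold Jof
    refine filter_congr fun j _ => ?_
    unfold Machine.vset
    rw [mem_filter, mem_filter]
    simp only [mem_univ, true_and]
    refine exists_congr fun s => exists_congr fun c => and_congr Iff.rfl ?_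
    rw [loc_iff, hlo]
    dsimp only
    constructor
    · intro h2; rw [h2]; rfl
    · intro h2
      rw [Option.map_eq_some_iff] at h2
      obtain ⟨a, ha, hab⟩ := h2
      rw [ha, finProdFinEquiv.injective hab]
  calc ∑ i : Fin B, ∑ k, (Jof (fun j : Fin r => Q.vset (loc g i) d j) h k).card
      = ∑ p : Fin B × Fin b, (Jof (fun j : Fin r => Q.vset (loc g p.1) d j) h p.2).card := by
        rw [Fintype.sum_prod_type]
    _ = ∑ p : Fin B × Fin b, (Jof (fun j : Fin r => Q.vset lo d j) h (finProdFinEquiv p)).card :=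
        sum_congr rfl fun p _ => by rw [e p]
    _ = ∑ v, (Jof (fun j : Fin r => Q.vset lo d j) h v).card :=
        finProdFinEquiv.sum_comp (fun v => (Jof (fun j : Fin r => Q.vset lo d j) h v).card)
    _ ≤ r * d := key

/-- Most blocks are good. -/
lemma sum_theta (hb : 1 ≤ b) (g : Fin m → Option (Fin B × Fin b))
    (d r a K H : ℕ) (hK : 1 ≤ K) (hH : 1 ≤ H) (hrd : H * (r * d) ≤ K * b * B)
    (hdb : 64 * K * H * 4 ^ K * d ≤ b) (ha : 4 * 4 ^ K * a ≤ b)
    (h : Fin r → (Fin d → Fin (Q.M + 1))) :
    (1 - 2 / (H : ℝ)) * B ≤ ∑ i : Fin B, Q.theta (loc g i) d r a h := by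
  classical
  obtain ⟨u, hu⟩ : ∃ u : Fin B → ℕ, ∀ i, u i =
    ∑ k, (Jof (fun j : Fin r => Q.vset (loc g i) d j) h k).card := ⟨_, fun i => rfl⟩
  have hsum : ∑ i, u i ≤ r * d := by
    rw [sum_congr rfl fun i _ => hu i]
    exact sum_reads Q g d r h
  have hH0 : (0 : ℝ) < H := by exact_mod_cast hH
  have hb0 : (0 : ℝ) < b := by exact_mod_cast hb
  have hK0 : (0 : ℝ) < K := by exact_mod_cast hK
  have h1 : ∀ i, (1 - 1 / (H : ℝ)) - (u i : ℝ) / (K * b) ≤ Q.theta (loc g i) d r a h := by
    intro i
    by_cases hi : u i ≤ K * b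
    · have := Q.theta_ge (loc g i) d r a K H hb hK hH h (by rw [← hu i]; exact hi) hdb ha
      have h2 : (0 : ℝ) ≤ (u i : ℝ) / (K * b) := by positivity
      linarith
    · rw [not_le] at hi
      have h2 : (1 : ℝ) ≤ (u i : ℝ) / (K * b) := by
        rw [le_div_iff₀ (by positivity), one_mul]
        exact_mod_cast hi.le
      have h3 := Q.theta_nonneg (loc g i) d r a h
      have h4 : (0 : ℝ) ≤ 1 / H := by positivity
      linarith
  have h2 : ∑ i : Fin B, ((1 - 1 / (H : ℝ)) - (u i : ℝ) / (K * b)) ≤
      ∑ i : Fin B, Q.theta (loc g i) d r a h := sum_le_sum fun i _ => h1 i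
  rw [sum_sub_distrib, sum_const, card_univ, Fintype.card_fin, nsmul_eq_mul, ← sum_div] at h2
  have h3 : (∑ i, (u i : ℝ)) / (K * b) ≤ B / H := by
    rw [div_le_div_iff₀ (by positivity) hH0]
    have e1 : (H : ℝ) * (∑ i, (u i : ℝ)) ≤ H * (r * d) := by
      apply mul_le_mul_of_nonneg_left _ hH0.le
      exact_mod_cast hsum
    have e2 : (H : ℝ) * (r * d) ≤ K * b * B := by exact_mod_cast hrd
    linarith
  have h4 : (1 - 2 / (H : ℝ)) * B = B * (1 - 1 / H) - B / H := by ring
  rw [h4]
  linarith

end

/-! ### Double counting -/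

lemma sum_update {ι Y : Type} [Fintype ι] [DecidableEq ι] [Fintype Y] [DecidableEq Y]
    (Z : Finset Y) (i : ι) (G : (ι → Y) → ℝ) :
    ∑ x ∈ Fintype.piFinset (fun _ : ι => Z), ∑ y ∈ Z, G (Function.update x i y) =
      Z.card * ∑ x ∈ Fintype.piFinset (fun _ : ι => Z), G x := by
  rw [← sum_product', ← nsmul_eq_mul, ← sum_const, sum_comm, ← sum_product']
  refine sum_nbij' (fun p => (Function.update p.1 i p.2, p.1 i))
    (fun p => (Function.update p.1 i p.2, p.1 i)) ?_ ?_ ?_ ?_ ?_
  · rintro ⟨x, y⟩ hp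
    rw [mem_product, Fintype.mem_piFinset] at hp
    rw [mem_product, Fintype.mem_piFinset]
    refine ⟨fun j => ?_, hp.1 i⟩
    by_cases hj : j = i
    · subst hj; simpa using hp.2
    · simpa [hj] using hp.1 j
  · rintro ⟨x, y⟩ hp
    rw [mem_product, Fintype.mem_piFinset] at hp
    rw [mem_product, Fintype.mem_piFinset]
    refine ⟨fun j => ?_, hp.1 i⟩
    by_cases hj : j = i
    · subst hj; simpa using hp.2
    · simpa [hj] using hp.1 j
  · rintro ⟨x, y⟩ _
    simp
  · rintro ⟨x, y⟩ _
    simp
  · rintro ⟨x, y⟩ _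
    rfl

end Pool.Agent.H774R2.QSAT
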