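import Mathlib
import Pool.Agent.H774R2.QSAT.Finite

/-!
# The main inequality
-/

open Finset

namespace Pool.Agent.H774R2.QSAT

open Pool.Agent.H774R2.QTS (Jof chi quad ker chi_zero z2_cases)

section

variable {m b w B D T : ℕ}

lemma sum_chi_split (q : ℕ → ZMod 2) (G : (Fin b → Fin w → ZMod 2) → ℝ) :
    ∑ y, chi (quad q (flat y)) * (G y : ℂ) =
      ((∑ y ∈ univ.filter (fun y : Fin b → Fin w → ZMod 2 => quad q (flat y) = 0), G y -
        ∑ y ∈ univ.filter (fun y : Fin b → Fin w → ZMod 2 => ¬ quad q (flat y) = 0), G y : ℝ) : ℂ) := by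
  rw [← sum_filter_add_sum_filter_not univ
    (fun y : Fin b → Fin w → ZMod 2 => quad q (flat y) = 0)
    (fun y => chi (quad q (flat y)) * (G y : ℂ))]
  push_cast
  rw [sub_eq_add_neg, ← sum_neg_distrib]
  congr 1
  · refine sum_congr rfl fun y hy => ?_
    rw [mem_filter] at hy
    rw [hy.2, chi_zero, one_mul]
  · refine sum_congr rfl fun y hy => ?_
    rw [mem_filter] at hy
    unfold chi
    rw [if_neg hy.2]
    ring

/-- The main inequality. -/
theorem finite_main (Q : Machine m (Clause m) D T) (hQ : Q.Valid) (δ : ℝ) (hδ : 0 < δ)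
    (hδ' : δ ≤ 1 / 2) (hf : Q.Decides δ Sat) (hb : 1 ≤ b) (hB : 1 ≤ B) (q : ℕ → ZMod 2)
    (g : Fin m → Option (Fin B × Fin b)) (cl : Fin m → (Fin w → ZMod 2) → Clause m)
    (hg : ∀ p, ∃ j, g j = some p)
    (henc : ∀ x, Sat (form g cl x) ↔ ∃ i, quad q (flat (x i)) = 1)
    (a : ℕ) (κ : ℝ) (hκ : 0 ≤ κ)
    (hTP : TP (fun y : Fin b → Fin w → ZMod 2 => chi (quad q (flat y))) a κ) (h2a : 2 * a ≤ b)
    (K d H r : ℕ) (hK : 1 ≤ K) (hH : 1 ≤ H) (hr : T + m ≤ r * d) (hrd : H * (r * d) ≤ K * b * B)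
    (hdb : 64 * K * H * 4 ^ K * d ≤ b) (ha : 4 * 4 ^ K * a ≤ b) (hHδ : 2 / δ ≤ H) :
    δ ≤ 4 * ((D : ℝ) ^ (2 * (r + 1)) * (κ * (b.choose a : ℝ))) := by
  classical
  obtain ⟨n, hn⟩ : ∃ n : ℝ, n = (Fintype.card (Fin w → ZMod 2) : ℝ) ^ b := ⟨_, rfl⟩
  have hn0 : 0 < n := by
    rw [hn]
    have : 0 < Fintype.card (Fin w → ZMod 2) := Fintype.card_pos
    positivity
  set Z := univ.filter (fun y : Fin b → Fin w → ZMod 2 => quad q (flat y) = 0) with hZ
  set O := univ.filter (fun y : Fin b → Fin w → ZMod 2 => ¬ quad q (flat y) = 0) with hO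
  have hZO : (Z.card : ℝ) + O.card = n := by
    have h1 := card_filter_add_card_filter_not (s := (univ : Finset (Fin b → Fin w → ZMod 2)))
      (fun y => quad q (flat y) = 0)
    rw [card_univ, Fintype.card_fun, Fintype.card_fin] at h1
    rw [hn]
    exact_mod_cast h1
  have hZ0 : (0 : ℝ) < Z.card := by
    have : Z.Nonempty := by
      refine ⟨0, ?_⟩
      rw [hZ, mem_filter]
      refine ⟨mem_univ _, ?_⟩
      unfold quad
      refine sum_eq_zero fun i _ => sum_eq_zero fun j _ => ?_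
      split_ifs
      · simp [flat]
      · rfl
    exact_mod_cast this.card_pos
  have hB0 : (0 : ℝ) < B := by exact_mod_cast hB
  have hH0 : (0 : ℝ) < H := by exact_mod_cast hH
  obtain ⟨ε, hε⟩ : ∃ ε : ℝ, ε = (D : ℝ) ^ (2 * (r + 1)) * (κ * (b.choose a : ℝ) * n) := ⟨_, rfl⟩
  have hcov : ∀ (i : Fin B) (h : Fin r → (Fin d → Fin (Q.M + 1))) (k : Fin b),
      (Jof (fun j : Fin r => Q.vset (loc g i) d j) h k).Nonempty := by
    intro i h k
    refine Q.jof_nonempty (loc g i) (fun k => ?_) d r hr h k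
    obtain ⟨j, hj⟩ := hg (i, k)
    exact ⟨j, (loc_iff g i j k).2 hj⟩
  obtain ⟨R, hR⟩ : ∃ R : Fin B → (Fin B → Fin b → Fin w → ZMod 2) → ℝ, ∀ i x, R i x =
      ∑ h : Fin r → (Fin d → Fin (Q.M + 1)), Q.pr Q.yesᶜ d r (form g cl x) h *
        Q.theta (loc g i) d r a h := ⟨_, fun _ _ => rfl⟩
  have hTr : T ≤ r * d := by omega
  have hR1 : ∀ i x, R i x ≤ Q.prob Q.yesᶜ (form g cl x) := by
    intro i x
    rw [hR, Q.prob_eq Q.yesᶜ d r hTr]
    refine sum_le_sum fun h _ => ?_
    exact mul_le_of_le_one_right (Q.pr_nonneg _ d r _ h) (Q.theta_le (loc g i) d r a h)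
  have hR2 : ∀ x, (1 - 2 / (H : ℝ)) * B * Q.prob Q.yesᶜ (form g cl x) ≤ ∑ i, R i x := by
    intro x
    rw [Q.prob_eq Q.yesᶜ d r hTr, mul_sum]
    rw [sum_congr rfl fun i _ => hR i x, sum_comm]
    refine sum_le_sum fun h _ => ?_
    rw [← mul_sum, mul_comm]
    exact mul_le_mul_of_nonneg_left (sum_theta Q hb g d r a K H hK hH hrd hdb ha h)
      (Q.pr_nonneg _ d r _ h)
  have hcorr : ∀ i x, ∑ y ∈ Z, R i (Function.update x i y) ≤
      ∑ y ∈ O, R i (Function.update x i y) + ε := by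
    intro i x
    have h1 := Q.corr_bound hQ Q.yesᶜ (loc g i) (fun y => form g cl (Function.update x i y))
      (fun y y' j h => form_local g cl x i y y' j h) d r (hcov i)
      (fun y => chi (quad q (flat y))) a κ hκ hTP
    have h2 : ∀ y, (∑ h : Fin r → (Fin d → Fin (Q.M + 1)),
        Q.pr Q.yesᶜ d r (form g cl (Function.update x i y)) h * Q.theta (loc g i) d r a h) =
        R i (Function.update x i y) := fun y => (hR i _).symm
    simp only [h2] at h1
    rw [sum_chi_split q (fun y => R i (Function.update x i y)), Complex.norm_real,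
      Real.norm_eq_abs, ← hn, ← hε] at h1
    have h3 := le_abs_self (∑ y ∈ Z, R i (Function.update x i y) -
      ∑ y ∈ O, R i (Function.update x i y))
    linarith
  -- unsatisfiable and satisfiable inputs
  have hunsat : ∀ x ∈ Fintype.piFinset (fun _ : Fin B => Z),
      1 / 2 + δ ≤ Q.prob Q.yesᶜ (form g cl x) := by
    intro x hx
    apply (hf _).2
    rw [henc]
    rintro ⟨i, hi⟩
    rw [Fintype.mem_piFinset] at hx
    have := hx i
    rw [hZ, mem_filter] at this
    rw [this.2] at hi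
    exact zero_ne_one hi
  have hsat : ∀ i x, ∀ y ∈ O, Q.prob Q.yesᶜ (form g cl (Function.update x i y)) ≤ 1 / 2 - δ := by
    intro i x y hy
    have h1 := (hf (form g cl (Function.update x i y))).1 (by
      rw [henc]
      refine ⟨i, ?_⟩
      rw [Function.update_self]
      rw [hO, mem_filter] at hy
      exact (z2_cases _).resolve_left hy.2)
    have h2 := Q.prob_compl hQ (form g cl (Function.update x i y))
    linarith
  -- double counting
  set PB := Fintype.piFinset (fun _ : Fin B => Z) with hPB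
  have hPBc : (PB.card : ℝ) = (Z.card : ℝ) ^ B := by
    rw [hPB, Fintype.card_piFinset_const]
    push_cast
    rfl
  have hPB0 : (0 : ℝ) < PB.card := by rw [hPBc]; positivity
  have hlow : (PB.card : ℝ) * ((1 - 2 / (H : ℝ)) * B * (1 / 2 + δ)) ≤ ∑ x ∈ PB, ∑ i, R i x := by
    rw [← nsmul_eq_mul, ← sum_const]
    refine sum_le_sum fun x hx => le_trans ?_ (hR2 x)
    apply mul_le_mul_of_nonneg_left (hunsat x hx)
    apply mul_nonneg _ hB0.le
    have : 2 / (H : ℝ) ≤ δ := by
      rw [div_le_iff₀ hH0]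
      rw [div_le_iff₀ hδ] at hHδ
      linarith
    linarith
  have hupp : (Z.card : ℝ) * ∑ x ∈ PB, ∑ i, R i x ≤
      B * (PB.card * (O.card * (1 / 2 - δ) + ε)) := by
    rw [sum_comm, mul_sum]
    calc ∑ i, (Z.card : ℝ) * ∑ x ∈ PB, R i x
        = ∑ i, ∑ x ∈ PB, ∑ y ∈ Z, R i (Function.update x i y) :=
          sum_congr rfl fun i _ => (sum_update Z i (R i)).symm
      _ ≤ ∑ _i : Fin B, ∑ _x ∈ PB, ((O.card : ℝ) * (1 / 2 - δ) + ε) := by
          refine sum_le_sum fun i _ => sum_le_sum fun x _ => (hcorr i x).trans ?_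
          have : ∑ y ∈ O, R i (Function.update x i y) ≤ ∑ _y ∈ O, (1 / 2 - δ) :=
            sum_le_sum fun y hy => (hR1 i _).trans (hsat i x y hy)
          rw [sum_const, nsmul_eq_mul] at this
          linarith
      _ = _ := by
          rw [sum_const, sum_const, card_univ, Fintype.card_fin, nsmul_eq_mul, nsmul_eq_mul]
  have h1 : (Z.card : ℝ) * ((1 - 2 / (H : ℝ)) * (1 / 2 + δ)) ≤ O.card * (1 / 2 - δ) + ε := by
    have h2 : (B * PB.card : ℝ) * ((Z.card : ℝ) * ((1 - 2 / (H : ℝ)) * (1 / 2 + δ))) ≤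
        (B * PB.card : ℝ) * (O.card * (1 / 2 - δ) + ε) := by
      calc _ = (Z.card : ℝ) * ((PB.card : ℝ) * ((1 - 2 / (H : ℝ)) * B * (1 / 2 + δ))) := by ring
        _ ≤ (Z.card : ℝ) * ∑ x ∈ PB, ∑ i, R i x := mul_le_mul_of_nonneg_left hlow hZ0.le
        _ ≤ B * (PB.card * (O.card * (1 / 2 - δ) + ε)) := hupp
        _ = _ := by ring
    exact le_of_mul_le_mul_left h2 (by positivity)
  -- the two classes have almost the same size
  have hbal : (O.card : ℝ) - Z.card ≤ κ * n := by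
    obtain ⟨A, hA, hAc⟩ := exists_subset_card_eq (s := (univ : Finset (Fin b)))
      (show a ≤ (univ : Finset (Fin b)).card by rw [card_univ, Fintype.card_fin]; omega)
    obtain ⟨A', hA', hAc'⟩ := exists_subset_card_eq (s := Aᶜ) (show a ≤ Aᶜ.card by
      rw [card_compl, Fintype.card_fin, hAc]; omega)
    have hd : Disjoint A A' := disjoint_of_subset_right hA' disjoint_compl_right
    have h2 := hTP A A' hd hAc hAc' (fun _ => 1) (fun _ => 1) (fun _ _ _ => rfl) (fun _ _ _ => rfl)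
    have h3 := sum_chi_split q (fun _ : Fin b → Fin w → ZMod 2 => (1 : ℝ))
    have h4 : ∑ y : Fin b → Fin w → ZMod 2, chi (quad q (flat y)) * ((1 : ℂ) * 1) =
        (((Z.card : ℝ) - O.card : ℝ) : ℂ) := by
      calc _ = ∑ y : Fin b → Fin w → ZMod 2, chi (quad q (flat y)) * ((1 : ℝ) : ℂ) := by
            refine sum_congr rfl fun y _ => ?_
            push_cast; ring
        _ = _ := by
            rw [h3]
            simp only [sum_const, nsmul_eq_mul, mul_one]
            rfl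
    rw [h4, Complex.norm_real, Real.norm_eq_abs] at h2
    have h5 : ∑ _x : Fin b → Fin w → ZMod 2, ‖(1 : ℂ)‖ ^ 2 = n := by
      rw [hn]
      simp [card_univ, Fintype.card_fun]
    rw [h5] at h2
    have h6 := neg_le_abs ((Z.card : ℝ) - O.card)
    have h7 : κ * ((n + n) / 2) = κ * n := by ring
    linarith
  -- conclusion
  have hD : (1 : ℝ) ≤ D := by
    have : 0 < D := Nat.pos_of_ne_zero fun h => by
      have := Q.init
      rw [h] at this
      exact this.elim0
    exact_mod_cast this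
  have hκε : κ * n ≤ ε := by
    rw [hε]
    have c1 : (1 : ℝ) ≤ (D : ℝ) ^ (2 * (r + 1)) := one_le_pow₀ hD
    have c2 : (1 : ℝ) ≤ (b.choose a : ℝ) := by
      exact_mod_cast Nat.choose_pos (show a ≤ b by omega)
    calc κ * n = 1 * (κ * 1 * n) := by ring
      _ ≤ (D : ℝ) ^ (2 * (r + 1)) * (κ * (b.choose a : ℝ) * n) := by
        apply mul_le_mul c1 _ (by positivity) (by positivity)
        apply mul_le_mul_of_nonneg_right _ hn0.le
        exact mul_le_mul_of_nonneg_left c2 hκ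
  have hHδ2 : 2 / (H : ℝ) ≤ δ := by
    rw [div_le_iff₀ hH0]
    rw [div_le_iff₀ hδ] at hHδ
    linarith
  have hZn : (Z.card : ℝ) ≤ n := by
    have : (0 : ℝ) ≤ O.card := Nat.cast_nonneg _
    linarith
  have h2 : δ * Z.card ≤ κ * n / 2 + ε := by
    have e1 : (Z.card : ℝ) * ((1 - δ) * (1 / 2 + δ)) ≤
        (Z.card : ℝ) * ((1 - 2 / (H : ℝ)) * (1 / 2 + δ)) := by
      apply mul_le_mul_of_nonneg_left _ hZ0.le
      exact mul_le_mul_of_nonneg_right (by linarith) (by linarith)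
    have e2 : (O.card : ℝ) * (1 / 2 - δ) ≤ (Z.card + κ * n) * (1 / 2 - δ) := by
      apply mul_le_mul_of_nonneg_right _ (by linarith)
      linarith
    have e3 : κ * n * (1 / 2 - δ) ≤ κ * n * (1 / 2) := by
      apply mul_le_mul_of_nonneg_left (by linarith) (by positivity)
    -- (1-δ)(1/2+δ) - (1/2-δ) = 3δ/2 - δ²  ≥ δ
    have e4 : δ * Z.card ≤ (Z.card : ℝ) * ((1 - δ) * (1 / 2 + δ)) - Z.card * (1 / 2 - δ) := by
      have : (Z.card : ℝ) * ((1 - δ) * (1 / 2 + δ)) - Z.card * (1 / 2 - δ) - δ * Z.card =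
          Z.card * (δ * (1 / 2 - δ)) := by ring
      have h5 : 0 ≤ (Z.card : ℝ) * (δ * (1 / 2 - δ)) :=
        mul_nonneg hZ0.le (mul_nonneg hδ.le (by linarith))
      linarith
    linarith
  have h3 : δ * n ≤ 4 * ε := by
    have e1 : n ≤ 2 * Z.card + κ * n := by linarith
    have e2 : δ * n ≤ δ * (2 * Z.card + κ * n) := mul_le_mul_of_nonneg_left e1 hδ.le
    have e3 : δ * (κ * n) ≤ 1 * (κ * n) :=
      mul_le_mul_of_nonneg_right (by linarith) (by positivity)
    have e4 : δ * (2 * Z.card + κ * n) = 2 * (δ * Z.card) + δ * (κ * n) := by ring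
    linarith
  have h4 : δ * n ≤ (4 * ((D : ℝ) ^ (2 * (r + 1)) * (κ * (b.choose a : ℝ)))) * n := by
    calc δ * n ≤ 4 * ε := h3
      _ = _ := by rw [hε]; ring
  exact le_of_mul_le_mul_right h4 hn0

end

end Pool.Agent.H774R2.QSAT
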