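import Mathlib
import Pool.Agent.H774R2.QTS.Defs
import Pool.Agent.H774R2.QSAT.Defs
import Pool.Agent.H774R2.QSAT.WDefs

/-!
Task KER: random blocks on a sparse graph; all kernels are small.
-/

open Finset

namespace Pool.Agent.H774R2.QSAT.Ker

open Pool.Agent.H774R2.QTS (quad ker idx)

theorem choose_le (n m lam : ℕ) (hm : 1 ≤ m) (h : 4 * n ≤ m * 2 ^ lam) :
    n.choose m ≤ 2 ^ (lam * m) := by
  have h1 : (n.choose m : ℝ) ≤ (n : ℝ) ^ m / m.factorial := Nat.choose_le_pow_div m n
  have h2 : (m : ℝ) ^ m / m.factorial ≤ Real.exp m := Real.pow_div_factorial_le_exp m (by positivity) m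
  have hm0 : (0 : ℝ) < m := by exact_mod_cast hm
  have hf : (0 : ℝ) < m.factorial := by exact_mod_cast Nat.factorial_pos m
  have h3 : (n : ℝ) / m * 4 ≤ 2 ^ lam := by
    rw [div_mul_eq_mul_div, div_le_iff₀ hm0]
    have : ((4 * n : ℕ) : ℝ) ≤ ((m * 2 ^ lam : ℕ) : ℝ) := by exact_mod_cast h
    push_cast at this
    linarith
  have h4 : (n : ℝ) ^ m / m.factorial ≤ ((n : ℝ) / m * 4) ^ m := by
    have e1 : (n : ℝ) ^ m / m.factorial = ((n : ℝ) / m) ^ m * ((m : ℝ) ^ m / m.factorial) := by
      rw [div_pow]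
      field_simp
    rw [e1, mul_pow]
    apply mul_le_mul_of_nonneg_left _ (by positivity)
    refine h2.trans ?_
    have e2 : Real.exp m = Real.exp 1 ^ m := by
      rw [← Real.exp_nat_mul]; simp
    rw [e2]
    apply pow_le_pow_left₀ (Real.exp_pos _).le
    have := Real.exp_one_lt_d9
    linarith
  have h5 : ((n.choose m : ℕ) : ℝ) ≤ ((2 ^ (lam * m) : ℕ) : ℝ) := by
    push_cast
    calc (n.choose m : ℝ) ≤ ((n : ℝ) / m * 4) ^ m := h1.trans h4
      _ ≤ (2 ^ lam) ^ m := pow_le_pow_left₀ (by positivity) h3 m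
      _ = 2 ^ (lam * m) := by rw [← pow_mul]
  exact_mod_cast h5

/-- Counting solutions of independent linear equations. -/
theorem card_mul_le {X I : Type} [Fintype X] [DecidableEq X] [Fintype I] [DecidableEq I]
    (L : (X → ZMod 2) → I → ZMod 2) (hadd : ∀ r r', L (r + r') = L r + L r')
    (hs : ∀ s, ∃ r, L r = s) :
    (univ.filter fun r : X → ZMod 2 => L r = 0).card * 2 ^ Fintype.card I ≤
      2 ^ Fintype.card X := by
  choose σ hσ using hs
  have h1 : ((univ.filter fun r : X → ZMod 2 => L r = 0) ×ˢ (univ : Finset (I → ZMod 2))).card ≤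
      (univ : Finset (X → ZMod 2)).card := by
    apply Finset.card_le_card_of_injOn (fun p => p.1 + σ p.2)
    · intro p _
      exact mem_coe.2 (mem_univ _)
    · intro p hp p' hp' h
      simp only [coe_product, coe_filter, mem_univ, true_and, coe_univ, Set.mem_prod,
        Set.mem_ofPred_eq, Set.mem_univ, and_true] at hp hp'
      have h2 : L (p.1 + σ p.2) = L (p'.1 + σ p'.2) := congrArg L h
      rw [hadd, hadd, hp, hp', hσ, hσ, zero_add, zero_add] at h2
      have h3 : p.1 + σ p.2 = p'.1 + σ p'.2 := h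
      rw [h2] at h3
      exact Prod.ext (add_right_cancel h3) h2
  rw [card_product] at h1
  simpa [ZMod.card] using h1

/-- The number of vectors supported on a set. -/
theorem card_supp {n : ℕ} (S : Finset (Fin n)) :
    (univ.filter fun y : Fin n → ZMod 2 => ∀ i, i ∉ S → y i = 0).card ≤ 2 ^ S.card := by
  have h1 : (univ.filter fun y : Fin n → ZMod 2 => ∀ i, i ∉ S → y i = 0).card ≤
      (univ : Finset (S → ZMod 2)).card := by
    apply Finset.card_le_card_of_injOn (fun y => fun i : S => y i)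
    · intro p _
      exact mem_coe.2 (mem_univ _)
    · intro y hy y' hy' h
      simp only [coe_filter, mem_univ, true_and, Set.mem_ofPred_eq] at hy hy'
      funext i
      by_cases hi : i ∈ S
      · exact congrFun h ⟨i, hi⟩
      · rw [hy i hi, hy' i hi]
  simpa [ZMod.card] using h1

variable {b w : ℕ}

theorem card_bitsOf (A : Finset (Fin b)) : (bitsOf w A).card = A.card * w := by
  have : bitsOf w A = (A ×ˢ (univ : Finset (Fin w))).map finProdFinEquiv.toEmbedding := by
    ext i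
    simp only [bitsOf, wordOf, mem_filter, mem_univ, true_and, mem_map_equiv, mem_product, and_true]
  rw [this, card_map, card_product, card_univ, Fintype.card_fin]

theorem wordOf_val (i : Fin (b * w)) : (wordOf i).val = i.val / w := by
  rfl

theorem wordOf_mono {i j : Fin (b * w)} (h : i ≤ j) : wordOf i ≤ wordOf j := by
  rw [Fin.le_def, wordOf_val, wordOf_val]
  exact Nat.div_le_div_right h

/-- The adjacency relation. -/
def adj (E : Finset (Fin b × Fin b)) (i j : Fin b) : Prop := (i, j) ∈ E ∨ (j, i) ∈ E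

instance (E : Finset (Fin b × Fin b)) (i j : Fin b) : Decidable (adj E i j) := by
  unfold adj; infer_instance

/-- The coefficients. -/
def qr (E : Finset (Fin b × Fin b)) (r : Fin (b * w) × Fin (b * w) → ZMod 2) (t : ℕ) : ZMod 2 :=
  if h : t / (b * w) < b * w then
    (if (⟨t / (b * w), h⟩ : Fin (b * w)) < ⟨t % (b * w), Nat.mod_lt _ (lt_of_le_of_lt (Nat.zero_le _) h)⟩ ∧
      (wordOf ⟨t / (b * w), h⟩, wordOf ⟨t % (b * w), Nat.mod_lt _ (lt_of_le_of_lt (Nat.zero_le _) h)⟩) ∈ E then
      r (⟨t / (b * w), h⟩, ⟨t % (b * w), Nat.mod_lt _ (lt_of_le_of_lt (Nat.zero_le _) h)⟩) else 0)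
  else 0

theorem qr_apply (E : Finset (Fin b × Fin b)) (r : Fin (b * w) × Fin (b * w) → ZMod 2)
    (i j : Fin (b * w)) : qr E r (i.val * (b * w) + j.val) =
      if i < j ∧ (wordOf i, wordOf j) ∈ E then r (i, j) else 0 := by
  have h0 : 0 < b * w := lt_of_le_of_lt (Nat.zero_le _) i.isLt
  have h1 : (i.val * (b * w) + j.val) / (b * w) = i.val := by
    rw [mul_comm, Nat.mul_add_div h0, Nat.div_eq_of_lt j.isLt, add_zero]
  have h2 : (i.val * (b * w) + j.val) % (b * w) = j.val := by
    rw [mul_comm, Nat.mul_add_mod, Nat.mod_eq_of_lt j.isLt]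
  unfold qr
  have h3 : (i.val * (b * w) + j.val) / (b * w) < b * w := by rw [h1]; exact i.isLt
  rw [dif_pos h3]
  have h4 : (⟨(i.val * (b * w) + j.val) / (b * w), h3⟩ : Fin (b * w)) = i := Fin.ext h1
  have h5 : (⟨(i.val * (b * w) + j.val) % (b * w), Nat.mod_lt _ h0⟩ : Fin (b * w)) = j :=
    Fin.ext h2
  rw [h4, h5]

theorem qr_add (E : Finset (Fin b × Fin b)) (r r' : Fin (b * w) × Fin (b * w) → ZMod 2) (t : ℕ) :
    qr E (r + r') t = qr E r t + qr E r' t := by
  unfold qr
  split_ifs <;> simp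

theorem nz_card (E : Finset (Fin b × Fin b)) (r : Fin (b * w) × Fin (b * w) → ZMod 2) :
    (nz (b * w) (qr E r)).card ≤ E.card * w ^ 2 := by
  have h1 : (nz (b * w) (qr E r)).card ≤
      (E ×ˢ (univ : Finset (Fin w × Fin w))).card := by
    apply Finset.card_le_card_of_injOn (fun p => ((wordOf p.1, wordOf p.2),
      ((finProdFinEquiv.symm p.1).2, (finProdFinEquiv.symm p.2).2)))
    · intro p hp
      simp only [nz, coe_filter, mem_univ, true_and, Set.mem_ofPred_eq, ne_eq] at hp
      rw [qr_apply] at hp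
      have h2 : (wordOf p.1, wordOf p.2) ∈ E := by
        by_contra h
        apply hp.2
        rw [if_neg]
        exact fun h' => h h'.2
      simpa using h2
    · intro p _ p' _ h
      simp only [Prod.mk.injEq, wordOf] at h
      apply Prod.ext
      · apply finProdFinEquiv.symm.injective
        exact Prod.ext h.1.1 h.2.1
      · apply finProdFinEquiv.symm.injective
        exact Prod.ext h.1.2 h.2.2
  simpa [card_product, pow_two] using h1

theorem qr_idx (E : Finset (Fin b × Fin b)) (hE0 : ∀ p ∈ E, p.1 < p.2)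
    (r : Fin (b * w) × Fin (b * w) → ZMod 2) (α β : Fin (b * w))
    (h : wordOf α ≠ wordOf β) :
    qr E r (idx (b * w) α β) =
      if adj E (wordOf α) (wordOf β) then r (min α β, max α β) else 0 := by
  have hne : α ≠ β := fun h' => h (by rw [h'])
  rcases lt_or_gt_of_ne hne with hlt | hlt
  · have h1 : idx (b * w) α β = α.val * (b * w) + β.val := by
      unfold idx
      rw [min_eq_left (Fin.lt_def.1 hlt).le, max_eq_right (Fin.lt_def.1 hlt).le]
    rw [h1, qr_apply, min_eq_left hlt.le, max_eq_right hlt.le]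
    have hw := wordOf_mono hlt.le
    apply if_congr _ rfl rfl
    constructor
    · rintro ⟨_, h2⟩
      exact Or.inl h2
    · rintro (h2 | h2)
      · exact ⟨hlt, h2⟩
      · exact absurd (hE0 _ h2) (not_lt.2 hw)
  · have h1 : idx (b * w) α β = β.val * (b * w) + α.val := by
      unfold idx
      rw [min_eq_right (Fin.lt_def.1 hlt).le, max_eq_left (Fin.lt_def.1 hlt).le]
    rw [h1, qr_apply, min_eq_right hlt.le, max_eq_left hlt.le]
    have hw := wordOf_mono hlt.le
    apply if_congr _ rfl rfl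
    constructor
    · rintro ⟨_, h2⟩
      exact Or.inr h2
    · rintro (h2 | h2)
      · exact absurd (hE0 _ h2) (not_lt.2 hw)
      · exact ⟨hlt, h2⟩

/-- The words in the support of `y`. -/
def sw (A : Finset (Fin b)) (y : Fin (b * w) → ZMod 2) : Finset (Fin b) :=
  A.filter fun i => ∃ α, wordOf α = i ∧ y α ≠ 0

/-- The neighbours of `U` in `B`. -/
def nb (E : Finset (Fin b × Fin b)) (U B : Finset (Fin b)) : Finset (Fin b) :=
  B.filter fun j => ∃ i ∈ U, adj E i j

theorem zmod2_ne {z : ZMod 2} (h : z ≠ 0) : z = 1 := by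
  revert z; decide

theorem claim1 (E : Finset (Fin b × Fin b)) (hE0 : ∀ p ∈ E, p.1 < p.2)
    (A B : Finset (Fin b)) (hAB : Disjoint A B) (y : Fin (b * w) → ZMod 2) :
    (univ.filter fun r : Fin (b * w) × Fin (b * w) → ZMod 2 =>
      ∀ β ∈ bitsOf w B, ∑ α ∈ bitsOf w A, y α * qr E r (idx (b * w) α β) = 0).card *
        2 ^ ((nb E (sw A y) B).card * w) ≤ 2 ^ ((b * w) * (b * w)) := by
  set N := nb E (sw A y) B with hN
  have hNB : ∀ {j}, j ∈ N → j ∈ B := fun h => (mem_filter.1 h).1
  have hpiv : ∀ β : Fin (b * w), ∃ α : Fin (b * w), wordOf β ∈ N →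
      α ∈ bitsOf w A ∧ y α = 1 ∧ adj E (wordOf α) (wordOf β) := by
    intro β
    by_cases hβ : wordOf β ∈ N
    · obtain ⟨_, i, hi, hadj⟩ := mem_filter.1 hβ
      obtain ⟨hiA, α, hα, hyα⟩ := mem_filter.1 hi
      refine ⟨α, fun _ => ⟨?_, zmod2_ne hyα, ?_⟩⟩
      · simp only [bitsOf, mem_filter, mem_univ, true_and, hα, hiA]
      · rw [hα]; exact hadj
    · exact ⟨β, fun h => absurd h hβ⟩
  choose a ha using hpiv
  have hcard : Fintype.card {β : Fin (b * w) // β ∈ bitsOf w N} = N.card * w := by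
    rw [Fintype.card_coe, card_bitsOf]
  have hX : Fintype.card (Fin (b * w) × Fin (b * w)) = (b * w) * (b * w) := by simp
  have hA : ∀ {α : Fin (b * w)}, α ∈ bitsOf w A → wordOf α ∈ A := fun h => by
    simpa [bitsOf] using h
  have hAN : ∀ {α : Fin (b * w)}, α ∈ bitsOf w A → wordOf α ∉ N := fun h h' =>
    Finset.disjoint_left.1 hAB (hA h) (hNB h')
  have key := card_mul_le (X := Fin (b * w) × Fin (b * w))
    (I := {β : Fin (b * w) // β ∈ bitsOf w N})
    (fun r β => ∑ α ∈ bitsOf w A, y α * qr E r (idx (b * w) α β.1)) ?_ ?_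
  · rw [hcard, hX] at key
    refine le_trans (Nat.mul_le_mul_right _ (card_le_card ?_)) key
    intro r hr
    simp only [mem_filter, mem_univ, true_and] at hr ⊢
    funext β
    apply hr
    have := β.2
    simp only [bitsOf, mem_filter, mem_univ, true_and] at this ⊢
    exact hNB this
  · intro r r'
    funext β
    simp only [qr_add, mul_add, sum_add_distrib, Pi.add_apply]
  · intro s
    refine ⟨fun p => if h : p.2 ∈ bitsOf w N ∧ p.1 = a p.2 then s ⟨p.2, h.1⟩ else
      if h : p.1 ∈ bitsOf w N ∧ p.2 = a p.1 then s ⟨p.1, h.1⟩ else 0, ?_⟩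
    funext β
    obtain ⟨β, hβ⟩ := β
    have hβN : wordOf β ∈ N := by simpa [bitsOf] using hβ
    obtain ⟨haA, hya, hadj⟩ := ha β hβN
    have hval : ∀ α ∈ bitsOf w A, y α * qr E (fun p => if h : p.2 ∈ bitsOf w N ∧ p.1 = a p.2 then
        s ⟨p.2, h.1⟩ else if h : p.1 ∈ bitsOf w N ∧ p.2 = a p.1 then s ⟨p.1, h.1⟩ else 0)
          (idx (b * w) α β) = if α = a β then s ⟨β, hβ⟩ else 0 := by
      intro α hα
      have hne : wordOf α ≠ wordOf β := fun h => hAN hα (h ▸ hβN)
      have hαN : α ∉ bitsOf w N := fun h => hAN hα (by simpa [bitsOf] using h)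
      rw [qr_idx E hE0 _ α β hne]
      have hne' : α ≠ β := fun h' => hne (by rw [h'])
      by_cases hαa : α = a β
      · rw [if_pos hαa]
        subst hαa
        rw [if_pos hadj, hya, one_mul]
        rcases lt_or_gt_of_ne hne' with hlt | hlt
        · rw [min_eq_left hlt.le, max_eq_right hlt.le]
          simp [hβ]
        · rw [min_eq_right hlt.le, max_eq_left hlt.le]
          simp [hβ, hαN]
      · rw [if_neg hαa]
        rcases lt_or_gt_of_ne hne' with hlt | hlt
        · rw [min_eq_left hlt.le, max_eq_right hlt.le]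
          simp [hαa, hαN]
        · rw [min_eq_right hlt.le, max_eq_left hlt.le]
          simp [hαa, hαN]
    show ∑ α ∈ bitsOf w A, _ = _
    rw [Finset.sum_congr rfl hval, Finset.sum_ite_eq', if_pos haA]

theorem claim2 (E : Finset (Fin b × Fin b)) (a' : ℕ)
    (hE : ∀ U V : Finset (Fin b), Disjoint U V → a' ≤ U.card → a' ≤ V.card →
      ∃ i ∈ U, ∃ j ∈ V, (i, j) ∈ E ∨ (j, i) ∈ E)
    (A B : Finset (Fin b)) (hAB : Disjoint A B) (hA : A.card = 4 * a') (hB : B.card = 4 * a')
    (U : Finset (Fin b)) (hU : U ⊆ A) : U.card ≤ (nb E U B).card + a' := by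
  by_cases h : a' ≤ U.card
  · have h1 : (B \ nb E U B).card < a' := by
      by_contra hcon
      push Not at hcon
      have hd : Disjoint U (B \ nb E U B) :=
        Finset.disjoint_left.2 fun i hi hi' =>
          Finset.disjoint_left.1 hAB (hU hi) (mem_sdiff.1 hi').1
      obtain ⟨i, hi, j, hj, hij⟩ := hE U _ hd h hcon
      obtain ⟨hj1, hj2⟩ := mem_sdiff.1 hj
      exact hj2 (mem_filter.2 ⟨hj1, i, hi, hij⟩)
    have h2 : (B \ nb E U B).card + (nb E U B).card = B.card :=
      card_sdiff_add_card_eq_card (filter_subset _ _)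
    have h3 := card_le_card hU
    omega
  · omega

theorem sum_ker (E : Finset (Fin b × Fin b)) (hE0 : ∀ p ∈ E, p.1 < p.2) (a' : ℕ)
    (hE : ∀ U V : Finset (Fin b), Disjoint U V → a' ≤ U.card → a' ≤ V.card →
      ∃ i ∈ U, ∃ j ∈ V, (i, j) ∈ E ∨ (j, i) ∈ E)
    (A B : Finset (Fin b)) (hAB : Disjoint A B) (hA : A.card = 4 * a') (hB : B.card = 4 * a') :
    ∑ r : Fin (b * w) × Fin (b * w) → ZMod 2, (ker (qr E r) (bitsOf w A) (bitsOf w B)).card ≤
      2 ^ ((b * w) * (b * w) + a' * w + 4 * a') := by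
  classical
  -- the number of matrices with a given kernel vector
  set c : (Fin (b * w) → ZMod 2) → ℕ := fun y =>
    (univ.filter fun r : Fin (b * w) × Fin (b * w) → ZMod 2 =>
      ∀ β ∈ bitsOf w B, ∑ α ∈ bitsOf w A, y α * qr E r (idx (b * w) α β) = 0).card with hc
  set Y : Finset (Fin (b * w) → ZMod 2) :=
    univ.filter fun y => ∀ i, i ∉ bitsOf w A → y i = 0 with hY
  have h1 : ∑ r : Fin (b * w) × Fin (b * w) → ZMod 2,
      (ker (qr E r) (bitsOf w A) (bitsOf w B)).card = ∑ y ∈ Y, c y := by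
    simp only [hc, card_filter, ker, hY]
    rw [Finset.sum_comm, Finset.sum_filter]
    refine Finset.sum_congr rfl fun y _ => ?_
    by_cases hy : ∀ i, i ∉ bitsOf w A → y i = 0
    · rw [if_pos hy]
      refine Finset.sum_congr rfl fun r _ => ?_
      apply if_congr _ rfl rfl
      exact ⟨fun h => h.2, fun h => ⟨hy, h⟩⟩
    · rw [if_neg hy]
      refine Finset.sum_eq_zero fun r _ => ?_
      rw [if_neg]
      exact fun h => hy h.1
  rw [h1]
  have h2 : ∀ y, c y * 2 ^ ((sw A y).card * w) ≤ 2 ^ ((b * w) * (b * w) + a' * w) := by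
    intro y
    have e1 := claim1 E hE0 A B hAB y
    have e2 := claim2 E a' hE A B hAB hA hB (sw A y) (filter_subset _ _)
    calc c y * 2 ^ ((sw A y).card * w) ≤ c y * 2 ^ (((nb E (sw A y) B).card + a') * w) := by
          apply Nat.mul_le_mul_left
          exact Nat.pow_le_pow_right (by norm_num) (Nat.mul_le_mul_right _ e2)
      _ = c y * 2 ^ ((nb E (sw A y) B).card * w) * 2 ^ (a' * w) := by
          rw [add_mul, pow_add, mul_assoc]
      _ ≤ 2 ^ ((b * w) * (b * w)) * 2 ^ (a' * w) := Nat.mul_le_mul_right _ e1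
      _ = _ := by rw [pow_add]
  have h3 : ∑ y ∈ Y, c y = ∑ U ∈ A.powerset, ∑ y ∈ Y.filter (fun y => sw A y = U), c y := by
    rw [Finset.sum_fiberwise_of_maps_to]
    intro y _
    exact mem_powerset.2 (filter_subset _ _)
  rw [h3]
  have h4 : ∀ U ∈ A.powerset, ∑ y ∈ Y.filter (fun y => sw A y = U), c y ≤
      2 ^ ((b * w) * (b * w) + a' * w) := by
    intro U _
    have hsub : Y.filter (fun y => sw A y = U) ⊆
        univ.filter fun y : Fin (b * w) → ZMod 2 => ∀ i, i ∉ bitsOf w U → y i = 0 := by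
      intro y hy
      obtain ⟨hy1, hy2⟩ := mem_filter.1 hy
      refine mem_filter.2 ⟨mem_univ _, fun i hi => ?_⟩
      by_contra hne
      apply hi
      have hiA : i ∈ bitsOf w A := by
        by_contra h
        exact hne ((mem_filter.1 hy1).2 i h)
      simp only [bitsOf, mem_filter, mem_univ, true_and] at hiA ⊢
      rw [← hy2]
      exact mem_filter.2 ⟨hiA, i, rfl, hne⟩
    have hcardU : (Y.filter (fun y => sw A y = U)).card ≤ 2 ^ (U.card * w) := by
      refine (card_le_card hsub).trans ?_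
      have := card_supp (bitsOf w U)
      rwa [card_bitsOf] at this
    have e1 : (∑ y ∈ Y.filter (fun y => sw A y = U), c y) * 2 ^ (U.card * w) ≤
        2 ^ ((b * w) * (b * w) + a' * w) * 2 ^ (U.card * w) := by
      rw [Finset.sum_mul]
      calc ∑ y ∈ Y.filter (fun y => sw A y = U), c y * 2 ^ (U.card * w)
          ≤ ∑ y ∈ Y.filter (fun y => sw A y = U), 2 ^ ((b * w) * (b * w) + a' * w) := by
            apply Finset.sum_le_sum
            intro y hy
            have := h2 y
            rwa [(mem_filter.1 hy).2] at this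
        _ = (Y.filter (fun y => sw A y = U)).card * 2 ^ ((b * w) * (b * w) + a' * w) := by
            rw [sum_const, smul_eq_mul]
        _ ≤ 2 ^ (U.card * w) * 2 ^ ((b * w) * (b * w) + a' * w) := Nat.mul_le_mul_right _ hcardU
        _ = _ := mul_comm _ _
    exact Nat.le_of_mul_le_mul_right e1 (by positivity)
  calc ∑ U ∈ A.powerset, ∑ y ∈ Y.filter (fun y => sw A y = U), c y
      ≤ ∑ U ∈ A.powerset, 2 ^ ((b * w) * (b * w) + a' * w) := Finset.sum_le_sum h4
    _ = 2 ^ (4 * a') * 2 ^ ((b * w) * (b * w) + a' * w) := by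
        rw [sum_const, smul_eq_mul, card_powerset, hA]
    _ = _ := by rw [← pow_add]; congr 1; ring

theorem avg {α R : Type} [Fintype R] (P : Finset α) (f : α → R → ℕ) (c : ℕ)
    (h : ∀ r, ∃ p ∈ P, c ≤ f p r) : Fintype.card R * c ≤ ∑ p ∈ P, ∑ r, f p r := by
  rw [Finset.sum_comm, ← card_univ, ← smul_eq_mul, ← sum_const]
  apply Finset.sum_le_sum
  intro r _
  obtain ⟨p, hp, hpr⟩ := h r
  exact hpr.trans (Finset.single_le_sum (f := fun p => f p r) (fun _ _ => Nat.zero_le _) hp)

theorem card_all (n : ℕ) : (univ : Finset (Fin n × Fin n → ZMod 2)).card = 2 ^ (n * n) := by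
  rw [card_univ, Fintype.card_fun, ZMod.card, Fintype.card_prod, Fintype.card_fin]

end Pool.Agent.H774R2.QSAT.Ker

namespace Pool.Agent.H774R2.QSAT

open Pool.Agent.H774R2.QTS (quad ker)
open Ker

/-- Task KER. -/
theorem exists_q (b w a' τ : ℕ) (E : Finset (Fin b × Fin b)) (hE0 : ∀ p ∈ E, p.1 < p.2)
    (hE : ∀ U V : Finset (Fin b), Disjoint U V → a' ≤ U.card → a' ≤ V.card →
      ∃ i ∈ U, ∃ j ∈ V, (i, j) ∈ E ∨ (j, i) ∈ E)
    (ha : 1 ≤ a') (hτ : 4 * b ≤ a' * 2 ^ τ) (hw : 8 * τ + 8 ≤ w) :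
    ∃ q : ℕ → ZMod 2, (nz (b * w) q).card ≤ E.card * w ^ 2 ∧
      ∀ A B : Finset (Fin b), Disjoint A B → A.card = 4 * a' → B.card = 4 * a' →
        (ker q (bitsOf w A) (bitsOf w B)).card ≤ 2 ^ (2 * a' * w) := by
  classical
  by_contra hcon
  push Not at hcon
  have hbad : ∀ r : Fin (b * w) × Fin (b * w) → ZMod 2, ∃ A B : Finset (Fin b), Disjoint A B ∧
      A.card = 4 * a' ∧ B.card = 4 * a' ∧
        2 ^ (2 * a' * w) < (ker (qr E r) (bitsOf w A) (bitsOf w B)).card :=
    fun r => by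
      obtain ⟨A, B, h1, h2, h3, h4⟩ := hcon (qr E r) (nz_card E r)
      exact ⟨A, B, h1, h2, h3, h4⟩
  -- the set of pairs
  set Pr : Finset (Finset (Fin b) × Finset (Fin b)) :=
    ((powersetCard (4 * a') (univ : Finset (Fin b))) ×ˢ
      (powersetCard (4 * a') (univ : Finset (Fin b)))).filter fun p => Disjoint p.1 p.2 with hPr
  have hcardPr : Pr.card ≤ 2 ^ (8 * τ * a') := by
    refine (card_filter_le _ _).trans ?_
    rw [card_product, card_powersetCard, card_univ, Fintype.card_fin]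
    have h1 : b.choose (4 * a') ≤ 2 ^ (τ * (4 * a')) :=
      Ker.choose_le b (4 * a') τ (by omega) (by nlinarith [Nat.zero_le (a' * 2 ^ τ)])
    calc b.choose (4 * a') * b.choose (4 * a') ≤ 2 ^ (τ * (4 * a')) * 2 ^ (τ * (4 * a')) :=
          Nat.mul_le_mul h1 h1
      _ = _ := by rw [← pow_add]; congr 1; ring
  have hcount := Ker.avg (R := Fin (b * w) × Fin (b * w) → ZMod 2) Pr
    (fun p r => (ker (qr E r) (bitsOf w p.1) (bitsOf w p.2)).card) (2 ^ (2 * a' * w)) (by
      intro r
      obtain ⟨A, B, h1, h2, h3, h4⟩ := hbad r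
      have hmem : (A, B) ∈ Pr := by
        rw [hPr, mem_filter, mem_product, mem_powersetCard, mem_powersetCard]
        exact ⟨⟨⟨subset_univ _, h2⟩, ⟨subset_univ _, h3⟩⟩, h1⟩
      exact ⟨(A, B), hmem, h4.le⟩)
  rw [← card_univ, Ker.card_all] at hcount
  have hsum : ∑ p ∈ Pr, ∑ r : Fin (b * w) × Fin (b * w) → ZMod 2,
        (ker (qr E r) (bitsOf w p.1) (bitsOf w p.2)).card ≤
      2 ^ (8 * τ * a') * 2 ^ ((b * w) * (b * w) + a' * w + 4 * a') := by
    calc _ ≤ ∑ p ∈ Pr, 2 ^ ((b * w) * (b * w) + a' * w + 4 * a') := by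
          apply Finset.sum_le_sum
          intro p hp
          simp only [hPr, mem_filter, mem_product, mem_powersetCard, subset_univ, true_and] at hp
          exact sum_ker E hE0 a' hE p.1 p.2 hp.2 hp.1.1 hp.1.2
      _ = Pr.card * 2 ^ ((b * w) * (b * w) + a' * w + 4 * a') := by
          rw [sum_const, smul_eq_mul]
      _ ≤ _ := Nat.mul_le_mul_right _ hcardPr
  have hfin := hcount.trans hsum
  rw [← pow_add, ← pow_add] at hfin
  have hexp := (Nat.pow_le_pow_iff_right (by norm_num : 1 < 2)).1 hfin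
  have h5 : a' * (8 * τ + 8) ≤ a' * w := Nat.mul_le_mul_left _ hw
  nlinarith

end Pool.Agent.H774R2.QSAT
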