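import Mathlib
import Pool.Agent.H774R2.QSAT.WDefs

/-! Task GRAPH : a sparse graph with an edge between any two large disjoint sets. -/

open Finset

namespace Pool.Agent.H774R2.QSAT
namespace GraphT

theorem choose_le (n m lam : ℕ) (hm : 1 ≤ m) (h : 4 * n ≤ m * 2 ^ lam) :
    n.choose m ≤ 2 ^ (lam * m) := by
  have h1 : (n.choose m : ℝ) ≤ (n : ℝ) ^ m / m.factorial := Nat.choose_le_pow_div m n
  have h2 : (m : ℝ) ^ m / m.factorial ≤ Real.exp m :=
    Real.pow_div_factorial_le_exp m (by positivity) m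
  have hm0 : (0 : ℝ) < m := by exact_mod_cast hm
  have hf : (0 : ℝ) < m.factorial := by exact_mod_cast Nat.factorial_pos m
  have h3 : (n : ℝ) / m * 4 ≤ 2 ^ lam := by
    rw [div_mul_eq_mul_div, div_le_iff₀ hm0]
    have : ((4 * n : ℕ) : ℝ) ≤ ((m * 2 ^ lam : ℕ) : ℝ) := by exact_mod_cast h
    push_cast at this
    linarith
  have h4 : (n : ℝ) ^ m / m.factorial ≤ ((n : ℝ) / m * 4) ^ m := by
    have e1 : (n : ℝ) ^ m / m.factorial = ((n : ℝ) / m) ^ m * ((m : ℝ) ^ m / m.factorial) := by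
      rw [div_pow]
      field_simp
    rw [e1, mul_pow]
    apply mul_le_mul_of_nonneg_left _ (by positivity)
    refine h2.trans ?_
    have e2 : Real.exp m = Real.exp 1 ^ m := by
      rw [← Real.exp_nat_mul]; simp
    rw [e2]
    apply pow_le_pow_left₀ (Real.exp_pos _).le
    have := Real.exp_one_lt_d9
    linarith
  have h5 : ((n.choose m : ℕ) : ℝ) ≤ ((2 ^ (lam * m) : ℕ) : ℝ) := by
    push_cast
    rw [pow_mul]
    exact h1.trans (h4.trans (pow_le_pow_left₀ (by positivity) h3 m))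
  exact_mod_cast h5

lemma key_bound (b a' Δ τ : ℕ) (hb : 1 ≤ b) (hab : a' ≤ b) (hΔ : (2 * τ + 1) * b ≤ Δ * a') :
    (b - a') ^ (Δ * a') * 2 ^ ((2 * τ + 1) * a') ≤ b ^ (Δ * a') := by
  have hb0 : (0:ℝ) < b := by exact_mod_cast hb
  have h1 : ((b:ℝ) - a') / b ≤ Real.exp (-(a' / b)) := by
    have := Real.add_one_le_exp (-((a':ℝ) / b))
    have e : ((b:ℝ) - a') / b = -((a':ℝ) / b) + 1 := by field_simp; ring
    rw [e]; exact this
  have hab' : (a':ℝ) ≤ b := by exact_mod_cast hab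
  have h0 : 0 ≤ ((b:ℝ) - a') / b := div_nonneg (by linarith) hb0.le
  have h2 : (((b:ℝ) - a') / b) ^ (Δ * a') ≤ Real.exp (-((2 * τ + 1) * a')) := by
    refine (pow_le_pow_left₀ h0 h1 _).trans ?_
    rw [← Real.exp_nat_mul, Real.exp_le_exp]
    have h3 : ((2 * τ + 1) * b : ℝ) ≤ Δ * a' := by exact_mod_cast hΔ
    have h4 : ((2 * τ + 1) * a' : ℝ) ≤ (Δ * a') * (a' / b) := by
      rw [mul_div_assoc', le_div_iff₀ hb0]
      have := mul_le_mul_of_nonneg_right h3 (Nat.cast_nonneg (α := ℝ) a')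
      linarith
    push_cast
    linarith
  have h3 : (2:ℝ) ^ ((2 * τ + 1) * a') ≤ Real.exp ((2 * τ + 1) * a') := by
    have e : Real.exp ((2 * τ + 1) * a') = Real.exp 1 ^ ((2 * τ + 1) * a') := by
      rw [← Real.exp_nat_mul]; push_cast; simp
    rw [e]
    apply pow_le_pow_left₀ (by norm_num)
    have := Real.exp_one_gt_d9
    linarith
  have h4 : (((b:ℝ) - a') / b) ^ (Δ * a') * 2 ^ ((2 * τ + 1) * a') ≤ 1 := by
    calc _ ≤ Real.exp (-((2 * τ + 1) * a')) * Real.exp ((2 * τ + 1) * a') :=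
          mul_le_mul h2 h3 (by positivity) (Real.exp_pos _).le
      _ = 1 := by rw [← Real.exp_add]; simp
  have h5 : ((b:ℝ) - a') ^ (Δ * a') * 2 ^ ((2 * τ + 1) * a') ≤ (b:ℝ) ^ (Δ * a') := by
    rw [div_pow, div_mul_eq_mul_div, div_le_one (by positivity)] at h4
    exact h4
  have h6 : (((b - a' : ℕ) : ℝ)) ^ (Δ * a') * 2 ^ ((2 * τ + 1) * a') ≤ (b:ℝ) ^ (Δ * a') := by
    rw [Nat.cast_sub hab]; exact h5
  exact_mod_cast h6

/-- Bad functions. -/
def bad (b Δ : ℕ) (U V : Finset (Fin b)) : Finset (Fin b → Fin Δ → Fin b) :=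
  univ.filter fun f => ∀ i ∈ U, ∀ s, f i s ∉ V

lemma card_bad (b Δ a' : ℕ) (U V : Finset (Fin b)) (hU : U.card = a') (hV : V.card = a') :
    (bad b Δ U V).card = (b - a') ^ (Δ * a') * b ^ (Δ * (b - a')) := by
  have h1 : bad b Δ U V = Fintype.piFinset (fun i =>
      if i ∈ U then Fintype.piFinset (fun _ : Fin Δ => univ \ V) else univ) := by
    ext f
    simp only [bad, mem_filter, mem_univ, true_and, Fintype.mem_piFinset]
    refine forall_congr' fun i => ?_
    by_cases h : i ∈ U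
    · simp [h, Fintype.mem_piFinset]
    · simp [h]
  rw [h1, Fintype.card_piFinset]
  have h2 : ∀ i, (if i ∈ U then Fintype.piFinset (fun _ : Fin Δ => univ \ V) else univ).card =
      if i ∈ U then (b - a') ^ Δ else b ^ Δ := by
    intro i
    split_ifs
    · rw [Fintype.card_piFinset, Finset.prod_const, Finset.card_univ, Fintype.card_fin,
        Finset.card_univ_sdiff, Fintype.card_fin, hV]
    · simp
  simp only [h2]
  rw [Finset.prod_ite, Finset.prod_const, Finset.prod_const]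
  have h4 : (univ.filter fun j => j ∈ U) = U := by ext j; simp
  have h3 := Finset.card_filter_add_card_filter_not (s := (univ : Finset (Fin b))) (fun j => j ∈ U)
  rw [h4, Finset.card_univ, Fintype.card_fin, hU] at h3
  rw [h4, hU, ← pow_mul, ← pow_mul]
  congr 3
  omega

end GraphT

open GraphT

/-- Task GRAPH. -/
theorem exists_graph (b a' Δ τ : ℕ) (hb : 1 ≤ b) (ha : 1 ≤ a') (hτ : 4 * b ≤ a' * 2 ^ τ)
    (hΔ : (2 * τ + 1) * b ≤ Δ * a') :
    ∃ E : Finset (Fin b × Fin b), E.card ≤ b * Δ ∧ (∀ p ∈ E, p.1 < p.2) ∧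
      ∀ U V : Finset (Fin b), Disjoint U V → a' ≤ U.card → a' ≤ V.card →
        ∃ i ∈ U, ∃ j ∈ V, (i, j) ∈ E ∨ (j, i) ∈ E := by
  -- a good function
  obtain ⟨f, hf⟩ : ∃ f : Fin b → Fin Δ → Fin b, ∀ U V : Finset (Fin b), U.card = a' →
      V.card = a' → ∃ i ∈ U, ∃ s, f i s ∈ V := by
    by_contra hcon
    push Not at hcon
    have hab : a' ≤ b := by
      obtain ⟨U, V, hU, -, -⟩ := hcon (fun i _ => i)
      rw [← hU]
      exact (card_le_univ U).trans (by simp)
    have h1 : (univ : Finset (Fin b → Fin Δ → Fin b)) ⊆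
        ((powersetCard a' univ) ×ˢ (powersetCard a' univ)).biUnion
          (fun p => bad b Δ p.1 p.2) := by
      intro f _
      obtain ⟨U, V, hU, hV, h⟩ := hcon f
      rw [mem_biUnion]
      exact ⟨(U, V), by simp [mem_powersetCard, hU, hV], by simpa [bad] using h⟩
    have h2 := card_le_card h1
    have h3 : (((powersetCard a' (univ : Finset (Fin b))) ×ˢ (powersetCard a' univ)).biUnion
          (fun p => bad b Δ p.1 p.2)).card ≤
        (b.choose a' * b.choose a') * ((b - a') ^ (Δ * a') * b ^ (Δ * (b - a'))) := by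
      refine card_biUnion_le.trans ?_
      refine (Finset.sum_le_card_nsmul _ _ ((b - a') ^ (Δ * a') * b ^ (Δ * (b - a'))) ?_).trans ?_
      · rintro ⟨U, V⟩ hp
        rw [mem_product, mem_powersetCard, mem_powersetCard] at hp
        exact (card_bad b Δ a' U V hp.1.2 hp.2.2).le
      · rw [card_product, card_powersetCard, Finset.card_univ, Fintype.card_fin, smul_eq_mul]
    have h4 : Fintype.card (Fin b → Fin Δ → Fin b) = b ^ (Δ * b) := by
      simp [pow_mul]
    rw [Finset.card_univ, h4] at h2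
    have h5 := h2.trans h3
    have hc := choose_le b a' τ ha hτ
    have hkb := key_bound b a' Δ τ hb hab hΔ
    have h6 : b ^ (Δ * b) * 2 ^ ((2 * τ + 1) * a') ≤ 2 ^ (2 * τ * a') * b ^ (Δ * b) := by
      calc b ^ (Δ * b) * 2 ^ ((2 * τ + 1) * a')
          ≤ (b.choose a' * b.choose a') * ((b - a') ^ (Δ * a') * b ^ (Δ * (b - a'))) *
              2 ^ ((2 * τ + 1) * a') := Nat.mul_le_mul_right _ h5
        _ = (b.choose a' * b.choose a') * b ^ (Δ * (b - a')) *
              ((b - a') ^ (Δ * a') * 2 ^ ((2 * τ + 1) * a')) := by ring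
        _ ≤ (2 ^ (τ * a') * 2 ^ (τ * a')) * b ^ (Δ * (b - a')) * b ^ (Δ * a') :=
              Nat.mul_le_mul (Nat.mul_le_mul_right _ (Nat.mul_le_mul hc hc)) hkb
        _ = 2 ^ (2 * τ * a') * b ^ (Δ * b) := by
              have e1 : τ * a' + τ * a' = 2 * τ * a' := by ring
              have e2 : Δ * (b - a') + Δ * a' = Δ * b := by
                rw [← mul_add, Nat.sub_add_cancel hab]
              rw [← pow_add, mul_assoc, ← pow_add, e1, e2]
    have hpos : 0 < b ^ (Δ * b) := Nat.pow_pos hb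
    have h7 : 2 ^ ((2 * τ + 1) * a') ≤ 2 ^ (2 * τ * a') := by
      apply Nat.le_of_mul_le_mul_left _ hpos
      rw [mul_comm (b ^ (Δ * b)) (2 ^ (2 * τ * a'))]
      exact h6
    have h8 := (Nat.pow_le_pow_iff_right (by norm_num)).1 h7
    have h9 : (2 * τ + 1) * a' = 2 * τ * a' + a' := by ring
    omega
  -- the graph
  refine ⟨(univ.image (fun p : Fin b × Fin Δ =>
    (min p.1 (f p.1 p.2), max p.1 (f p.1 p.2)))).filter (fun p => p.1 < p.2), ?_, ?_, ?_⟩
  · refine (card_filter_le _ _).trans (card_image_le.trans ?_)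
    simp
  · intro p hp
    exact (mem_filter.1 hp).2
  · intro U V hUV hU hV
    obtain ⟨U', hU', hU2⟩ := exists_subset_card_eq hU
    obtain ⟨V', hV', hV2⟩ := exists_subset_card_eq hV
    obtain ⟨i, hi, s, hs⟩ := hf U' V' hU2 hV2
    have hne : i ≠ f i s := fun h => (disjoint_left.1 hUV) (hU' hi) (h ▸ hV' hs)
    refine ⟨i, hU' hi, f i s, hV' hs, ?_⟩
    rcases lt_or_gt_of_ne hne with h | h
    · left
      rw [mem_filter, mem_image]
      refine ⟨⟨(i, s), mem_univ _, ?_⟩, h⟩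
      simp only
      rw [min_eq_left h.le, max_eq_right h.le]
    · right
      rw [mem_filter, mem_image]
      refine ⟨⟨(i, s), mem_univ _, ?_⟩, h⟩
      simp only
      rw [min_eq_right h.le, max_eq_left h.le]

end Pool.Agent.H774R2.QSAT
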