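import Mathlib
import Pool.Agent.H774R2.QSAT.Main
import Pool.Agent.H774R2.QSAT.Graph
import Pool.Agent.H774R2.QSAT.Ker
import Pool.Agent.H774R2.QSAT.Enc
import Pool.Agent.H774R2.QTS.RankAll

/-!
# Choice of the parameters
-/

open Finset

namespace Pool.Agent.H774R2.QSAT

open Pool.Agent.H774R2.QTS (chi quad ker)

namespace Param

lemma pcongr {a b : ℕ} (h : a = b) : (2 : ℕ) ^ a = 2 ^ b := by rw [h]

lemma lin_le (c e K : ℕ) (h : c ≤ 2 ^ e) : c * (K + 1) ≤ 2 ^ (K + e) := by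
  rw [pow_add, mul_comm]
  exact Nat.mul_le_mul (Nat.succ_le_of_lt Nat.lt_two_pow_self) h

/-- The inequality contradicting the main inequality. -/
lemma final_lt (D S r b a' τ w h : ℕ) (δ : ℝ) (hD : D ≤ 2 ^ S)
    (hC : b.choose (4 * a') ≤ 2 ^ (τ * (4 * a'))) (hw : w = 8 * τ + 8)
    (hh : S * (2 * (r + 1)) + 2 + h ≤ 8 * a') (hδ : 2 * (1 / 2 : ℝ) ^ h ≤ δ)
    (key : δ ≤ 4 * ((D : ℝ) ^ (2 * (r + 1)) * ((1 / 2) ^ (a' * w) * (b.choose (4 * a') : ℝ)))) :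
    False := by
  have h1 : (D : ℝ) ^ (2 * (r + 1)) ≤ 2 ^ (S * (2 * (r + 1))) := by
    rw [pow_mul (2 : ℝ) S (2 * (r + 1))]
    have hD' : (D : ℝ) ≤ 2 ^ S := by exact_mod_cast hD
    exact pow_le_pow_left₀ (Nat.cast_nonneg D) hD' _
  have h2 : (b.choose (4 * a') : ℝ) ≤ 2 ^ (τ * (4 * a')) := by exact_mod_cast hC
  have h3 : (1 / 2 : ℝ) ^ (a' * w) * (b.choose (4 * a') : ℝ) ≤
      (1 / 2) ^ (a' * w) * 2 ^ (τ * (4 * a')) := mul_le_mul_of_nonneg_left h2 (by positivity)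
  have h4 : (D : ℝ) ^ (2 * (r + 1)) * ((1 / 2) ^ (a' * w) * (b.choose (4 * a') : ℝ)) ≤
      2 ^ (S * (2 * (r + 1))) * ((1 / 2) ^ (a' * w) * 2 ^ (τ * (4 * a'))) :=
    mul_le_mul h1 h3 (by positivity) (by positivity)
  have e1 : (2 : ℝ) ^ (a' * w) * (1 / 2) ^ (a' * w) = 1 := by
    rw [← mul_pow]; norm_num
  have e2 : (2 : ℝ) ^ h * (1 / 2) ^ h = 1 := by
    rw [← mul_pow]; norm_num
  have h5 : 4 * ((2 : ℝ) ^ (S * (2 * (r + 1))) * ((1 / 2) ^ (a' * w) * 2 ^ (τ * (4 * a')))) ≤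
      (1 / 2) ^ h := by
    have h6 : (2 : ℝ) ^ (2 + S * (2 * (r + 1)) + τ * (4 * a') + h) ≤ 2 ^ (a' * w) := by
      apply pow_le_pow_right₀ (by norm_num)
      have : a' * w = 2 * (τ * (4 * a')) + 8 * a' := by rw [hw]; ring
      omega
    have h7 : 4 * ((2 : ℝ) ^ (S * (2 * (r + 1))) * ((1 / 2) ^ (a' * w) * 2 ^ (τ * (4 * a')))) =
        ((2 : ℝ) ^ (2 + S * (2 * (r + 1)) + τ * (4 * a') + h) * (1 / 2) ^ (a' * w)) *
          (1 / 2) ^ h := by
      rw [pow_add _ _ h, pow_add, pow_add]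
      calc _ = 4 * ((2 : ℝ) ^ (S * (2 * (r + 1))) * ((1 / 2) ^ (a' * w) * 2 ^ (τ * (4 * a')))) *
            ((2 : ℝ) ^ h * (1 / 2) ^ h) := by rw [e2, mul_one]
        _ = _ := by ring
    rw [h7]
    have h8 : (2 : ℝ) ^ (2 + S * (2 * (r + 1)) + τ * (4 * a') + h) * (1 / 2) ^ (a' * w) ≤ 1 :=
      (mul_le_mul_of_nonneg_right h6 (by positivity)).trans_eq e1
    calc _ ≤ 1 * (1 / 2 : ℝ) ^ h := mul_le_mul_of_nonneg_right h8 (by positivity)
      _ = _ := one_mul _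
  have h9 : (0 : ℝ) < (1 / 2) ^ h := by positivity
  have h10 : 4 * ((D : ℝ) ^ (2 * (r + 1)) * ((1 / 2) ^ (a' * w) * (b.choose (4 * a') : ℝ))) ≤
      4 * ((2 : ℝ) ^ (S * (2 * (r + 1))) * ((1 / 2) ^ (a' * w) * 2 ^ (τ * (4 * a')))) :=
    mul_le_mul_of_nonneg_left h4 (by norm_num)
  linarith

/-- The finite contradiction. -/
theorem contra {m D T S : ℕ} (Q : Machine m (Clause m) D T) (hQ : Q.Valid) (δ : ℝ) (hδ : 0 < δ)
    (hδ' : δ ≤ 1 / 2) (hf : Q.Decides δ Sat) (H h K : ℕ) (hH : 2 / δ ≤ H) (hHh : H ≤ 2 ^ h)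
    (hK : 1 ≤ K) (hD : D ≤ 2 ^ S) (hS : 1 ≤ S) (hm : S * 2 ^ (46 * K + 180 + 2 * h) ≤ m)
    (hT : 4 * H * (T + 2 * m) ≤ K * m) : False := by
  classical
  have hHpos : 1 ≤ H := by
    have h1 : (0 : ℝ) < H := lt_of_lt_of_le (by positivity) hH
    exact_mod_cast h1
  have hm1 : 2 ^ (46 * K + 180 + 2 * h) ≤ m := (Nat.le_mul_of_pos_left _ hS).trans hm
  have hm0 : m ≠ 0 := by
    have : 0 < 2 ^ (46 * K + 180 + 2 * h) := by positivity
    omega
  have hlog : 46 * K + 180 + 2 * h ≤ Nat.log 2 m := Nat.le_log_of_pow_le (by norm_num) hm1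
  obtain ⟨β, hβ⟩ : ∃ β, Nat.log 2 m = β + (20 * K + 80) := ⟨Nat.log 2 m - (20 * K + 80), by omega⟩
  have hβ1 : 26 * K + 100 + 2 * h ≤ β := by omega
  obtain ⟨b, hb⟩ : ∃ b, b = 2 ^ β := ⟨_, rfl⟩
  obtain ⟨a', ha'⟩ : ∃ a', a' = 2 ^ (β - (2 * K + 4)) := ⟨_, rfl⟩
  obtain ⟨d, hd⟩ : ∃ d, d = 2 ^ (β - (6 + 3 * K + h)) := ⟨_, rfl⟩
  have hba : b = a' * 2 ^ (2 * K + 4) := by
    rw [hb, ha', ← pow_add]; exact pcongr (by omega)
  have hbd : b = d * 2 ^ (6 + 3 * K + h) := by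
    rw [hb, hd, ← pow_add]; exact pcongr (by omega)
  have ha1 : 1 ≤ a' := by rw [ha']; exact Nat.one_le_two_pow
  have hd1 : 1 ≤ d := by rw [hd]; exact Nat.one_le_two_pow
  have hb1 : 1 ≤ b := by rw [hb]; exact Nat.one_le_two_pow
  have hbm : b * 2 ^ (20 * K + 80) ≤ m := by
    rw [hb, ← pow_add, ← hβ]
    exact Nat.pow_log_le_self 2 hm0
  have hmb : m < b * 2 ^ (20 * K + 81) := by
    have := Nat.lt_pow_succ_log_self (b := 2) (by norm_num) m
    rw [hβ] at this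
    rw [hb, ← pow_add]
    calc m < 2 ^ (β + (20 * K + 80) + 1) := this
      _ = _ := pcongr (by omega)
  have hb64 : 64 ≤ b := by
    rw [hb]
    calc 64 = 2 ^ 6 := by norm_num
      _ ≤ 2 ^ β := Nat.pow_le_pow_right (by norm_num) (by omega)
  have hb64m : 64 * b ≤ m := by
    calc 64 * b = b * 2 ^ 6 := by ring
      _ ≤ b * 2 ^ (20 * K + 80) := by
        apply Nat.mul_le_mul_left
        exact Nat.pow_le_pow_right (by norm_num) (by omega)
      _ ≤ m := hbm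
  -- τ, w, Δ
  obtain ⟨τ, hτ⟩ : ∃ τ, τ = 2 * K + 6 := ⟨_, rfl⟩
  obtain ⟨w, hw⟩ : ∃ w, w = 8 * τ + 8 := ⟨_, rfl⟩
  obtain ⟨Δ, hΔ⟩ : ∃ Δ, Δ = (2 * τ + 1) * 2 ^ (2 * K + 4) := ⟨_, rfl⟩
  have hτ1 : 4 * b ≤ a' * 2 ^ τ := by
    rw [hba, hτ]
    calc 4 * (a' * 2 ^ (2 * K + 4)) = a' * (2 ^ 2 * 2 ^ (2 * K + 4)) := by ring
      _ = a' * 2 ^ (2 * K + 6) := by rw [← pow_add, pcongr (show 2 + (2 * K + 4) = 2 * K + 6 by omega)]
      _ ≤ _ := le_rfl
  have hΔ1 : (2 * τ + 1) * b ≤ Δ * a' := by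
    rw [hba, hΔ]
    apply le_of_eq; ring
  have hwK : w ≤ 2 ^ (K + 7) := by
    calc w = 16 * K + 56 := by omega
      _ ≤ 72 * (K + 1) := by omega
      _ ≤ 2 ^ (K + 7) := lin_le 72 7 K (by norm_num)
  have hΔK : Δ ≤ 2 ^ (3 * K + 8) := by
    calc Δ = (4 * K + 13) * 2 ^ (2 * K + 4) := by rw [hΔ, hτ]; ring
      _ ≤ (13 * (K + 1)) * 2 ^ (2 * K + 4) := Nat.mul_le_mul_right _ (by omega)
      _ ≤ 2 ^ (K + 4) * 2 ^ (2 * K + 4) := Nat.mul_le_mul_right _ (lin_le 13 4 K (by norm_num))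
      _ = 2 ^ (3 * K + 8) := by rw [← pow_add]; exact pcongr (by omega)
  -- graph and quadratic form
  obtain ⟨E, hE1, hE2, hE3⟩ := exists_graph b a' Δ τ hb1 ha1 hτ1 hΔ1
  obtain ⟨q, hq1, hq2⟩ := exists_q b w a' τ E hE2 hE3 ha1 hτ1 (by omega)
  obtain ⟨P, hP⟩ : ∃ P, P = b * Δ * w ^ 2 := ⟨_, rfl⟩
  have hP1 : (nz (b * w) q).card ≤ P := by
    rw [hP]
    exact hq1.trans (Nat.mul_le_mul_right _ hE1)
  -- number of blocks
  obtain ⟨B, hB⟩ : ∃ B, B = m / (2 * b) := ⟨_, rfl⟩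
  have hB1 : B * (2 * b) ≤ m := by rw [hB]; exact Nat.div_mul_le_self _ _
  have hB2 : m < (B + 1) * (2 * b) := by
    rw [hB]
    have := Nat.lt_mul_div_succ m (show 0 < 2 * b by omega)
    calc m < 2 * b * (m / (2 * b) + 1) := this
      _ = _ := by ring
  have hBpos : 1 ≤ B := by
    rcases Nat.eq_zero_or_pos B with h0 | h0
    · exfalso
      rw [h0] at hB2
      omega
    · exact h0
  have hBb : m ≤ 4 * (b * B) := by
    have e1 : (B + 1) * (2 * b) = 2 * (b * B) + 2 * b := by ring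
    omega
  have hmenc : 8 * P + B * b + 4 * B + 2 * (b * w) + 2 * (b * w * 2 ^ w) + 16 ≤ m := by
    have e1 : 16 * (8 * P) ≤ m := by
      calc 16 * (8 * P) = b * (2 ^ 7 * (Δ * w ^ 2)) := by rw [hP]; ring
        _ ≤ b * (2 ^ 7 * (2 ^ (3 * K + 8) * (2 ^ (K + 7)) ^ 2)) := by
          apply Nat.mul_le_mul_left
          apply Nat.mul_le_mul_left
          exact Nat.mul_le_mul hΔK (Nat.pow_le_pow_left hwK 2)
        _ = b * 2 ^ (5 * K + 29) := by
          rw [← pow_mul, ← pow_add, ← pow_add,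
            pcongr (show 7 + (3 * K + 8 + (K + 7) * 2) = 5 * K + 29 by ring)]
        _ ≤ b * 2 ^ (20 * K + 80) := by
          apply Nat.mul_le_mul_left
          exact Nat.pow_le_pow_right (by norm_num) (by omega)
        _ ≤ m := hbm
    have e2 : 2 * (B * b) ≤ m := by
      calc 2 * (B * b) = B * (2 * b) := by ring
        _ ≤ m := hB1
    have e3 : 16 * (4 * B) ≤ m := by
      calc 16 * (4 * B) = B * 64 := by ring
        _ ≤ B * (2 * b) := Nat.mul_le_mul_left _ (by omega)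
        _ ≤ m := hB1
    have e4 : 16 * (2 * (b * w) + 2 * (b * w * 2 ^ w)) ≤ m := by
      have f1 : b * w ≤ b * w * 2 ^ w := Nat.le_mul_of_pos_right _ (by positivity)
      calc 16 * (2 * (b * w) + 2 * (b * w * 2 ^ w)) ≤ 16 * (4 * (b * w * 2 ^ w)) := by omega
        _ = b * (2 ^ 6 * (w * 2 ^ w)) := by ring
        _ ≤ b * (2 ^ 6 * (2 ^ (K + 7) * 2 ^ w)) := by
          apply Nat.mul_le_mul_left
          apply Nat.mul_le_mul_left
          exact Nat.mul_le_mul_right _ hwK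
        _ = b * 2 ^ (17 * K + 69) := by
          rw [← pow_add, ← pow_add, pcongr (show 6 + (K + 7 + w) = 17 * K + 69 by omega)]
        _ ≤ b * 2 ^ (20 * K + 80) := by
          apply Nat.mul_le_mul_left
          exact Nat.pow_le_pow_right (by norm_num) (by omega)
        _ ≤ m := hbm
    omega
  obtain ⟨g, cl, hg, henc⟩ := enc b w B P m q hb1 (by omega) hBpos hP1 hmenc
  -- the two-party bound
  have hTP := TP_words (b := b) (w := w) q (4 * a') (2 * a' * w) (a' * w) hq2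
    (by apply le_of_eq; ring)
  -- r
  obtain ⟨r, hr⟩ : ∃ r, r = (T + m) / d + 1 := ⟨_, rfl⟩
  have hr1 : T + m ≤ r * d := by
    have := Nat.lt_mul_div_succ (T + m) hd1
    rw [hr]
    calc T + m ≤ d * ((T + m) / d + 1) := this.le
      _ = _ := by ring
  have hdb' : d ≤ b := by
    rw [hbd]; exact Nat.le_mul_of_pos_right _ (by positivity)
  have hr2 : r * d ≤ T + 2 * m := by
    have h1 : (T + m) / d * d ≤ T + m := Nat.div_mul_le_self _ _
    calc r * d = (T + m) / d * d + d := by rw [hr]; ring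
      _ ≤ T + m + d := by omega
      _ ≤ T + 2 * m := by omega
  have hrd : H * (r * d) ≤ K * b * B := by
    have e1 : 4 * (H * (r * d)) ≤ 4 * (K * b * B) := by
      calc 4 * (H * (r * d)) ≤ 4 * (H * (T + 2 * m)) := by
            apply Nat.mul_le_mul_left
            exact Nat.mul_le_mul_left _ hr2
        _ = 4 * H * (T + 2 * m) := by ring
        _ ≤ K * m := hT
        _ ≤ K * (4 * (b * B)) := Nat.mul_le_mul_left _ hBb
        _ = _ := by ring
    omega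
  have h4K : (4 : ℕ) ^ K = 2 ^ (2 * K) := by rw [pow_mul]; norm_num
  have hdb : 64 * K * H * 4 ^ K * d ≤ b := by
    calc 64 * K * H * 4 ^ K * d ≤ 64 * 2 ^ K * 2 ^ h * 4 ^ K * d := by
          apply Nat.mul_le_mul_right
          apply Nat.mul_le_mul_right
          apply Nat.mul_le_mul _ hHh
          exact Nat.mul_le_mul_left _ Nat.lt_two_pow_self.le
      _ = d * 2 ^ (6 + 3 * K + h) := by
          rw [show (64 : ℕ) = 2 ^ 6 by norm_num, h4K,
            ← pow_add, ← pow_add, ← pow_add, mul_comm,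
            pcongr (show 6 + K + h + 2 * K = 6 + 3 * K + h by ring)]
      _ = b := hbd.symm
  have hab : 4 * 4 ^ K * (4 * a') ≤ b := by
    calc 4 * 4 ^ K * (4 * a') = a' * (16 * 4 ^ K) := by ring
      _ = a' * 2 ^ (2 * K + 4) := by
          rw [show (16 : ℕ) = 2 ^ 4 by norm_num, h4K,
            ← pow_add, pcongr (show 4 + 2 * K = 2 * K + 4 by ring)]
      _ ≤ b := hba.symm.le
  have h2a : 2 * (4 * a') ≤ b := by
    calc 2 * (4 * a') = a' * 2 ^ 3 := by ring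
      _ ≤ a' * 2 ^ (2 * K + 4) := by
        apply Nat.mul_le_mul_left
        exact Nat.pow_le_pow_right (by norm_num) (by omega)
      _ = b := hba.symm
  have key := finite_main Q hQ δ hδ hδ' hf hb1 hBpos q g cl hg henc (4 * a') _ (by positivity) hTP
    h2a K d H r hK hHpos hr1 hrd hdb hab hH
  -- the final contradiction
  have hC : b.choose (4 * a') ≤ 2 ^ (τ * (4 * a')) :=
    Pool.Agent.H774R2.QTS.Rank.choose_le b (4 * a') τ (by omega) (by
      calc 4 * b ≤ a' * 2 ^ τ := hτ1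
        _ ≤ 4 * a' * 2 ^ τ := Nat.mul_le_mul_right _ (by omega))
  have hrb : r ≤ 2 ^ (24 * K + 87 + h) := by
    have e1 : r * d ≤ 2 ^ (24 * K + 87 + h) * d := by
      calc r * d ≤ T + 2 * m := hr2
        _ ≤ 4 * H * (T + 2 * m) := Nat.le_mul_of_pos_left _ (Nat.mul_pos (by norm_num) hHpos)
        _ ≤ K * m := hT
        _ ≤ 2 ^ K * (b * 2 ^ (20 * K + 81)) := Nat.mul_le_mul Nat.lt_two_pow_self.le hmb.le
        _ = 2 ^ K * (d * 2 ^ (6 + 3 * K + h) * 2 ^ (20 * K + 81)) := by rw [← hbd]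
        _ = (2 ^ K * 2 ^ (6 + 3 * K + h) * 2 ^ (20 * K + 81)) * d := by ring
        _ = 2 ^ (24 * K + 87 + h) * d := by
          rw [← pow_add, ← pow_add,
            pcongr (show K + (6 + 3 * K + h) + (20 * K + 81) = 24 * K + 87 + h by ring)]
    exact Nat.le_of_mul_le_mul_right e1 hd1
  have hr0 : 1 ≤ r := by rw [hr]; exact Nat.le_add_left 1 _
  have hh : S * (2 * (r + 1)) + 2 + h ≤ 8 * a' := by
    have e1 : S * (2 * (r + 1)) ≤ S * 2 ^ (24 * K + 89 + h) := by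
      apply Nat.mul_le_mul_left
      calc 2 * (r + 1) ≤ 4 * r := by omega
        _ ≤ 4 * 2 ^ (24 * K + 87 + h) := Nat.mul_le_mul_left _ hrb
        _ = 2 ^ (24 * K + 89 + h) := by
          rw [show (4 : ℕ) = 2 ^ 2 by norm_num, ← pow_add]
          exact pcongr (by omega)
    have e2 : 2 + h ≤ S * 2 ^ (24 * K + 89 + h) := by
      calc 2 + h ≤ 2 ^ (h + 1) := by
            have : h + 1 ≤ 2 ^ h := Nat.succ_le_of_lt Nat.lt_two_pow_self
            rw [pow_succ]; omega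
        _ ≤ 2 ^ (24 * K + 89 + h) := Nat.pow_le_pow_right (by norm_num) (by omega)
        _ ≤ _ := Nat.le_mul_of_pos_left _ hS
    have e3 : (S * 2 ^ (24 * K + 90 + h)) * 2 ^ (22 * K + 85) ≤ a' * 2 ^ (22 * K + 85) := by
      calc (S * 2 ^ (24 * K + 90 + h)) * 2 ^ (22 * K + 85)
          = S * 2 ^ (46 * K + 175 + h) := by
            rw [mul_assoc, ← pow_add,
              pcongr (show 24 * K + 90 + h + (22 * K + 85) = 46 * K + 175 + h by ring)]
        _ ≤ S * 2 ^ (46 * K + 180 + 2 * h) := by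
            apply Nat.mul_le_mul_left
            exact Nat.pow_le_pow_right (by norm_num) (by omega)
        _ ≤ m := hm
        _ ≤ b * 2 ^ (20 * K + 81) := hmb.le
        _ = a' * 2 ^ (2 * K + 4) * 2 ^ (20 * K + 81) := by rw [← hba]
        _ = a' * 2 ^ (22 * K + 85) := by
            rw [mul_assoc, ← pow_add,
              pcongr (show 2 * K + 4 + (20 * K + 81) = 22 * K + 85 by ring)]
    have e4 := Nat.le_of_mul_le_mul_right e3 (by positivity)
    have e5 : S * 2 ^ (24 * K + 90 + h) = 2 * (S * 2 ^ (24 * K + 89 + h)) := by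
      rw [show 24 * K + 90 + h = (24 * K + 89 + h) + 1 by ring, pow_succ]; ring
    omega
  have hδ2 : 2 * (1 / 2 : ℝ) ^ h ≤ δ := by
    have e1 : (H : ℝ) ≤ 2 ^ h := by exact_mod_cast hHh
    have e2 : 2 / δ ≤ 2 ^ h := hH.trans e1
    rw [div_le_iff₀ hδ] at e2
    have e3 : (2 : ℝ) ^ h * (1 / 2) ^ h = 1 := by
      rw [← mul_pow]; norm_num
    calc 2 * (1 / 2 : ℝ) ^ h ≤ (2 ^ h * δ) * (1 / 2) ^ h :=
          mul_le_mul_of_nonneg_right e2 (by positivity)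
      _ = δ * (2 ^ h * (1 / 2) ^ h) := by ring
      _ = δ := by rw [e3, mul_one]
  exact final_lt D S r b a' τ w h δ hD hC hw hh hδ2 key

end Param

end Pool.Agent.H774R2.QSAT
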