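import Mathlib
import Pool.Agent.H774R2.QSAT.Param

/-!
# The asymptotic form
-/

open Finset

namespace Pool.Agent.H774R2.QSAT

namespace Asym

theorem asym_small (δ : ℝ) (hδ : 0 < δ) (hδ' : δ ≤ 1 / 2) : ∃ c : ℝ, 0 < c ∧
    ∀ (m D T S : ℕ) (Q : Machine m (Clause m) D T), Q.Valid → D ≤ 2 ^ S → 1 ≤ S →
      (S : ℝ) ≤ c * m → Q.Decides δ Sat → c * m * Real.log (m / S) ≤ T := by
  set H := ⌈2 / δ⌉₊ with hH
  have hH1 : 1 ≤ H := by
    rw [hH, Nat.one_le_ceil_iff]; positivity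
  have hHδ : 2 / δ ≤ H := Nat.le_ceil _
  have hHh : H ≤ 2 ^ H := Nat.lt_two_pow_self.le
  have hHr : (1 : ℝ) ≤ H := by exact_mod_cast hH1
  set Z0 : ℝ := 1472 * H + 452 with hZ0
  refine ⟨min (1 / (736 * H)) (Real.exp (-Z0)), lt_min (by positivity) (Real.exp_pos _), ?_⟩
  set c : ℝ := min (1 / (736 * H)) (Real.exp (-Z0)) with hc
  have hcpos : 0 < c := lt_min (by positivity) (Real.exp_pos _)
  intro m D T S Q hQ hD hS hSc hf
  have hS' : (1 : ℝ) ≤ S := by exact_mod_cast hS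
  have hSpos : (0 : ℝ) < S := by linarith
  set y : ℝ := (m : ℝ) / S with hy
  have hcexp : c ≤ Real.exp (-Z0) := min_le_right _ _
  have hyc : Real.exp Z0 ≤ y := by
    rw [hy, le_div_iff₀ hSpos]
    have h1 : Real.exp Z0 * S ≤ Real.exp Z0 * (Real.exp (-Z0) * m) := by
      apply mul_le_mul_of_nonneg_left _ (Real.exp_pos _).le
      refine hSc.trans ?_
      exact mul_le_mul_of_nonneg_right hcexp (Nat.cast_nonneg m)
    calc Real.exp Z0 * S ≤ Real.exp Z0 * (Real.exp (-Z0) * m) := h1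
      _ = (Real.exp Z0 * Real.exp (-Z0)) * m := by ring
      _ = m := by rw [← Real.exp_add]; simp
  have hypos : 0 < y := lt_of_lt_of_le (Real.exp_pos _) hyc
  set z : ℝ := Real.log y with hz
  have hzZ : Z0 ≤ z := by
    rw [hz, ← Real.log_exp Z0]
    exact Real.log_le_log (Real.exp_pos _) hyc
  have hyz : y = Real.exp z := by rw [hz, Real.exp_log hypos]
  have hmpos : (0 : ℝ) < m := by
    have : (m : ℝ) = y * S := by rw [hy]; field_simp
    rw [this]; positivity
  -- the parameter K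
  set K := ⌊(z - (180 + 2 * H)) / 46⌋₊ with hK
  have hnn : 0 ≤ (z - (180 + 2 * H)) / 46 := by
    apply div_nonneg _ (by norm_num)
    nlinarith
  have hKle : (K : ℝ) ≤ (z - (180 + 2 * H)) / 46 := Nat.floor_le hnn
  have hKge : (z - (180 + 2 * H)) / 46 - 1 ≤ K := by
    have := Nat.lt_floor_add_one ((z - (180 + 2 * H)) / 46)
    linarith
  have hK92 : z / 92 ≤ K := by
    have : z / 92 ≤ (z - (180 + 2 * H)) / 46 - 1 := by
      have h2 : 452 + 4 * (H : ℝ) ≤ z := by
        refine le_trans ?_ hzZ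
        rw [hZ0]; linarith
      linarith
    linarith
  have hK16 : 16 * (H : ℝ) ≤ K := by
    have : 1472 * (H : ℝ) ≤ z := by
      refine le_trans ?_ hzZ
      rw [hZ0]; linarith
    linarith
  have hK1 : 1 ≤ K := by
    have : (1 : ℝ) ≤ K := by linarith
    exact_mod_cast this
  have hm : S * 2 ^ (46 * K + 180 + 2 * H) ≤ m := by
    have h1 : (2 : ℝ) ^ (46 * K + 180 + 2 * H) ≤ y := by
      calc (2 : ℝ) ^ (46 * K + 180 + 2 * H) ≤ Real.exp 1 ^ (46 * K + 180 + 2 * H) := by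
            apply pow_le_pow_left₀ (by norm_num)
            have := Real.exp_one_gt_d9
            linarith
        _ = Real.exp ((46 * K + 180 + 2 * H : ℕ) : ℝ) := by rw [← Real.exp_nat_mul]; simp
        _ ≤ Real.exp z := by
            apply Real.exp_le_exp.2
            push_cast
            linarith
        _ = y := hyz.symm
    have h2 : (S : ℝ) * 2 ^ (46 * K + 180 + 2 * H) ≤ m := by
      calc (S : ℝ) * 2 ^ (46 * K + 180 + 2 * H) ≤ S * y := mul_le_mul_of_nonneg_left h1 hSpos.le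
        _ = m := by rw [hy]; field_simp
    exact_mod_cast h2
  have hcontra : ¬ (4 * H * (T + 2 * m) ≤ K * m) := by
    intro hT
    exact Param.contra Q hQ δ hδ hδ' hf H H K hHδ hHh hK1 hD hS hm hT
  rw [not_le] at hcontra
  have h1 : (K : ℝ) * m ≤ 4 * H * (T + 2 * m) := by exact_mod_cast hcontra.le
  -- 4 H T ≥ K m - 8 H m ≥ K m / 2
  have h2 : (K : ℝ) * m / 2 ≤ 4 * H * T := by
    have : 16 * (H : ℝ) * m ≤ K * m := mul_le_mul_of_nonneg_right hK16 hmpos.le
    linarith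
  have h3 : z * m / (736 * H) ≤ T := by
    rw [div_le_iff₀ (by positivity)]
    have : z / 92 * m ≤ K * m := mul_le_mul_of_nonneg_right hK92 hmpos.le
    linarith
  have hz0 : 0 ≤ z := by
    refine le_trans ?_ hzZ
    rw [hZ0]; positivity
  calc c * m * z ≤ (1 / (736 * H)) * m * z := by
        apply mul_le_mul_of_nonneg_right _ hz0
        exact mul_le_mul_of_nonneg_right (min_le_left _ _) hmpos.le
    _ = z * m / (736 * H) := by ring
    _ ≤ T := h3

theorem asym (δ : ℝ) (hδ : 0 < δ) : ∃ c : ℝ, 0 < c ∧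
    ∀ (m D T S : ℕ) (Q : Machine m (Clause m) D T), Q.Valid → D ≤ 2 ^ S → 1 ≤ S →
      (S : ℝ) ≤ c * m → Q.Decides δ Sat → c * m * Real.log (m / S) ≤ T := by
  obtain ⟨c, hc, h⟩ := asym_small (min δ (1 / 2)) (lt_min hδ (by norm_num)) (min_le_right _ _)
  refine ⟨c, hc, fun m D T S Q hQ hD hS hSc hf => h m D T S Q hQ hD hS hSc fun x => ?_⟩
  have h1 : 1 / 2 + min δ (1 / 2) ≤ 1 / 2 + δ := by
    have := min_le_left δ (1 / 2)
    linarith
  exact ⟨fun hx => h1.trans ((hf x).1 hx), fun hx => h1.trans ((hf x).2 hx)⟩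

end Asym

end Pool.Agent.H774R2.QSAT
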