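import Mathlib
import Pool.Agent.H774R2.QTS.Defs
import Pool.Agent.H774R2.QSAT.Defs
import Pool.Agent.H774R2.QSAT.WDefs

/-!
Blueprint: the statements of the independent tasks (not imported by anything).
-/

open Finset

namespace Pool.Agent.H774R2.QSAT

open Pool.Agent.H774R2.QTS (quad ker)

/-- Task GRAPH. -/
theorem exists_graph (b a' Δ τ : ℕ) (hb : 1 ≤ b) (ha : 1 ≤ a') (hτ : 4 * b ≤ a' * 2 ^ τ)
    (hΔ : (2 * τ + 1) * b ≤ Δ * a') :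
    ∃ E : Finset (Fin b × Fin b), E.card ≤ b * Δ ∧ (∀ p ∈ E, p.1 < p.2) ∧
      ∀ U V : Finset (Fin b), Disjoint U V → a' ≤ U.card → a' ≤ V.card →
        ∃ i ∈ U, ∃ j ∈ V, (i, j) ∈ E ∨ (j, i) ∈ E := by
  sorry

/-- Task KER. -/
theorem exists_q (b w a' τ : ℕ) (E : Finset (Fin b × Fin b)) (hE0 : ∀ p ∈ E, p.1 < p.2)
    (hE : ∀ U V : Finset (Fin b), Disjoint U V → a' ≤ U.card → a' ≤ V.card →
      ∃ i ∈ U, ∃ j ∈ V, (i, j) ∈ E ∨ (j, i) ∈ E)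
    (ha : 1 ≤ a') (hτ : 4 * b ≤ a' * 2 ^ τ) (hw : 8 * τ + 8 ≤ w) :
    ∃ q : ℕ → ZMod 2, (nz (b * w) q).card ≤ E.card * w ^ 2 ∧
      ∀ A B : Finset (Fin b), Disjoint A B → A.card = 4 * a' → B.card = 4 * a' →
        (ker q (bitsOf w A) (bitsOf w B)).card ≤ 2 ^ (2 * a' * w) := by
  sorry

/-- Task ENC. -/
theorem enc (b w B P m : ℕ) (q : ℕ → ZMod 2) (hb : 1 ≤ b) (hw : 1 ≤ w) (hB : 1 ≤ B)
    (hP : (nz (b * w) q).card ≤ P)
    (hm : 8 * P + B * b + 4 * B + 2 * (b * w) + 2 * (b * w * 2 ^ w) + 16 ≤ m) :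
    ∃ (g : Fin m → Option (Fin B × Fin b)) (cl : Fin m → (Fin w → ZMod 2) → Clause m),
      (∀ p, ∃ j, g j = some p) ∧ ∀ x : Fin B → Fin b → Fin w → ZMod 2,
        Sat (fun j => cl j ((g j).elim 0 fun p => x p.1 p.2)) ↔ ∃ i, quad q (flat (x i)) = 1 := by
  sorry

open Classical in
/-- Task PROB2. -/
theorem prob_two {b : ℕ} {β : Type} [Fintype β] [DecidableEq β] (J : Fin b → Finset β)
    (K d H a : ℕ) (hb : 1 ≤ b) (hK : 1 ≤ K) (hH : 1 ≤ H)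
    (hsum : ∑ i, (J i).card ≤ K * b)
    (hd : ∀ j, (univ.filter fun i => j ∈ J i).card ≤ d)
    (hdb : 64 * K * H * 4 ^ K * d ≤ b) (ha : 4 * 4 ^ K * a ≤ b) :
    (1 - 1 / (H : ℝ)) * 2 ^ (Fintype.card β) ≤
      ((univ.filter fun ω : β → Bool =>
        a ≤ (univ.filter fun i => ∀ j ∈ J i, ω j = true).card ∧
        a ≤ (univ.filter fun i => ∀ j ∈ J i, ω j = false).card).card : ℝ) := by
  sorry

end Pool.Agent.H774R2.QSAT
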